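import Mathlib

set_option autoImplicit false

namespace Pool.Agent.MP_e76e0e_co

open Classical

/-- `H` is a minor of `G`: there are pairwise disjoint branch sets, each inducing a connected
(in particular non-empty) subgraph of `G`, and every edge of `H` is realised by an edge of `G`
between the two branch sets. -/
def IsMinor {W V : Type} (H : SimpleGraph W) (G : SimpleGraph V) : Prop :=
  ∃ φ : W → Set V, (∀ a, (G.induce (φ a)).Connected) ∧
    (∀ a b, a ≠ b → Disjoint (φ a) (φ b)) ∧
    (∀ a b, H.Adj a b → ∃ x ∈ φ a, ∃ y ∈ φ b, G.Adj x y)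

/-- A finite simple graph with at least one vertex; its vertex set is `{0, ..., m}`. -/
abbrev FG : Type := Σ m : ℕ, SimpleGraph (Fin (m + 1))

/-- the number of vertices -/
def order (G : FG) : ℕ := G.1 + 1

/-- the number of edges -/
noncomputable def size (G : FG) : ℕ := G.2.edgeSet.ncard

/-- the density, edges divided by vertices -/
noncomputable def rho (G : FG) : ℝ := (size G : ℝ) / (order G : ℝ)

/-- proper minor-closed classes -/
structure ProperMinorClosed (A : Set FG) : Prop where
  nonempty : A.Nonempty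
  ne_univ : A ≠ Set.univ
  minor : ∀ G ∈ A, ∀ H : FG, IsMinor H.2 G.2 → H ∈ A

/-- the set of critical densities -/
def B : Set ℝ := {β | ∃ A : Set FG, ProperMinorClosed A ∧ IsLUB (rho '' A) β}

/-- the greatest lower bound of the elements of `B` greater than `x` (it is the least such
element, as `B` is well-ordered) -/
noncomputable def next (x : ℝ) : ℝ := sInf {b | b ∈ B ∧ x < b}

/-- the gap of `B` above `x` -/
noncomputable def gap (x : ℝ) : ℝ := next x - x

/-- the supremum of all the gaps above the reals `x ≥ n` -/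
noncomputable def gapStar (n : ℕ) : ℝ := sSup (gap '' Set.Ici (n : ℝ))

/-- `G` is minor-minimal among the graphs of density greater than `x` -/
def MinimalAbove (x : ℝ) (G : FG) : Prop :=
  x < rho G ∧ ∀ H : FG, IsMinor H.2 G.2 → (order H < order G ∨ size H < size G) → rho H ≤ x

/-- `1, 2, 5, 16, 65, ...`, the number `∑_{i ≤ n} n (n - 1) ⋯ (n - i + 1) = ⌊e n!⌋` (`n ≥ 1`) -/
def arr (n : ℕ) : ℕ := ∑ i ∈ Finset.range (n + 1), n.descFactorial i

theorem arr_succ (n : ℕ) : arr (n + 1) = 1 + (n + 1) * arr n := by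
  unfold arr
  rw [Finset.sum_range_succ', Nat.descFactorial_zero, add_comm, Finset.mul_sum]
  congr 1
  exact Finset.sum_congr rfl fun i _ => Nat.succ_descFactorial_succ n i

/-! ### walks and connected sets -/

section walks
variable {V : Type}

theorem conn_of_walks (G : SimpleGraph V) {S : Set V} {x : V} (hx : x ∈ S)
    (h : ∀ y ∈ S, ∃ p : G.Walk x y, ∀ v ∈ p.support, v ∈ S) : (G.induce S).Connected := by
  have : Nonempty S := ⟨⟨x, hx⟩⟩
  refine SimpleGraph.Connected.mk ?_
  have key : ∀ y : S, (G.induce S).Reachable ⟨x, hx⟩ y := by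
    rintro ⟨y, hy⟩
    obtain ⟨p, hp⟩ := h y hy
    exact ⟨p.induce S hp⟩
  exact fun y z => (key y).symm.trans (key z)

theorem walk_of_induce (G : SimpleGraph V) {S : Set V} : ∀ {x y : S} (_ : (G.induce S).Walk x y),
    ∃ p : G.Walk x.1 y.1, ∀ v ∈ p.support, v ∈ S := by
  intro x y p
  induction p with
  | @nil u =>
    refine ⟨SimpleGraph.Walk.nil, fun v hv => ?_⟩
    rw [SimpleGraph.Walk.support_nil, List.mem_singleton] at hv
    rw [hv]
    exact u.2
  | @cons u w z h _ ih =>
    obtain ⟨q, hq⟩ := ih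
    have h' : G.Adj u.1 w.1 := h
    refine ⟨SimpleGraph.Walk.cons h' q, fun v hv => ?_⟩
    rw [SimpleGraph.Walk.support_cons, List.mem_cons] at hv
    rcases hv with hv | hv
    · rw [hv]
      exact u.2
    · exact hq v hv

theorem walk_of_conn (G : SimpleGraph V) {S : Set V} (h : (G.induce S).Connected) {x y : V}
    (hx : x ∈ S) (hy : y ∈ S) : ∃ p : G.Walk x y, ∀ v ∈ p.support, v ∈ S := by
  obtain ⟨p⟩ := h.preconnected ⟨x, hx⟩ ⟨y, hy⟩
  exact walk_of_induce G p

theorem conn_singleton (G : SimpleGraph V) (x : V) : (G.induce ({x} : Set V)).Connected := by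
  refine conn_of_walks G (Set.mem_singleton x) ?_
  rintro y rfl
  exact ⟨SimpleGraph.Walk.nil, by simp⟩

end walks

/-! ### minors -/

theorem isMinor_of_inj {W V : Type} {H : SimpleGraph W} {G : SimpleGraph V} (f : W → V)
    (hf : Function.Injective f) (h : ∀ a b, H.Adj a b → G.Adj (f a) (f b)) : IsMinor H G :=
  ⟨fun a => {f a}, fun a => conn_singleton G _, fun a b hab => by
    rw [Set.disjoint_singleton]; exact fun e => hab (hf e),
    fun a b hab => ⟨f a, rfl, f b, rfl, h a b hab⟩⟩

/-- The minor relation is transitive. -/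
theorem isMinor_trans {W' W V : Type} {H' : SimpleGraph W'} {H : SimpleGraph W}
    {G : SimpleGraph V} (h1 : IsMinor H' H) (h2 : IsMinor H G) : IsMinor H' G := by
  obtain ⟨ψ, a1, a2, a3⟩ := h1
  obtain ⟨φ, b1, b2, b3⟩ := h2
  have key : ∀ (S : Set W) {a b : W} (p : H.Walk a b), (∀ c ∈ p.support, c ∈ S) →
      ∀ v ∈ φ a, ∀ w ∈ φ b, ∃ q : G.Walk v w, ∀ x ∈ q.support, ∃ c ∈ S, x ∈ φ c := by
    intro S a b p
    induction p with
    | @nil a =>
      intro hS v hv w hw
      obtain ⟨q, hq⟩ := walk_of_conn G (b1 a) hv hw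
      exact ⟨q, fun x hx => ⟨a, hS a (by simp), hq x hx⟩⟩
    | @cons a c b hac p ih =>
      intro hS v hv w hw
      obtain ⟨x, hx, y, hy, hxy⟩ := b3 a c hac
      obtain ⟨q1, hq1⟩ := walk_of_conn G (b1 a) hv hx
      obtain ⟨q2, hq2⟩ := ih (fun e he => hS e (by
        rw [SimpleGraph.Walk.support_cons]
        exact List.mem_cons_of_mem _ he)) y hy w hw
      refine ⟨q1.append (SimpleGraph.Walk.cons hxy q2), ?_⟩
      intro z hz
      rw [SimpleGraph.Walk.mem_support_append_iff] at hz
      rcases hz with hz | hz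
      · exact ⟨a, hS a (by simp), hq1 z hz⟩
      · rw [SimpleGraph.Walk.support_cons, List.mem_cons] at hz
        rcases hz with rfl | hz
        · exact ⟨a, hS a (by simp), hx⟩
        · exact hq2 z hz
  refine ⟨fun a' => {v | ∃ a ∈ ψ a', v ∈ φ a}, ?_, ?_, ?_⟩
  · intro a'
    obtain ⟨⟨a0, ha0⟩⟩ := (a1 a').nonempty
    obtain ⟨⟨v0, hv0⟩⟩ := (b1 a0).nonempty
    refine conn_of_walks G (x := v0) ⟨a0, ha0, hv0⟩ ?_
    rintro y ⟨b, hb, hy⟩
    obtain ⟨p, hp⟩ := walk_of_conn H (a1 a') ha0 hb
    exact key (ψ a') p hp v0 hv0 y hy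
  · intro a' b' hab
    rw [Set.disjoint_left]
    rintro v ⟨a, ha, hva⟩ ⟨b, hb, hvb⟩
    by_cases hne : a = b
    · subst hne
      exact Set.disjoint_left.1 (a2 a' b' hab) ha hb
    · exact Set.disjoint_left.1 (b2 a b hne) hva hvb
  · intro a' b' hab
    obtain ⟨a, ha, b, hb, hab'⟩ := a3 a' b' hab
    obtain ⟨x, hx, y, hy, hxy⟩ := b3 a b hab'
    exact ⟨x, ⟨a, ha, hx⟩, y, ⟨b, hb, hy⟩, hxy⟩

/-- representatives of the branch sets -/
theorem exists_rep {W V : Type} {G : SimpleGraph V} {φ : W → Set V}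
    (h1 : ∀ a, (G.induce (φ a)).Connected) (h2 : ∀ a b, a ≠ b → Disjoint (φ a) (φ b)) :
    ∃ f : W → V, Function.Injective f ∧ ∀ a, f a ∈ φ a := by
  have h : ∀ a, ∃ v, v ∈ φ a := fun a => by
    obtain ⟨⟨v, hv⟩⟩ := (h1 a).nonempty
    exact ⟨v, hv⟩
  choose f hf using h
  refine ⟨f, fun a b hab => ?_, hf⟩
  by_contra hne
  exact Set.disjoint_left.1 (h2 a b hne) (hf a) (hab ▸ hf b)

theorem card_le_of_minor {W V : Type} [Fintype W] [Fintype V] {H : SimpleGraph W}
    {G : SimpleGraph V} (h : IsMinor H G) : Fintype.card W ≤ Fintype.card V := by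
  obtain ⟨φ, h1, h2, h3⟩ := h
  obtain ⟨f, hf, -⟩ := exists_rep h1 h2
  exact Fintype.card_le_of_injective f hf

/-! ### counting edges -/

section count
variable {V : Type} [Fintype V]

/-- the number of ordered pairs of adjacent vertices -/
noncomputable def dcount (G : SimpleGraph V) : ℕ := ∑ u : V, ∑ v : V, if G.Adj u v then 1 else 0

theorem dcount_eq (G : SimpleGraph V) : dcount G = 2 * G.edgeSet.ncard := by
  have h := G.sum_degrees_eq_twice_card_edges
  have h1 : G.edgeSet.ncard = G.edgeFinset.card := by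
    rw [Set.ncard_eq_toFinset_card']
    rfl
  rw [h1, ← h]
  unfold dcount
  refine Finset.sum_congr rfl fun u _ => ?_
  rw [← SimpleGraph.card_neighborFinset_eq_degree, SimpleGraph.neighborFinset_eq_filter,
    Finset.card_filter]

end count

theorem dcount_le_of_minor {W V : Type} [Fintype W] [Fintype V] {H : SimpleGraph W}
    {G : SimpleGraph V} (h : IsMinor H G) (hc : Fintype.card V ≤ Fintype.card W) :
    dcount H ≤ dcount G := by
  have hc' : Fintype.card W = Fintype.card V := le_antisymm (card_le_of_minor h) hc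
  obtain ⟨φ, h1, h2, h3⟩ := h
  obtain ⟨f, hf, hfm⟩ := exists_rep h1 h2
  have hb : Function.Bijective f := (Fintype.bijective_iff_injective_and_card f).2 ⟨hf, hc'⟩
  have hs : ∀ a, ∀ x ∈ φ a, x = f a := by
    intro a x hx
    obtain ⟨b, rfl⟩ := hb.2 x
    by_contra hne
    have hab : b ≠ a := fun e => hne (by rw [e])
    exact Set.disjoint_left.1 (h2 b a hab) (hfm b) hx
  have e1 : dcount G = ∑ a : W, ∑ b : W, if G.Adj (f a) (f b) then 1 else 0 := by
    unfold dcount
    rw [← Equiv.sum_comp (Equiv.ofBijective f hb)]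
    refine Finset.sum_congr rfl fun a _ => ?_
    rw [← Equiv.sum_comp (Equiv.ofBijective f hb)]
    rfl
  rw [e1]
  unfold dcount
  refine Finset.sum_le_sum fun a _ => Finset.sum_le_sum fun b _ => ?_
  by_cases hab : H.Adj a b
  · obtain ⟨x, hx, y, hy, hxy⟩ := h3 a b hab
    rw [hs a x hx, hs b y hy] at hxy
    rw [if_pos hab, if_pos hxy]
  · rw [if_neg hab]
    exact Nat.zero_le _

/-! ### the cone over `k` disjoint copies of a graph -/

/-- the cone over `k` disjoint copies of `G` -/
def cone {V : Type} (k : ℕ) (G : SimpleGraph V) : SimpleGraph (Option (Fin k × V)) where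
  Adj a b := (a = none ∧ b ≠ none) ∨ (a ≠ none ∧ b = none) ∨
    ∃ i u v, a = some (i, u) ∧ b = some (i, v) ∧ G.Adj u v
  symm := ⟨by
    rintro a b (⟨h1, h2⟩ | ⟨h1, h2⟩ | ⟨i, u, v, h1, h2, h3⟩)
    · exact Or.inr (Or.inl ⟨h2, h1⟩)
    · exact Or.inl ⟨h2, h1⟩
    · exact Or.inr (Or.inr ⟨i, v, u, h2, h1, h3.symm⟩)⟩
  loopless := ⟨by
    rintro a (⟨h1, h2⟩ | ⟨h1, h2⟩ | ⟨i, u, v, h1, h2, h3⟩)
    · exact h2 h1
    · exact h1 h2
    · rw [h1, Option.some_inj, Prod.mk.injEq] at h2
      rw [h2.2] at h3
      exact G.loopless.irrefl _ h3⟩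

theorem cone_none {V : Type} {k : ℕ} {G : SimpleGraph V} {a : Option (Fin k × V)} :
    (cone k G).Adj none a ↔ a ≠ none := by
  simp [cone]

theorem cone_some {V : Type} {k : ℕ} {G : SimpleGraph V} {i j : Fin k} {u v : V} :
    (cone k G).Adj (some (i, u)) (some (j, v)) ↔ i = j ∧ G.Adj u v := by
  simp only [cone, reduceCtorEq, false_and, ne_eq, not_false_eq_true, and_false, false_or,
    Option.some_inj, Prod.mk.injEq]
  constructor
  · rintro ⟨i', u', v', ⟨rfl, rfl⟩, ⟨rfl, rfl⟩, h⟩
    exact ⟨rfl, h⟩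
  · rintro ⟨rfl, h⟩
    exact ⟨i, u, v, ⟨rfl, rfl⟩, ⟨rfl, rfl⟩, h⟩

theorem card_cone {V : Type} [Fintype V] (k : ℕ) :
    Fintype.card (Option (Fin k × V)) = k * Fintype.card V + 1 := by
  rw [Fintype.card_option, Fintype.card_prod, Fintype.card_fin]

theorem dcount_cone {V : Type} [Fintype V] (k : ℕ) (G : SimpleGraph V) :
    dcount (cone k G) = 2 * (k * Fintype.card V) + k * dcount G := by
  unfold dcount
  rw [Fintype.sum_option, Fintype.sum_option]
  have h0 : ¬ (cone k G).Adj none none := (cone k G).loopless.irrefl none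
  have h1 : ∀ x : Fin k × V, (cone k G).Adj none (some x) := fun x =>
    cone_none.2 (Option.some_ne_none x)
  have h2 : ∀ x : Fin k × V, (cone k G).Adj (some x) none := fun x => (h1 x).symm
  rw [if_neg h0]
  have e1 : ∑ x : Fin k × V, (if (cone k G).Adj none (some x) then 1 else 0) =
      k * Fintype.card V := by
    simp only [h1, if_true, Finset.sum_const, Finset.card_univ, Fintype.card_prod,
      Fintype.card_fin, smul_eq_mul, mul_one]
  have e2 : ∑ x : Fin k × V, ∑ v : Option (Fin k × V),
      (if (cone k G).Adj (some x) v then 1 else 0) =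
      k * Fintype.card V + k * ∑ u : V, ∑ v : V, (if G.Adj u v then 1 else 0) := by
    have e3 : ∀ x : Fin k × V, ∑ v : Option (Fin k × V),
        (if (cone k G).Adj (some x) v then 1 else 0) =
        1 + ∑ v : V, (if G.Adj x.2 v then 1 else 0) := by
      rintro ⟨i, u⟩
      rw [Fintype.sum_option, if_pos (h2 _), Fintype.sum_prod_type]
      congr 1
      rw [Finset.sum_eq_single i]
      · refine Finset.sum_congr rfl fun v _ => ?_
        simp only [cone_some, true_and]
      · intro j _ hj
        refine Finset.sum_eq_zero fun v _ => ?_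
        rw [if_neg]
        rw [cone_some]
        exact fun h => hj h.1.symm
      · intro h
        exact absurd (Finset.mem_univ i) h
    have e4 : ∑ x : Fin k × V, ∑ v : V, (if G.Adj x.2 v then 1 else 0) =
        k * ∑ u : V, ∑ v : V, (if G.Adj u v then 1 else 0) := by
      have e5 : ∀ i : Fin k, (∑ u : V, ∑ v : V, (if G.Adj ((i, u) : Fin k × V).2 v then 1 else 0)) =
          ∑ u : V, ∑ v : V, (if G.Adj u v then 1 else 0) := fun i => rfl
      rw [Fintype.sum_prod_type, Finset.sum_congr rfl fun i _ => e5 i, Finset.sum_const,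
        Finset.card_univ, Fintype.card_fin, smul_eq_mul]
    rw [Finset.sum_congr rfl fun x _ => e3 x, Finset.sum_add_distrib, e4]
    simp only [Finset.sum_const, Finset.card_univ, Fintype.card_prod, Fintype.card_fin,
      smul_eq_mul, mul_one]
  rw [e1, e2]
  ring

/-- a walk which avoids the apex stays in one copy -/
theorem walk_copy {V : Type} {k : ℕ} {G : SimpleGraph V} : ∀ {a b : Option (Fin k × V)}
    (p : (cone k G).Walk a b), none ∉ p.support → ∀ i u, a = some (i, u) →
    ∃ v, b = some (i, v) ∧ ∃ q : G.Walk u v, ∀ z ∈ q.support, some (i, z) ∈ p.support := by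
  intro a b p
  induction p with
  | @nil a =>
    intro _ i u ha
    refine ⟨u, ha, SimpleGraph.Walk.nil, fun z hz => ?_⟩
    rw [SimpleGraph.Walk.support_nil, List.mem_singleton] at hz
    rw [hz, SimpleGraph.Walk.support_nil, List.mem_singleton, ha]
  | @cons a c b h p ih =>
    intro hn i u ha
    rw [SimpleGraph.Walk.support_cons, List.mem_cons, not_or] at hn
    have hc : c ≠ none := fun e => hn.2 (e ▸ p.start_mem_support)
    obtain ⟨⟨j, w⟩, hw⟩ := Option.ne_none_iff_exists'.1 hc
    subst ha hw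
    obtain ⟨rfl, huw⟩ := cone_some.1 h
    obtain ⟨v, hv, q, hq⟩ := ih hn.2 i w rfl
    refine ⟨v, hv, SimpleGraph.Walk.cons huw q, fun z hz => ?_⟩
    rw [SimpleGraph.Walk.support_cons, List.mem_cons] at hz
    rw [SimpleGraph.Walk.support_cons, List.mem_cons]
    rcases hz with rfl | hz
    · exact Or.inl rfl
    · exact Or.inr (hq z hz)

/-- the structure of the minors of a cone -/
theorem minor_cone {W V : Type} {k : ℕ} {G : SimpleGraph V} {H : SimpleGraph W}
    (h : IsMinor H (cone k G)) : ∃ c : W → Option (Fin k),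
      (∀ a b, c a = none → c b = none → a = b) ∧
      (∀ a b i j, c a = some i → c b = some j → H.Adj a b → i = j) ∧
      ∀ i, IsMinor (H.induce {a | c a = some i}) G := by
  obtain ⟨φ, h1, h2, h3⟩ := h
  obtain ⟨f, hf, hfm⟩ := exists_rep h1 h2
  have hcopy : ∀ a, none ∉ φ a → ∀ i u j v, some (i, u) ∈ φ a → some (j, v) ∈ φ a → i = j := by
    intro a ha i u j v hu hv
    obtain ⟨p, hp⟩ := walk_of_conn _ (h1 a) hu hv
    obtain ⟨v', hv', -⟩ := walk_copy p (fun hn => ha (hp _ hn)) i u rfl
    rw [Option.some_inj, Prod.mk.injEq] at hv'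
    exact hv'.1.symm
  let c : W → Option (Fin k) := fun a => if none ∈ φ a then none else (f a).map Prod.fst
  have hc0 : ∀ a, c a = none ↔ none ∈ φ a := by
    intro a
    by_cases ha : none ∈ φ a
    · simp [c, ha]
    · have h4 : f a ≠ none := fun e => ha (e ▸ hfm a)
      simp only [c, if_neg ha, Option.map_eq_none_iff, ha, iff_false]
      exact h4
  have hc1 : ∀ a i, c a = some i → none ∉ φ a ∧ ∃ u, some (i, u) ∈ φ a := by
    intro a i hi
    have ha : none ∉ φ a := by
      rw [← hc0, hi]
      exact Option.some_ne_none i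
    refine ⟨ha, ?_⟩
    simp only [c, if_neg ha, Option.map_eq_some_iff] at hi
    obtain ⟨⟨j, u⟩, hu, rfl⟩ := hi
    exact ⟨u, hu ▸ hfm a⟩
  refine ⟨c, ?_, ?_, ?_⟩
  · intro a b ha hb
    by_contra hne
    exact Set.disjoint_left.1 (h2 a b hne) ((hc0 a).1 ha) ((hc0 b).1 hb)
  · intro a b i j ha hb hab
    obtain ⟨ha', u, hu⟩ := hc1 a i ha
    obtain ⟨hb', v, hv⟩ := hc1 b j hb
    obtain ⟨x, hx, y, hy, hxy⟩ := h3 a b hab
    have hx0 : x ≠ none := fun e => ha' (e ▸ hx)
    have hy0 : y ≠ none := fun e => hb' (e ▸ hy)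
    obtain ⟨⟨i', x'⟩, rfl⟩ := Option.ne_none_iff_exists'.1 hx0
    obtain ⟨⟨j', y'⟩, rfl⟩ := Option.ne_none_iff_exists'.1 hy0
    rw [hcopy a ha' i u i' x' hu hx, hcopy b hb' j v j' y' hv hy]
    exact (cone_some.1 hxy).1
  · intro i
    refine ⟨fun a => {v | some (i, v) ∈ φ a.1}, ?_, ?_, ?_⟩
    · rintro ⟨a, ha⟩
      obtain ⟨ha', u, hu⟩ := hc1 a i ha
      refine conn_of_walks G (x := u) hu ?_
      intro y hy
      obtain ⟨p, hp⟩ := walk_of_conn _ (h1 a) hu hy
      obtain ⟨v, hv, q, hq⟩ := walk_copy p (fun hn => ha' (hp _ hn)) i u rfl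
      rw [Option.some_inj, Prod.mk.injEq] at hv
      obtain ⟨-, rfl⟩ := hv
      exact ⟨q, fun z hz => hp _ (hq z hz)⟩
    · rintro ⟨a, ha⟩ ⟨b, hb⟩ hab
      rw [Set.disjoint_left]
      intro v hv hv'
      exact Set.disjoint_left.1 (h2 a b (fun e => hab (Subtype.ext e))) hv hv'
    · rintro ⟨a, ha⟩ ⟨b, hb⟩ hab
      obtain ⟨ha', u, hu⟩ := hc1 a i ha
      obtain ⟨hb', v, hv⟩ := hc1 b i hb
      obtain ⟨x, hx, y, hy, hxy⟩ := h3 a b hab
      have hx0 : x ≠ none := fun e => ha' (e ▸ hx)
      have hy0 : y ≠ none := fun e => hb' (e ▸ hy)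
      obtain ⟨⟨i', x'⟩, rfl⟩ := Option.ne_none_iff_exists'.1 hx0
      obtain ⟨⟨j', y'⟩, rfl⟩ := Option.ne_none_iff_exists'.1 hy0
      obtain rfl := hcopy a ha' i u i' x' hu hx
      obtain rfl := hcopy b hb' i v j' y' hv hy
      exact ⟨x', hx, y', hy, (cone_some.1 hxy).2⟩

/-- splitting the edge count along `c` -/
theorem count_split {W : Type} [Fintype W] {k : ℕ} (H : SimpleGraph W) (c : W → Option (Fin k))
    (hc : ∀ a b i j, c a = some i → c b = some j → H.Adj a b → i = j) :
    dcount H ≤ 2 * ((Finset.univ.filter fun a => c a = none).card * (Fintype.card W - 1)) +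
      ∑ i : Fin k, dcount (H.induce {a | c a = some i}) := by
  have hpt : ∀ a b : W, (if H.Adj a b then 1 else 0) ≤
      (if c a = none ∧ a ≠ b then 1 else 0) + (if c b = none ∧ a ≠ b then 1 else 0) +
        ∑ i : Fin k, (if c a = some i ∧ c b = some i ∧ H.Adj a b then 1 else 0) := by
    intro a b
    by_cases hab : H.Adj a b
    · rw [if_pos hab]
      have hne : a ≠ b := hab.ne
      rcases ha : c a with _ | i
      · simp [hne]
      rcases hb : c b with _ | j
      · simp [hne]
      · obtain rfl := hc a b i j ha hb hab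
        have h1 : 1 ≤ ∑ l : Fin k, (if some i = some l ∧ some i = some l ∧ H.Adj a b then 1 else 0) := by
          refine le_trans ?_ (Finset.single_le_sum (f := fun l : Fin k =>
            (if some i = some l ∧ some i = some l ∧ H.Adj a b then 1 else 0))
            (fun _ _ => Nat.zero_le _) (Finset.mem_univ i))
          simp [hab]
        omega
    · rw [if_neg hab]
      exact Nat.zero_le _
  have e1 : ∀ a : W, ∑ b : W, (if c a = none ∧ a ≠ b then 1 else 0) =
      if c a = none then Fintype.card W - 1 else 0 := by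
    intro a
    by_cases ha : c a = none
    · simp only [ha, true_and, if_true]
      rw [← Finset.card_filter]
      have : (Finset.univ.filter fun b => a ≠ b) = Finset.univ.erase a := by
        ext b
        simp [eq_comm]
      rw [this, Finset.card_erase_of_mem (Finset.mem_univ a), Finset.card_univ]
    · simp [ha]
  have e2 : ∑ a : W, ∑ b : W, (if c a = none ∧ a ≠ b then 1 else 0) =
      (Finset.univ.filter fun a => c a = none).card * (Fintype.card W - 1) := by
    rw [Finset.sum_congr rfl fun a _ => e1 a, ← Finset.sum_filter, Finset.sum_const, smul_eq_mul]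
  have e3 : ∑ a : W, ∑ b : W, (if c b = none ∧ a ≠ b then 1 else 0) =
      (Finset.univ.filter fun a => c a = none).card * (Fintype.card W - 1) := by
    rw [Finset.sum_comm, ← e2]
    refine Finset.sum_congr rfl fun a _ => Finset.sum_congr rfl fun b _ => ?_
    simp only [ne_comm]
  have e4 : ∀ i : Fin k, ∑ a : W, ∑ b : W, (if c a = some i ∧ c b = some i ∧ H.Adj a b then 1 else 0) =
      dcount (H.induce {a | c a = some i}) := by
    intro i
    unfold dcount
    have h1 : ∀ g : W → ℕ, ∑ a : W, (if c a = some i then g a else 0) =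
        ∑ a : {a | c a = some i}, g a.1 := by
      intro g
      rw [← Finset.sum_filter]
      exact (Finset.sum_subtype (Finset.univ.filter fun a => c a = some i)
        (p := fun a => c a = some i) (fun a => by simp) g)
    have h2 : ∀ a b : W, (if c a = some i ∧ c b = some i ∧ H.Adj a b then 1 else 0) =
        if c a = some i then (if c b = some i then (if H.Adj a b then 1 else 0) else 0) else 0 := by
      intro a b
      split_ifs <;> simp_all
    have h3 : ∀ a : W, ∑ b : W, (if c a = some i ∧ c b = some i ∧ H.Adj a b then 1 else 0) =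
        if c a = some i then ∑ b : {a | c a = some i}, (if H.Adj a b.1 then 1 else 0) else 0 := by
      intro a
      rw [Finset.sum_congr rfl fun b _ => h2 a b]
      by_cases ha : c a = some i
      · simp only [if_pos ha]
        exact h1 fun b => if H.Adj a b then 1 else 0
      · simp only [if_neg ha, Finset.sum_const_zero]
    rw [Finset.sum_congr rfl fun a _ => h3 a, h1]
    rfl
  calc dcount H ≤ ∑ a : W, ∑ b : W, ((if c a = none ∧ a ≠ b then 1 else 0) +
        (if c b = none ∧ a ≠ b then 1 else 0) +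
        ∑ i : Fin k, (if c a = some i ∧ c b = some i ∧ H.Adj a b then 1 else 0)) :=
        Finset.sum_le_sum fun a _ => Finset.sum_le_sum fun b _ => hpt a b
    _ = _ := by
        simp only [Finset.sum_add_distrib]
        rw [e2, e3]
        have e5 : ∑ a : W, ∑ b : W, ∑ i : Fin k,
            (if c a = some i ∧ c b = some i ∧ H.Adj a b then 1 else 0) =
            ∑ i : Fin k, dcount (H.induce {a | c a = some i}) := by
          calc _ = ∑ a : W, ∑ i : Fin k, ∑ b : W,
                (if c a = some i ∧ c b = some i ∧ H.Adj a b then 1 else 0) :=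
                Finset.sum_congr rfl fun a _ => Finset.sum_comm
            _ = ∑ i : Fin k, ∑ a : W, ∑ b : W,
                (if c a = some i ∧ c b = some i ∧ H.Adj a b then 1 else 0) := Finset.sum_comm
            _ = _ := Finset.sum_congr rfl fun i _ => e4 i
        rw [e5]
        ring

theorem card_split {W : Type} [Fintype W] {k : ℕ} (c : W → Option (Fin k)) :
    Fintype.card W = (Finset.univ.filter fun a => c a = none).card +
      ∑ i : Fin k, Fintype.card {a | c a = some i} := by
  rw [← Finset.card_univ, Finset.card_eq_sum_card_fiberwise (f := c) (t := Finset.univ)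
    (fun _ _ => Finset.mem_univ _), Fintype.sum_option]
  congr 1
  refine Finset.sum_congr rfl fun i _ => ?_
  rw [Fintype.card_subtype]
  rfl

/-! ### critical graphs -/

/-- the number of edges of a graph on a finite type -/
noncomputable def sz {V : Type} (G : SimpleGraph V) : ℕ := G.edgeSet.ncard

/-- `G` has `x |V| < e(G) ≤ x |V| + 1` and all minors with fewer vertices have density at most `x`. -/
structure Crit {V : Type} [Fintype V] (x : ℝ) (G : SimpleGraph V) : Prop where
  pos : 0 < Fintype.card V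
  gt : x * Fintype.card V < sz G
  le : (sz G : ℝ) ≤ x * Fintype.card V + 1
  minor : ∀ (W : Type) [Fintype W] (H : SimpleGraph W), IsMinor H G →
    Fintype.card W < Fintype.card V → (sz H : ℝ) ≤ x * Fintype.card W

theorem sz_le_of_minor {W V : Type} [Fintype W] [Fintype V] {H : SimpleGraph W}
    {G : SimpleGraph V} (h : IsMinor H G) (hc : Fintype.card V ≤ Fintype.card W) : sz H ≤ sz G := by
  have h1 := dcount_le_of_minor h hc
  rw [dcount_eq, dcount_eq] at h1
  unfold sz
  omega

theorem sz_cone {V : Type} [Fintype V] (k : ℕ) (G : SimpleGraph V) :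
    sz (cone k G) = k * Fintype.card V + k * sz G := by
  have h1 := dcount_cone k G
  rw [dcount_eq, dcount_eq] at h1
  unfold sz
  have e : k * (2 * G.edgeSet.ncard) = 2 * (k * G.edgeSet.ncard) := by ring
  omega

theorem cone_minor_bound {V : Type} [Fintype V] {x : ℝ} {G : SimpleGraph V}
    (hG : Crit x G) {k : ℕ} (hk : ((k : ℝ) - 1) * (sz G - x * Fintype.card V) ≤ x + 1)
    {W : Type} [Fintype W] {H : SimpleGraph W} (h : IsMinor H (cone k G))
    (hW : Fintype.card W < k * Fintype.card V + 1) : (sz H : ℝ) ≤ (x + 1) * Fintype.card W := by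
  obtain ⟨c, hc1, hc2, hc3⟩ := minor_cone h
  have h1 := count_split H c hc2
  have h2 := card_split c
  set η : ℝ := sz G - x * Fintype.card V with hη
  have hη0 : 0 < η := sub_pos.2 hG.gt
  have hη1 : η ≤ 1 := by
    rw [hη]
    linarith [hG.le]
  set N := (Finset.univ.filter fun a => c a = none).card with hN
  have hN1 : N ≤ 1 := by
    rw [hN, Finset.card_le_one]
    intro a ha b hb
    exact hc1 a b (Finset.mem_filter.1 ha).2 (Finset.mem_filter.1 hb).2
  have h3 : sz H ≤ N * (Fintype.card W - 1) + ∑ i : Fin k, sz (H.induce {a | c a = some i}) := by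
    have e1 : ∑ i : Fin k, dcount (H.induce {a | c a = some i}) =
        2 * ∑ i : Fin k, sz (H.induce {a | c a = some i}) := by
      rw [Finset.mul_sum]
      exact Finset.sum_congr rfl fun i _ => dcount_eq _
    rw [e1, dcount_eq] at h1
    unfold sz at h1 ⊢
    omega
  have hle : ∀ i, Fintype.card {a | c a = some i} ≤ Fintype.card V := fun i =>
    card_le_of_minor (hc3 i)
  have hterm : ∀ i, (sz (H.induce {a | c a = some i}) : ℝ) -
      x * Fintype.card {a | c a = some i} ≤ η := by
    intro i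
    rcases lt_or_eq_of_le (hle i) with h4 | h4
    · have := hG.minor _ _ (hc3 i) h4
      linarith
    · have h5 := sz_le_of_minor (hc3 i) h4.ge
      have h6 : (sz (H.induce {a | c a = some i}) : ℝ) ≤ sz G := by exact_mod_cast h5
      rw [h4, hη]
      linarith
  have h3' : (sz H : ℝ) ≤ N * ((Fintype.card W - 1 : ℕ) : ℝ) +
      ∑ i : Fin k, (sz (H.induce {a | c a = some i}) : ℝ) := by exact_mod_cast h3
  have h2' : (Fintype.card W : ℝ) = N + ∑ i : Fin k, (Fintype.card {a | c a = some i} : ℝ) := by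
    exact_mod_cast h2
  rcases Nat.le_one_iff_eq_zero_or_eq_one.1 hN1 with h0 | h0
  · rw [h0] at h3' h2'
    have h4 : ∀ i : Fin k, (sz (H.induce {a | c a = some i}) : ℝ) ≤
        (x + 1) * Fintype.card {a | c a = some i} := by
      intro i
      by_cases h5 : Fintype.card {a | c a = some i} = 0
      · have h6 : sz (H.induce {a | c a = some i}) = 0 := by
          have : IsEmpty {a | c a = some i} := Fintype.card_eq_zero_iff.1 h5
          unfold sz
          rw [Set.ncard_eq_zero]
          ext e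
          induction e with
          | h a b => exact (this.false a).elim
        rw [h5, h6]
        simp
      · have h6 : (1 : ℝ) ≤ Fintype.card {a | c a = some i} := by
          exact_mod_cast Nat.one_le_iff_ne_zero.2 h5
        have := hterm i
        linarith
    have h5 := Finset.sum_le_sum fun i (_ : i ∈ Finset.univ) => h4 i
    rw [← Finset.mul_sum] at h5
    rw [h2']
    push_cast at h3' ⊢
    linarith
  · rw [h0] at h3' h2'
    have hW1 : 1 ≤ Fintype.card W := by
      have : 1 ≤ N := h0.ge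
      omega
    have h4 : ((Fintype.card W - 1 : ℕ) : ℝ) = ∑ i : Fin k, (Fintype.card {a | c a = some i} : ℝ) := by
      rw [Nat.cast_sub hW1, h2']
      push_cast
      ring
    obtain ⟨i₀, hi₀⟩ : ∃ i₀ : Fin k, Fintype.card {a | c a = some i₀} < Fintype.card V := by
      by_contra hcon
      push Not at hcon
      have h5 : ∑ i : Fin k, Fintype.card V ≤ ∑ i : Fin k, Fintype.card {a | c a = some i} :=
        Finset.sum_le_sum fun i _ => hcon i
      rw [Finset.sum_const, Finset.card_univ, Fintype.card_fin, smul_eq_mul] at h5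
      omega
    have h5 : ∑ i : Fin k, ((sz (H.induce {a | c a = some i}) : ℝ) -
        x * Fintype.card {a | c a = some i}) ≤ ((k : ℝ) - 1) * η := by
      have h6 : ∑ i : Fin k, ((sz (H.induce {a | c a = some i}) : ℝ) -
          x * Fintype.card {a | c a = some i}) ≤ ∑ i : Fin k, (if i = i₀ then 0 else η) := by
        refine Finset.sum_le_sum fun i _ => ?_
        by_cases hi : i = i₀
        · rw [if_pos hi, hi]
          linarith [hG.minor _ _ (hc3 i₀) hi₀]
        · rw [if_neg hi]
          exact hterm i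
      have h7 : ∑ i : Fin k, (if i = i₀ then (0 : ℝ) else η) = ((k : ℝ) - 1) * η := by
        have e : ∀ i : Fin k, (if i = i₀ then (0 : ℝ) else η) = η - if i = i₀ then η else 0 := by
          intro i
          split_ifs <;> simp
        rw [Finset.sum_congr rfl fun i _ => e i, Finset.sum_sub_distrib, Finset.sum_const,
          Finset.card_univ, Fintype.card_fin, Finset.sum_ite_eq' Finset.univ i₀,
          if_pos (Finset.mem_univ _), nsmul_eq_mul]
        ring
      rw [← h7]
      exact h6
    rw [Finset.sum_sub_distrib, ← Finset.mul_sum] at h5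
    rw [h4] at h3'
    rw [h2']
    push_cast at h3' ⊢
    linarith

/-- the excess of the cone -/
theorem cone_excess {V : Type} [Fintype V] (x : ℝ) (k : ℕ) (G : SimpleGraph V) :
    (sz (cone k G) : ℝ) - (x + 1) * Fintype.card (Option (Fin k × V)) =
      k * (sz G - x * Fintype.card V) - (x + 1) := by
  rw [sz_cone, card_cone]
  push_cast
  ring

theorem cone_crit {V : Type} [Fintype V] {x : ℝ} {G : SimpleGraph V}
    (hG : Crit x G) {k : ℕ} (hk : ((k : ℝ) - 1) * (sz G - x * Fintype.card V) ≤ x + 1)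
    (hk' : x + 1 < k * (sz G - x * Fintype.card V)) : Crit (x + 1) (cone k G) := by
  have h1 := cone_excess x k G
  have h2 : (sz G : ℝ) - x * Fintype.card V ≤ 1 := by linarith [hG.le]
  refine ⟨?_, by linarith, by linarith, ?_⟩
  · rw [card_cone]
    exact Nat.succ_pos _
  · intro W _ H h hW
    rw [card_cone] at hW
    exact cone_minor_bound hG hk h hW

/-- the number of copies -/
theorem exists_copies {x η : ℝ} (hx : -1 ≤ x) (hη : 0 < η) :
    ∃ k : ℕ, ((k : ℝ) - 1) * η ≤ x + 1 ∧ x + 1 < k * η := by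
  refine ⟨⌊(x + 1) / η⌋₊ + 1, ?_, ?_⟩
  · push_cast
    rw [add_sub_cancel_right, ← le_div_iff₀ hη]
    exact Nat.floor_le (div_nonneg (by linarith) hη.le)
  · push_cast
    rw [← div_lt_iff₀ hη]
    exact Nat.lt_floor_add_one _

/-! ### transfer to graphs on `{0, ..., m}` -/

theorem crit_iso {V V' : Type} [Fintype V] [Fintype V'] {x : ℝ} {G : SimpleGraph V}
    {G' : SimpleGraph V'} (h1 : IsMinor G' G) (h2 : IsMinor G G')
    (hG : Crit x G) : Crit x G' := by
  have hc : Fintype.card V' = Fintype.card V :=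
    le_antisymm (card_le_of_minor h1) (card_le_of_minor h2)
  have hs : sz G' = sz G := le_antisymm (sz_le_of_minor h1 hc.ge) (sz_le_of_minor h2 hc.le)
  refine ⟨by rw [hc]; exact hG.pos, by rw [hc, hs]; exact hG.gt, by rw [hc, hs]; exact hG.le, ?_⟩
  intro W _ H h hW
  rw [hc] at hW
  exact hG.minor W H (isMinor_trans h h1) hW

theorem exists_FG {V : Type} [Fintype V] (G : SimpleGraph V) (h : 0 < Fintype.card V) :
    ∃ F : FG, IsMinor F.2 G ∧ IsMinor G F.2 := by
  obtain ⟨m, hm⟩ : ∃ m, Fintype.card V = m + 1 := ⟨Fintype.card V - 1, by omega⟩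
  let e : V ≃ Fin (m + 1) := Fintype.equivFinOfCardEq hm
  refine ⟨⟨m, G.comap e.symm⟩, ?_, ?_⟩
  · exact isMinor_of_inj e.symm e.symm.injective fun a b h => h
  · refine isMinor_of_inj e e.injective fun a b h => ?_
    show G.Adj (e.symm (e a)) (e.symm (e b))
    rw [Equiv.symm_apply_apply, Equiv.symm_apply_apply]
    exact h

theorem order_eq (G : FG) : order G = Fintype.card (Fin (G.1 + 1)) := by
  rw [Fintype.card_fin]
  rfl

theorem size_eq (G : FG) : size G = sz G.2 := rfl

theorem order_pos (G : FG) : (0 : ℝ) < order G := by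
  unfold order
  positivity

/-- Critical graphs have density in `B`: consider the class of their minors. -/
theorem rho_mem {x : ℝ} {G : FG} (hG : Crit x G.2) : rho G ∈ B := by
  have hpos := order_pos G
  have hgt : x < rho G := by
    unfold rho
    rw [lt_div_iff₀ hpos, order_eq, size_eq]
    exact hG.gt
  refine ⟨{H | IsMinor H.2 G.2}, ⟨⟨G, isMinor_of_inj id Function.injective_id fun _ _ h => h⟩, ?_, ?_⟩, ?_⟩
  · intro h
    have h1 : (⟨G.1 + 1, ⊥⟩ : FG) ∈ {H : FG | IsMinor H.2 G.2} := by
      rw [h]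
      exact Set.mem_univ _
    have h2 := card_le_of_minor h1
    simp only [Fintype.card_fin] at h2
    omega
  · intro H hH K hK
    exact isMinor_trans hK hH
  · refine IsGreatest.isLUB ⟨⟨G, isMinor_of_inj id Function.injective_id fun _ _ h => h, rfl⟩, ?_⟩
    rintro _ ⟨H, hH, rfl⟩
    have hH' : IsMinor H.2 G.2 := hH
    by_cases hc : Fintype.card (Fin (H.1 + 1)) < Fintype.card (Fin (G.1 + 1))
    · refine le_trans ?_ hgt.le
      unfold rho
      rw [div_le_iff₀ (order_pos H), order_eq, size_eq]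
      exact hG.minor _ _ hH' hc
    · rw [not_lt] at hc
      have hc' := le_antisymm (card_le_of_minor hH') hc
      have h1 := sz_le_of_minor hH' hc
      unfold rho
      rw [order_eq H, order_eq G, hc', size_eq, size_eq]
      gcongr

/-- Minor-minimal graphs of density greater than `x ≥ 0` are critical. -/
theorem crit_of_minimalAbove {x : ℝ} (hx : 0 ≤ x) {G : FG} (hG : MinimalAbove x G) :
    Crit x G.2 := by
  obtain ⟨hr, hminor⟩ := hG
  have hgt : x * order G < size G := by
    have := hr
    unfold rho at this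
    rwa [lt_div_iff₀ (order_pos G)] at this
  refine ⟨?_, ?_, ?_, ?_⟩
  · rw [← order_eq]
    unfold order
    omega
  · rw [← order_eq, ← size_eq]
    exact hgt
  · -- delete an edge
    rw [← order_eq, ← size_eq]
    have hpos : 0 < size G := by
      have h1 : (0 : ℝ) < size G := lt_of_le_of_lt (mul_nonneg hx (order_pos G).le) hgt
      exact_mod_cast h1
    obtain ⟨e, he⟩ : G.2.edgeSet.Nonempty := by
      rw [Set.nonempty_iff_ne_empty]
      intro h0
      unfold size at hpos
      rw [h0, Set.ncard_empty] at hpos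
      exact lt_irrefl _ hpos
    let H : FG := ⟨G.1, G.2.deleteEdges {e}⟩
    have hH : IsMinor H.2 G.2 := isMinor_of_inj id Function.injective_id fun a b hab => by
      exact (SimpleGraph.deleteEdges_le (G := G.2) {e}) hab
    have hsz : size H + 1 = size G := by
      unfold size
      show (G.2.deleteEdges {e}).edgeSet.ncard + 1 = G.2.edgeSet.ncard
      rw [SimpleGraph.edgeSet_deleteEdges]
      exact Set.ncard_sdiff_singleton_add_one he (Set.toFinite _)
    have h1 := hminor H hH (Or.inr (by omega))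
    unfold rho at h1
    rw [div_le_iff₀ (order_pos H)] at h1
    have h2 : (size G : ℝ) = size H + 1 := by exact_mod_cast hsz.symm
    have h3 : order H = order G := rfl
    rw [h3] at h1
    linarith
  · intro W _ H hH hW
    by_cases h0 : Fintype.card W = 0
    · have : IsEmpty W := Fintype.card_eq_zero_iff.1 h0
      have h6 : sz H = 0 := by
        unfold sz
        rw [Set.ncard_eq_zero]
        ext e
        induction e with
        | h a b => exact (this.false a).elim
      rw [h0, h6]
      simp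
    · obtain ⟨F, hF1, hF2⟩ := exists_FG H (Nat.pos_of_ne_zero h0)
      have hc : order F = Fintype.card W := by
        rw [order_eq]
        exact le_antisymm (card_le_of_minor hF1) (card_le_of_minor hF2)
      have h1 := hminor F (isMinor_trans hF1 hH) (Or.inl (by rw [hc, order_eq]; exact hW))
      unfold rho at h1
      rw [div_le_iff₀ (order_pos F), hc] at h1
      have h2 : sz H ≤ size F := sz_le_of_minor hF2 (by rw [← order_eq, hc])
      have h3 : (sz H : ℝ) ≤ size F := by exact_mod_cast h2
      linarith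

/-- Every element of `B` greater than `x ≥ 0` is at least the density of a minor-minimal graph
of density greater than `x`. -/
theorem exists_minimal {x β : ℝ} (hβ : β ∈ B) (h : x < β) :
    ∃ G : FG, MinimalAbove x G ∧ rho G ≤ β := by
  obtain ⟨A, hA, hlub⟩ := hβ
  obtain ⟨_, ⟨G₀, hG₀, rfl⟩, hlt, -⟩ := hlub.exists_between h
  -- the least number of vertices, then the least number of edges
  have hex : ∃ n, ∃ G ∈ A, x < rho G ∧ order G = n := ⟨_, G₀, hG₀, hlt, rfl⟩
  obtain ⟨G₁, hG₁, hr₁, ho₁⟩ := Nat.find_spec hex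
  have hmin : ∀ G ∈ A, x < rho G → Nat.find hex ≤ order G := fun G hG hr =>
    Nat.find_min' hex ⟨G, hG, hr, rfl⟩
  have hex2 : ∃ n, ∃ G ∈ A, x < rho G ∧ order G = Nat.find hex ∧ size G = n :=
    ⟨_, G₁, hG₁, hr₁, ho₁, rfl⟩
  obtain ⟨G, hG, hr, ho, hs⟩ := Nat.find_spec hex2
  have hmin2 : ∀ G' ∈ A, x < rho G' → order G' = Nat.find hex → size G ≤ size G' :=
    fun G' hG' hr' ho' => by
      rw [hs]
      exact Nat.find_min' hex2 ⟨G', hG', hr', ho', rfl⟩
  refine ⟨G, ⟨hr, ?_⟩, hlub.1 ⟨G, hG, rfl⟩⟩
  intro H hH hlt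
  by_contra hcon
  rw [not_le] at hcon
  have h1 := hA.minor G hG H hH
  have h2 := hmin H h1 hcon
  have h3 : order H ≤ order G := by
    rw [order_eq, order_eq]
    exact card_le_of_minor hH
  have h4 : order H = order G := by omega
  have h5 := hmin2 H h1 hcon (by omega)
  omega

/-! ### the recursion -/

/-- One step of the recursion. -/
theorem step {x : ℝ} (hx : -1 ≤ x) {G : FG} (hG : Crit x G.2) :
    ∃ (F : FG) (k : ℕ), Crit (x + 1) F.2 ∧ order F = k * order G + 1 ∧
      x + 1 < k * (size G - x * order G) ∧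
      (size F : ℝ) - (x + 1) * order F ≤ size G - x * order G := by
  have hη : 0 < (sz G.2 : ℝ) - x * Fintype.card (Fin (G.1 + 1)) := sub_pos.2 hG.gt
  obtain ⟨k, hk1, hk2⟩ := exists_copies hx hη
  have hC := cone_crit hG hk1 hk2
  obtain ⟨F, hF1, hF2⟩ := exists_FG (cone k G.2) hC.pos
  have hF := crit_iso hF1 hF2 hC
  have ho : order F = k * order G + 1 := by
    rw [order_eq F, le_antisymm (card_le_of_minor hF1) (card_le_of_minor hF2), card_cone, ← order_eq]
  have hs : size F = sz (cone k G.2) := by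
    have hc : Fintype.card (Fin (F.1 + 1)) = Fintype.card (Option (Fin k × Fin (G.1 + 1))) :=
      le_antisymm (card_le_of_minor hF1) (card_le_of_minor hF2)
    exact le_antisymm (sz_le_of_minor hF1 hc.ge) (sz_le_of_minor hF2 hc.le)
  refine ⟨F, k, hF, ho, by rw [order_eq G]; exact hk2, ?_⟩
  have h1 := cone_excess x k G.2
  rw [← hs, card_cone, ← order_eq, ← ho, ← size_eq] at h1
  rw [← order_eq, ← size_eq] at hk1
  rw [h1]
  linarith

theorem crit_K1 {x : ℝ} (h1 : -1 ≤ x) (h2 : x < 0) : Crit x (⊥ : SimpleGraph (Fin (0 + 1))) := by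
  have h0 : sz (⊥ : SimpleGraph (Fin (0 + 1))) = 0 := by
    unfold sz
    simp
  refine ⟨by simp, ?_, ?_, ?_⟩
  · rw [h0, Fintype.card_fin]
    push_cast
    linarith
  · rw [h0, Fintype.card_fin]
    push_cast
    linarith
  · intro W _ H _ hW
    rw [Fintype.card_fin] at hW
    have h3 : Fintype.card W = 0 := by omega
    have : IsEmpty W := Fintype.card_eq_zero_iff.1 h3
    have h6 : sz H = 0 := by
      unfold sz
      rw [Set.ncard_eq_zero]
      ext e
      induction e with
      | h a b => exact (this.false a).elim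
    rw [h3, h6]
    simp

theorem exists_large (n : ℕ) : ∀ x : ℝ, (n : ℝ) - 1 ≤ x → x < n →
    ∃ G : FG, Crit x G.2 ∧ arr n ≤ order G := by
  induction n with
  | zero =>
    intro x h1 h2
    rw [Nat.cast_zero] at h1 h2
    refine ⟨⟨0, ⊥⟩, crit_K1 (by linarith) h2, ?_⟩
    simp [arr, order]
  | succ n ih =>
    intro x h1 h2
    push_cast at h1 h2
    obtain ⟨G, hG, ho⟩ := ih (x - 1) (by linarith) (by linarith)
    have hn : (0 : ℝ) ≤ n := Nat.cast_nonneg n
    obtain ⟨F, k, hF, hF1, hk, -⟩ := step (by linarith) hG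
    rw [sub_add_cancel] at hF hk
    refine ⟨F, hF, ?_⟩
    rw [hF1, arr_succ]
    have h3 : (size G : ℝ) - (x - 1) * order G ≤ 1 := by
      have := hG.le
      rw [← order_eq, ← size_eq] at this
      linarith
    have h4 : (n : ℝ) < k := by
      have h5 : (k : ℝ) * (size G - (x - 1) * order G) ≤ k * 1 :=
        mul_le_mul_of_nonneg_left h3 (Nat.cast_nonneg k)
      linarith
    have h5 : n + 1 ≤ k := by exact_mod_cast h4
    have h6 := Nat.mul_le_mul h5 ho
    omega

theorem next_le {x : ℝ} {b : ℝ} (hb : b ∈ B) (h : x < b) : next x ≤ b :=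
  csInf_le ⟨x, fun _ hc => hc.2.le⟩ ⟨hb, h⟩

theorem rho_gt {x : ℝ} {G : FG} (hG : Crit x G.2) : x < rho G := by
  unfold rho
  rw [lt_div_iff₀ (order_pos G), order_eq, size_eq]
  exact hG.gt

theorem rho_le {x : ℝ} {G : FG} (hG : Crit x G.2) : rho G ≤ x + 1 / order G := by
  have hpos := order_pos G
  unfold rho
  rw [div_le_iff₀ hpos, add_mul, one_div, inv_mul_cancel₀ hpos.ne', order_eq, size_eq]
  exact hG.le

theorem large_of_nonneg {x : ℝ} (hx : 0 ≤ x) : ∃ G : FG, Crit x G.2 ∧ arr (⌊x⌋₊ + 1) ≤ order G := by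
  refine exists_large _ x ?_ ?_
  · push_cast
    rw [add_sub_cancel_right]
    exact Nat.floor_le hx
  · push_cast
    exact Nat.lt_floor_add_one x

theorem set_nonempty {x : ℝ} (hx : 0 ≤ x) : {b | b ∈ B ∧ x < b}.Nonempty := by
  obtain ⟨G, hG, -⟩ := large_of_nonneg hx
  exact ⟨rho G, rho_mem hG, rho_gt hG⟩

theorem gap_nonneg {x : ℝ} (hx : 0 ≤ x) : 0 ≤ gap x :=
  sub_nonneg.2 (le_csInf (set_nonempty hx) fun _ hb => hb.2.le)

theorem arr_pos (n : ℕ) : 1 ≤ arr n := by
  cases n with
  | zero => simp [arr]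
  | succ n =>
    rw [arr_succ]
    omega

theorem gap_le_arr {x : ℝ} (hx : 0 ≤ x) : gap x ≤ 1 / arr (⌊x⌋₊ + 1) := by
  obtain ⟨G, hG, ho⟩ := large_of_nonneg hx
  have h1 := next_le (rho_mem hG) (rho_gt hG)
  have h2 := rho_le hG
  have h3 : (1 : ℝ) / order G ≤ 1 / arr (⌊x⌋₊ + 1) := by
    refine one_div_le_one_div_of_le ?_ (by exact_mod_cast ho)
    exact_mod_cast arr_pos _
  unfold gap
  linarith

theorem gap_le_half {x : ℝ} (hx : 0 ≤ x) : gap x ≤ 1 / 2 := by
  refine (gap_le_arr hx).trans (one_div_le_one_div_of_le two_pos ?_)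
  have h : 2 ≤ arr (⌊x⌋₊ + 1) := by
    rw [arr_succ]
    have := arr_pos ⌊x⌋₊
    nlinarith
  exact_mod_cast h

theorem gap_step {x : ℝ} (hx : 0 ≤ x) : gap (x + 1) ≤ gap x / (x + 1 + gap x) := by
  set c := gap (x + 1) with hc
  have hc0 : 0 ≤ c := gap_nonneg (by linarith)
  have hc1 : c ≤ 1 / 2 := gap_le_half (by linarith)
  have hg0 := gap_nonneg hx
  have key : ∀ b, b ∈ B → x < b → c * (x + 1) ≤ (b - x) * (1 - c) := by
    intro b hb hxb
    obtain ⟨G, hG, hGb⟩ := exists_minimal hb hxb
    have hGc := crit_of_minimalAbove hx hG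
    obtain ⟨F, k, hF, ho, hk, hs⟩ := step (by linarith) hGc
    have h1 := next_le (rho_mem hF) (rho_gt hF)
    have hposG := order_pos G
    have hposF := order_pos F
    have hle := hGc.le
    rw [← order_eq, ← size_eq] at hle
    have h2 : c * order F ≤ size G - x * order G := by
      have h3 : c ≤ rho F - (x + 1) := by
        rw [hc]
        unfold gap
        linarith
      have h4 : c * order F ≤ (rho F - (x + 1)) * order F :=
        mul_le_mul_of_nonneg_right h3 hposF.le
      have h5 : (rho F - (x + 1)) * order F = size F - (x + 1) * order F := by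
        unfold rho
        field_simp
      linarith
    have ho' : (order F : ℝ) = k * order G + 1 := by
      rw [ho]
      push_cast
      ring
    rw [ho'] at h2
    set η : ℝ := size G - x * order G with hη
    have hη1 : η ≤ 1 := by linarith
    have hη0 : 0 < η := by
      have := hGc.gt
      rw [← order_eq, ← size_eq] at this
      rw [hη]
      linarith
    have hgap : η / order G ≤ b - x := by
      have : η / order G = rho G - x := by
        rw [hη]
        unfold rho
        field_simp
      rw [this]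
      linarith
    -- `c (k v + 1) ≤ η`, `x + 1 < k η`
    have h6 : c * ((x + 1) * order G + η) ≤ η * η := by
      have h7 : (x + 1) * order G ≤ k * η * order G :=
        mul_le_mul_of_nonneg_right hk.le hposG.le
      have h8 : c * ((x + 1) * order G + η) ≤ c * (k * η * order G + η) :=
        mul_le_mul_of_nonneg_left (by linarith) hc0
      have h9 : c * (k * η * order G + η) = (c * (k * order G + 1)) * η := by ring
      rw [h9] at h8
      exact h8.trans (mul_le_mul_of_nonneg_right h2 hη0.le)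
    have h7 : c * (x + 1) ≤ (η / order G) * (1 - c) := by
      have h8 : c * (x + 1) * order G ≤ η * (1 - c) := by nlinarith
      rw [div_mul_eq_mul_div, le_div_iff₀ hposG]
      exact h8
    exact h7.trans (mul_le_mul_of_nonneg_right hgap (by linarith))
  have h1 : x + c * (x + 1) / (1 - c) ≤ next x := by
    refine le_csInf (set_nonempty hx) ?_
    rintro b ⟨hb, hxb⟩
    have h2 := key b hb hxb
    have h3 : c * (x + 1) / (1 - c) ≤ b - x := by
      rw [div_le_iff₀ (by linarith)]
      exact h2
    linarith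
  have h2 : c * (x + 1) / (1 - c) ≤ gap x := by
    unfold gap
    linarith
  rw [div_le_iff₀ (by linarith)] at h2
  rw [le_div_iff₀ (by linarith)]
  linarith

theorem gap_succ_le {x : ℝ} (hx : 0 ≤ x) : gap (x + 1) ≤ gap x / (x + 1) := by
  have h0 := gap_nonneg hx
  exact (gap_step hx).trans (div_le_div_of_nonneg_left h0 (by linarith) (by linarith))

theorem gap_add_nat {x : ℝ} (hx : 0 ≤ x) (j : ℕ) : gap (x + j) ≤ gap x := by
  induction j with
  | zero => simp
  | succ j ih =>
    have hj : (0 : ℝ) ≤ j := Nat.cast_nonneg j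
    have h1 := gap_succ_le (x := x + j) (by linarith)
    have h2 := gap_nonneg (x := x + j) (by linarith)
    push_cast
    rw [← add_assoc]
    refine h1.trans (le_trans ?_ ih)
    exact div_le_self h2 (by linarith)

theorem bddAbove_Ici (n : ℕ) : BddAbove (gap '' Set.Ici (n : ℝ)) := by
  refine ⟨1 / 2, ?_⟩
  rintro _ ⟨x, hx, rfl⟩
  exact gap_le_half ((Nat.cast_nonneg n).trans hx)

theorem isLUB_Ici (n : ℕ) : IsLUB (gap '' Set.Ici (n : ℝ)) (gapStar n) :=
  isLUB_csSup ⟨_, ⟨(n : ℝ), Set.self_mem_Ici, rfl⟩⟩ (bddAbove_Ici n)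

theorem isLUB_Ico (n : ℕ) : IsLUB (gap '' Set.Ico (n : ℝ) (n + 1)) (gapStar n) := by
  refine ⟨?_, ?_⟩
  · rintro _ ⟨x, hx, rfl⟩
    exact (isLUB_Ici n).1 ⟨x, hx.1, rfl⟩
  · intro c hc
    refine (isLUB_Ici n).2 ?_
    rintro _ ⟨x, hx, rfl⟩
    have hx' : (n : ℝ) ≤ x := hx
    have hn : (0 : ℝ) ≤ n := Nat.cast_nonneg n
    obtain ⟨j, hj⟩ : ∃ j : ℕ, ⌊x - n⌋₊ = j := ⟨_, rfl⟩
    have h1 : (j : ℝ) ≤ x - n := by
      rw [← hj]
      exact Nat.floor_le (by linarith)
    have h2 : x - n < j + 1 := by
      rw [← hj]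
      exact Nat.lt_floor_add_one _
    have h3 : gap x ≤ gap (x - j) := by
      have := gap_add_nat (x := x - j) (by linarith) j
      rwa [sub_add_cancel] at this
    refine h3.trans (hc ⟨x - j, ⟨by linarith, by linarith⟩, rfl⟩)

theorem gapStar_succ (n : ℕ) : gapStar (n + 1) ≤ gapStar n / (n + 1) := by
  refine (isLUB_Ici (n + 1)).2 ?_
  rintro _ ⟨x, hx, rfl⟩
  have hx' : (n : ℝ) + 1 ≤ x := by
    have : ((n + 1 : ℕ) : ℝ) ≤ x := hx
    push_cast at this
    exact this
  have hn : (0 : ℝ) ≤ n := Nat.cast_nonneg n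
  have h1 := gap_succ_le (x := x - 1) (by linarith)
  rw [sub_add_cancel] at h1
  have h2 : gap (x - 1) ≤ gapStar n := (isLUB_Ici n).1 ⟨x - 1, by
    show (n : ℝ) ≤ x - 1
    linarith, rfl⟩
  have h0 : 0 ≤ gap (x - 1) := gap_nonneg (by linarith)
  refine h1.trans ?_
  calc gap (x - 1) / x ≤ gap (x - 1) / (n + 1) := by gcongr
    _ ≤ gapStar n / (n + 1) := by gcongr

theorem isGLB_gap (n : ℕ) : IsGLB {r : ℝ | ∃ G : FG, MinimalAbove n G ∧ r = 1 / order G} (gap n) := by
  have hn : (0 : ℝ) ≤ n := Nat.cast_nonneg n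
  have key : ∀ G : FG, MinimalAbove n G → rho G = n + 1 / order G := by
    intro G hG
    have hC := crit_of_minimalAbove hn hG
    have h1 := hC.gt
    have h2 := hC.le
    rw [← order_eq, ← size_eq] at h1 h2
    have h3 : n * order G < size G := by exact_mod_cast h1
    have h4 : size G ≤ n * order G + 1 := by exact_mod_cast h2
    have h5 : size G = n * order G + 1 := by omega
    have hpos := order_pos G
    unfold rho
    rw [h5]
    push_cast
    field_simp
  refine ⟨?_, ?_⟩
  · rintro _ ⟨G, hG, rfl⟩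
    have hC := crit_of_minimalAbove hn hG
    have h1 := next_le (rho_mem hC) (rho_gt hC)
    rw [key G hG] at h1
    unfold gap
    linarith
  · intro c hc
    have h1 : (n : ℝ) + c ≤ next n := by
      refine le_csInf (set_nonempty hn) ?_
      rintro b ⟨hb, hnb⟩
      obtain ⟨G, hG, hGb⟩ := exists_minimal hb hnb
      have h2 := hc ⟨G, hG, rfl⟩
      rw [key G hG] at hGb
      linarith
    unfold gap
    linarith

theorem q1_iff : (∃ (C : ℝ) (N : ℕ), ∀ n : ℕ, N ≤ n → gapStar n ≤ C * gap n) ↔
    ∃ (C : ℝ) (N : ℕ), ∀ n : ℕ, N ≤ n → ∀ G : FG, MinimalAbove n G →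
      ∀ x : ℝ, (n : ℝ) ≤ x → x < n + 1 → gap x ≤ C / order G := by
  constructor
  · rintro ⟨C, N, h⟩
    refine ⟨max C 0, N, fun n hn G hG x hx1 hx2 => ?_⟩
    have hn0 : (0 : ℝ) ≤ n := Nat.cast_nonneg n
    have h1 : gap x ≤ gapStar n := (isLUB_Ici n).1 ⟨x, hx1, rfl⟩
    have h2 := h n hn
    have h3 : gap n ≤ 1 / order G := (isGLB_gap n).1 ⟨G, hG, rfl⟩
    have h4 := gap_nonneg hn0
    calc gap x ≤ C * gap n := h1.trans h2
      _ ≤ max C 0 * gap n := mul_le_mul_of_nonneg_right (le_max_left _ _) h4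
      _ ≤ max C 0 * (1 / order G) := mul_le_mul_of_nonneg_left h3 (le_max_right _ _)
      _ = _ := by ring
  · rintro ⟨C, N, h⟩
    refine ⟨max C 1, N, fun n hn => ?_⟩
    have hC : 0 < max C 1 := lt_of_lt_of_le one_pos (le_max_right _ _)
    refine (isLUB_Ico n).2 ?_
    rintro _ ⟨x, hx, rfl⟩
    rw [← div_le_iff₀' hC]
    refine (isGLB_gap n).2 ?_
    rintro _ ⟨G, hG, rfl⟩
    have h1 := h n hn G hG x hx.1 hx.2
    rw [div_le_iff₀' hC]
    refine h1.trans ?_
    have hpos := order_pos G
    rw [mul_one_div]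
    gcongr
    exact le_max_left _ _

end Pool.Agent.MP_e76e0e_co
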