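import Pool.Agent.MP_e76e0e_co.Lev

/-!
# Positions of the copies
-/

set_option autoImplicit false
set_option linter.unusedSectionVars false
set_option linter.unusedFintypeInType false

namespace Pool.Agent.MP_e76e0e_co

open Classical

section general
variable {K W : Type} [Fintype K] [Fintype W] {rtK : K → Prop} {cl : K → Option W}

theorem card_PRc_le : Fintype.card {a // PRc rtK cl a} ≤ Fintype.card {κ // rtK κ} := by
  have h : ∀ a : {a // PRc rtK cl a}, ∃ κ : {κ // rtK κ}, cl κ.1 = some a.1 := by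
    rintro ⟨a, κ, h1, h2⟩
    exact ⟨⟨κ, h1⟩, h2⟩
  choose g hg using h
  refine Fintype.card_le_of_injective g fun a b hab => ?_
  have := hg a
  rw [hab, hg b, Option.some.injEq] at this
  exact Subtype.ext this.symm

theorem card_PMc_le : Fintype.card {a // PMc rtK cl a} ≤ Fintype.card {κ // ¬ rtK κ} := by
  have h : ∀ a : {a // PMc rtK cl a}, ∃ κ : {κ // ¬ rtK κ}, cl κ.1 = some a.1 := by
    rintro ⟨a, ⟨κ, h1⟩, h2⟩
    exact ⟨⟨κ, h2 κ h1⟩, h1⟩
  choose g hg using h
  refine Fintype.card_le_of_injective g fun a b hab => ?_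
  have := hg a
  rw [hab, hg b, Option.some.injEq] at this
  exact Subtype.ext this.symm

theorem card_PRc_eq (ht : ∀ κ, ∃ a, cl κ = some a) (hi : Function.Injective cl) :
    Fintype.card {a // PRc rtK cl a} = Fintype.card {κ // rtK κ} := by
  refine le_antisymm card_PRc_le ?_
  choose g hg using ht
  refine Fintype.card_le_of_injective
    (fun κ : {κ // rtK κ} => (⟨g κ.1, κ.1, κ.2, hg κ.1⟩ : {a // PRc rtK cl a})) fun a b hab => ?_
  have h1 : g a.1 = g b.1 := congrArg Subtype.val hab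
  refine Subtype.ext (hi ?_)
  rw [hg, hg, h1]

theorem card_PMc_eq (ht : ∀ κ, ∃ a, cl κ = some a) (hi : Function.Injective cl) :
    Fintype.card {a // PMc rtK cl a} = Fintype.card {κ // ¬ rtK κ} := by
  refine le_antisymm card_PMc_le ?_
  choose g hg using ht
  refine Fintype.card_le_of_injective
    (fun κ : {κ // ¬ rtK κ} => (⟨g κ.1, ⟨κ.1, hg κ.1⟩, fun κ' h => by
      rw [hi (h.trans (hg κ.1).symm)]; exact κ.2⟩ : {a // PMc rtK cl a})) fun a b hab => ?_
  have h1 : g a.1 = g b.1 := congrArg Subtype.val hab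
  refine Subtype.ext (hi ?_)
  rw [hg, hg, h1]

end general

theorem dd_anti {x : ℝ} {r r' m : ℕ} (h : r' ≤ r) : dd x r m ≤ dd x r' m := by
  unfold dd
  have h1 : (r' : ℝ) ≤ r := by exact_mod_cast h
  have h2 : (0 : ℝ) ≤ m := Nat.cast_nonneg m
  nlinarith

theorem dd_nonneg {x : ℝ} {r m : ℕ} (h : (m : ℝ) - 1 ≤ x - r) : 0 ≤ dd x r m := by
  unfold dd
  rcases Nat.eq_zero_or_pos m with h0 | h0
  · subst h0
    simp
  · have h2 : (1 : ℝ) ≤ m := by exact_mod_cast h0
    nlinarith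

theorem dd_mono {x : ℝ} {r j m : ℕ} (hjm : j ≤ m) (h : (m : ℝ) - 1 ≤ x - r) :
    dd x r j ≤ dd x r m := by
  unfold dd
  have h1 : (j : ℝ) ≤ m := by exact_mod_cast hjm
  have h2 : (0 : ℝ) ≤ j := Nat.cast_nonneg j
  rcases Nat.eq_or_lt_of_le hjm with h3 | h3
  · subst h3
    exact le_refl _
  · have h4 : (j : ℝ) + 1 ≤ m := by exact_mod_cast h3
    nlinarith

/-- One new vertex: every copy uses all vertices. -/
theorem comb_one {x η : ℝ} {r w : ℕ} (hx : (r : ℝ) ≤ x) :
    ∃ τ : Fin w → Fin (r + 1) → Fin r ⊕ Fin 1, (∀ c, Function.Injective (τ c)) ∧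
        Comb1 x η (rtA : Fin r ⊕ Fin 1 → Prop) τ := by
  refine ⟨fun _ => finSumFinEquiv.symm, fun c => Equiv.injective _, ?_⟩
  intro W _ cl
  by_cases hs : ∃ c : Fin w, Surv cl (finSumFinEquiv.symm : Fin (r + 1) → Fin r ⊕ Fin 1)
  · obtain ⟨-, h1, h2⟩ := hs
    right
    have ht : ∀ κ, ∃ a, cl κ = some a := by
      intro κ
      have := h1 (finSumFinEquiv κ)
      rwa [Equiv.symm_apply_apply] at this
    have hi : Function.Injective cl := by
      intro κ κ' h
      apply finSumFinEquiv.injective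
      apply h2
      show cl (finSumFinEquiv.symm (finSumFinEquiv κ)) = cl (finSumFinEquiv.symm (finSumFinEquiv κ'))
      rw [Equiv.symm_apply_apply, Equiv.symm_apply_apply, h]
    exact ⟨card_PRc_eq ht hi, card_PMc_eq ht hi⟩
  · left
    have h0 : Fintype.card {c : Fin w // Surv cl (finSumFinEquiv.symm : Fin (r + 1) → Fin r ⊕ Fin 1)}
        = 0 := by
      rw [Fintype.card_eq_zero_iff]
      exact ⟨fun c => hs ⟨c.1, c.2⟩⟩
    rw [h0]
    have h1 : Fintype.card {a // PRc (rtA : Fin r ⊕ Fin 1 → Prop) cl a} ≤ r := by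
      refine card_PRc_le.trans ?_
      rw [card_rtA, Fintype.card_fin]
    have h2 : Fintype.card {a // PMc (rtA : Fin r ⊕ Fin 1 → Prop) cl a} ≤ 1 := by
      refine card_PMc_le.trans ?_
      rw [card_not_rtA, Fintype.card_fin]
    rw [Nat.cast_zero, zero_mul]
    apply dd_nonneg
    have h3 : ((Fintype.card {a // PRc (rtA : Fin r ⊕ Fin 1 → Prop) cl a} : ℕ) : ℝ) ≤ r := by
      exact_mod_cast h1
    have h4 : ((Fintype.card {a // PMc (rtA : Fin r ⊕ Fin 1 → Prop) cl a} : ℕ) : ℝ) ≤ 1 := by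
      exact_mod_cast h2
    linarith

/-- the positions of one copy -/
def blk {r m : ℕ} (hmr : m ≤ r) (i : Fin m) (t : Fin (r + 1)) : Fin r ⊕ Fin m :=
  if h : t.1 < m then Sum.inr ⟨t.1, h⟩
  else if h2 : t.1 = m then Sum.inl ⟨i.1, lt_of_lt_of_le i.2 hmr⟩
  else Sum.inl ⟨t.1 - 1, by omega⟩

section blk
variable {r m : ℕ} {hmr : m ≤ r}

theorem blk_inj (i : Fin m) : Function.Injective (blk hmr i) := by
  intro s t h
  unfold blk at h
  have hi := i.2
  have hs := s.2
  have ht := t.2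
  apply Fin.ext
  split_ifs at h with h1 h2 h3 h4 h5 h6 h7 h8
  all_goals
    simp only [Sum.inr.injEq, Sum.inl.injEq, Fin.mk.injEq] at h
    omega

theorem blk_mid (i : Fin m) (z : Fin m) : ∃ t, blk hmr i t = Sum.inr z := by
  have hz := z.2
  refine ⟨⟨z.1, by omega⟩, ?_⟩
  unfold blk
  rw [dif_pos hz]

theorem blk_self (i : Fin m) : ∃ t, blk hmr i t = Sum.inl ⟨i.1, lt_of_lt_of_le i.2 hmr⟩ := by
  refine ⟨⟨m, by omega⟩, ?_⟩
  unfold blk
  rw [dif_neg (lt_irrefl m), dif_pos rfl]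

theorem blk_big (i : Fin m) (l : Fin r) (hl : m ≤ l.1) : ∃ t, blk hmr i t = Sum.inl l := by
  have hl2 := l.2
  refine ⟨⟨l.1 + 1, by omega⟩, ?_⟩
  unfold blk
  rw [dif_neg (by show ¬ (l.1 + 1 < m); omega), dif_neg (by show ¬ (l.1 + 1 = m); omega)]
  rfl

end blk

theorem surv_inj {A K W : Type} {cl : K → Option W} {τ : A → K} (h : Surv cl τ) {κ κ' : K}
    (h1 : ∃ t, τ t = κ) (h2 : ∃ t, τ t = κ') (e : cl κ = cl κ') : κ = κ' := by
  obtain ⟨t, rfl⟩ := h1
  obtain ⟨t', rfl⟩ := h2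
  rw [h.2 e]

theorem surv_some {A K W : Type} {cl : K → Option W} {τ : A → K} (h : Surv cl τ) {κ : K}
    (h1 : ∃ t, τ t = κ) : ∃ a, cl κ = some a := by
  obtain ⟨t, rfl⟩ := h1
  exact h.1 t

/-- The number of copies in the blocks of `I`. -/
theorem count_blocks {m w : ℕ} (hm : 0 < m) (I : Finset (Fin m)) :
    m * Fintype.card {c : Fin w // (⟨c.1 % m, Nat.mod_lt _ hm⟩ : Fin m) ∈ I} ≤
      I.card * (w + (m - I.card)) := by
  have h1 : Fintype.card {c : Fin w // (⟨c.1 % m, Nat.mod_lt _ hm⟩ : Fin m) ∈ I} =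
      ∑ i ∈ I, (w / m + if i.1 < w % m then 1 else 0) := by
    have h0 : ∀ c ∈ Finset.univ.filter (fun c : Fin w => (⟨c.1 % m, Nat.mod_lt _ hm⟩ : Fin m) ∈ I),
        (fun c : Fin w => (⟨c.1 % m, Nat.mod_lt _ hm⟩ : Fin m)) c ∈ I :=
      fun c hc => (Finset.mem_filter.1 hc).2
    rw [Fintype.card_subtype, Finset.card_eq_sum_card_fiberwise h0]
    refine Finset.sum_congr rfl fun i hi => ?_
    have h2 := Nat.count_modEq_card w hm i.1
    rw [Nat.mod_eq_of_lt i.2, Nat.count_eq_card_filter_range] at h2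
    rw [← h2]
    refine Finset.card_bij (fun c _ => c.1) ?_ ?_ ?_
    · intro c hc
      rw [Finset.mem_filter] at hc
      rw [Finset.mem_filter, Finset.mem_range]
      refine ⟨c.2, ?_⟩
      have := congrArg Fin.val hc.2
      unfold Nat.ModEq
      rw [Nat.mod_eq_of_lt i.2]
      exact this
    · intro a _ b _ h
      exact Fin.ext h
    · intro b hb
      rw [Finset.mem_filter, Finset.mem_range] at hb
      have h3 := hb.2
      unfold Nat.ModEq at h3
      rw [Nat.mod_eq_of_lt i.2] at h3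
      have h4 : (⟨b % m, Nat.mod_lt _ hm⟩ : Fin m) = i := Fin.ext h3
      refine ⟨⟨b, hb.1⟩, ?_, rfl⟩
      rw [Finset.mem_filter, Finset.mem_filter]
      exact ⟨⟨Finset.mem_univ _, by rw [h4]; exact hi⟩, h4⟩
  rw [h1, Finset.sum_add_distrib, Finset.sum_const, smul_eq_mul]
  have hIm : I.card ≤ m := by
    have := Finset.card_le_univ I
    rwa [Fintype.card_fin] at this
  have h3 : (∑ i ∈ I, if i.1 < w % m then 1 else 0) ≤ I.card := by
    have : (∑ i ∈ I, if i.1 < w % m then 1 else 0) ≤ ∑ i ∈ I, 1 :=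
      Finset.sum_le_sum fun i _ => by split_ifs <;> omega
    simpa using this
  have h4 : (∑ i ∈ I, if i.1 < w % m then 1 else 0) ≤ w % m := by
    rw [← Finset.card_filter]
    have : (I.filter fun i => i.1 < w % m).card ≤ (Finset.range (w % m)).card :=
      Finset.card_le_card_of_injOn (fun i => i.1)
        (fun i hi => by
          have := (Finset.mem_filter.1 hi).2
          simpa using this)
        (fun a _ b _ h => Fin.ext h)
    rwa [Finset.card_range] at this
  have h5 := Nat.div_add_mod w m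
  generalize (∑ i ∈ I, if i.1 < w % m then 1 else 0) = S at *
  generalize I.card = s at *
  obtain ⟨u, rfl⟩ := Nat.exists_eq_add_of_le hIm
  rw [Nat.add_sub_cancel_left]
  generalize w / (s + u) = q at *
  generalize w % (s + u) = t at *
  subst h5
  have h6 : (s + u) * S ≤ s * (t + u) := by
    nlinarith [Nat.mul_le_mul_left s h4, Nat.mul_le_mul_left u h3]
  nlinarith

/-- The numerical inequality for the blocks. -/
theorem num_blk {x η : ℝ} {r m w s N : ℕ} (hm : 4 ≤ m) (hη : 0 < η) (hη1 : η ≤ 1)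
    (hw : ((w : ℝ) - 1) * η ≤ dd x r m) (hs : s < m) (hN : m * N ≤ s * (w + (m - s))) :
    (N : ℝ) * η ≤ dd x r s := by
  obtain ⟨u, rfl⟩ := Nat.exists_eq_add_of_lt hs
  have h0 : s + u + 1 - s = u + 1 := by omega
  rw [h0] at hN
  have h1 : ((s + u + 1 : ℕ) : ℝ) * N ≤ s * (w + (u + 1)) := by exact_mod_cast hN
  have h4 : (4 : ℝ) ≤ ((s + u + 1 : ℕ) : ℝ) := by exact_mod_cast hm
  unfold dd at hw ⊢
  push_cast at h1 h4 hw ⊢
  have hs0 : (0 : ℝ) ≤ s := Nat.cast_nonneg s
  have hu0 : (0 : ℝ) ≤ u := Nat.cast_nonneg u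
  have hmpos : (0 : ℝ) < s + u + 1 := by linarith
  have h2 : (s + u + 1 : ℝ) * (N * η) ≤ s * ((w - 1) * η + (u + 2) * η) := by
    have := mul_le_mul_of_nonneg_right h1 hη.le
    nlinarith
  have h3 : (u + 2 : ℝ) * η ≤ u + 2 := by nlinarith
  have h5 : (s : ℝ) * ((w - 1) * η + (u + 2) * η) ≤
      s * (((s + u + 1) * (x - r) - (s + u + 1) * ((s + u + 1) - 1) / 2) + (u + 2)) :=
    mul_le_mul_of_nonneg_left (by linarith) hs0
  have h6 : (s : ℝ) * (((s + u + 1) * (x - r) - (s + u + 1) * ((s + u + 1) - 1) / 2) + (u + 2)) ≤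
      (s + u + 1) * (s * (x - r) - s * (s - 1) / 2) := by
    have h7 : (u + 2 : ℝ) ≤ (s + u + 1) * (u + 1) / 2 := by nlinarith
    have h8 := mul_le_mul_of_nonneg_left h7 hs0
    nlinarith
  have h9 : (s + u + 1 : ℝ) * (N * η) ≤ (s + u + 1) * (s * (x - r) - s * (s - 1) / 2) := by linarith
  exact le_of_mul_le_mul_left h9 hmpos

/-- Several new vertices: every copy uses the new vertices and all but `m - 1` roots. -/
theorem comb_blk {x η : ℝ} {r m w : ℕ} (hmr : m ≤ r) (hm : 4 ≤ m) (hx : (m : ℝ) - 1 ≤ x - r)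
    (hη : 0 < η) (hη1 : η ≤ 1) (hw : ((w : ℝ) - 1) * η ≤ dd x r m) :
    ∃ τ : Fin w → Fin (r + 1) → Fin r ⊕ Fin m, (∀ c, Function.Injective (τ c)) ∧
        Comb1 x η (rtA : Fin r ⊕ Fin m → Prop) τ := by
  have hm0 : 0 < m := by omega
  refine ⟨fun c => blk hmr ⟨c.1 % m, Nat.mod_lt _ hm0⟩, fun c => blk_inj _, ?_⟩
  intro W _ cl
  have hρ : Fintype.card {a // PRc (rtA : Fin r ⊕ Fin m → Prop) cl a} ≤ r := by
    refine card_PRc_le.trans ?_
    rw [card_rtA, Fintype.card_fin]
  have hj : Fintype.card {a // PMc (rtA : Fin r ⊕ Fin m → Prop) cl a} ≤ m := by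
    refine card_PMc_le.trans ?_
    rw [card_not_rtA, Fintype.card_fin]
  set I : Finset (Fin m) := Finset.univ.filter fun i => Surv cl (blk hmr i) with hI
  have hN : Fintype.card {c : Fin w // Surv cl (blk hmr ⟨c.1 % m, Nat.mod_lt _ hm0⟩)} =
      Fintype.card {c : Fin w // (⟨c.1 % m, Nat.mod_lt _ hm0⟩ : Fin m) ∈ I} :=
    Fintype.card_congr (Equiv.subtypeEquivRight fun c => by
      rw [hI, Finset.mem_filter]
      exact ⟨fun h => ⟨Finset.mem_univ _, h⟩, fun h => h.2⟩)
  have hcount := count_blocks (w := w) hm0 I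
  rw [← hN] at hcount
  have hNw : Fintype.card {c : Fin w // Surv cl (blk hmr ⟨c.1 % m, Nat.mod_lt _ hm0⟩)} ≤ w := by
    refine (Fintype.card_subtype_le _).trans ?_
    rw [Fintype.card_fin]
  generalize hNg : Fintype.card {c : Fin w // Surv cl (blk hmr ⟨c.1 % m, Nat.mod_lt _ hm0⟩)} = N
    at hcount hNw
  rw [card_rtA, card_not_rtA, Fintype.card_fin, Fintype.card_fin]
  by_cases hI0 : I = ∅
  · left
    have hN0 : N = 0 := by
      rw [hI0, Finset.card_empty, zero_mul] at hcount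
      have := Nat.le_zero.1 hcount
      rcases Nat.mul_eq_zero.1 this with h | h
      · omega
      · exact h
    rw [hN0, Nat.cast_zero, zero_mul]
    apply dd_nonneg
    have h3 : ((Fintype.card {a // PRc (rtA : Fin r ⊕ Fin m → Prop) cl a} : ℕ) : ℝ) ≤ r := by
      exact_mod_cast hρ
    have h4 : ((Fintype.card {a // PMc (rtA : Fin r ⊕ Fin m → Prop) cl a} : ℕ) : ℝ) ≤ m := by
      exact_mod_cast hj
    linarith
  · obtain ⟨i₀, hi₀⟩ := Finset.nonempty_iff_ne_empty.2 hI0
    have hs₀ : Surv cl (blk hmr i₀) := (Finset.mem_filter.1 hi₀).2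
    have hIm : I.card ≤ m := by
      have := Finset.card_le_univ I
      rwa [Fintype.card_fin] at this
    -- the classes of the new vertices
    have hex : ∀ z : Fin m, ∃ a, cl (Sum.inr z) = some a := fun z => surv_some hs₀ (blk_mid i₀ z)
    choose g hg using hex
    have hginj : Function.Injective g := by
      intro z z' h
      have := surv_inj hs₀ (blk_mid i₀ z) (blk_mid i₀ z') (by rw [hg, hg, h])
      exact Sum.inr_injective this
    -- new vertices whose class contains a root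
    have hroot : ∀ z : Fin m, (∃ l : Fin r, cl (Sum.inl l) = cl (Sum.inr z)) →
        ∃ i : Fin m, i ∈ Iᶜ ∧ cl (Sum.inl ⟨i.1, lt_of_lt_of_le i.2 hmr⟩) = cl (Sum.inr z) := by
      rintro z ⟨l, hl⟩
      by_cases hlm : l.1 < m
      · refine ⟨⟨l.1, hlm⟩, ?_, hl⟩
        rw [Finset.mem_compl]
        intro hmem
        have hs : Surv cl (blk hmr ⟨l.1, hlm⟩) := (Finset.mem_filter.1 hmem).2
        have := surv_inj hs (blk_self ⟨l.1, hlm⟩) (blk_mid _ z) hl
        exact Sum.inl_ne_inr this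
      · have := surv_inj hs₀ (blk_big i₀ l (by omega)) (blk_mid _ z) hl
        exact absurd this Sum.inl_ne_inr
    set Z : Finset (Fin m) := Finset.univ.filter
      fun z => ∃ l : Fin r, cl (Sum.inl l) = cl (Sum.inr z) with hZ
    have hZI : Z.card ≤ (Iᶜ).card := by
      have : ∀ z : Z, ∃ i : (Iᶜ : Finset (Fin m)),
          cl (Sum.inl ⟨i.1.1, lt_of_lt_of_le i.1.2 hmr⟩) = cl (Sum.inr z.1) := by
        rintro ⟨z, hz⟩
        obtain ⟨i, hi, h⟩ := hroot z (Finset.mem_filter.1 hz).2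
        exact ⟨⟨i, hi⟩, h⟩
      choose f hf using this
      have hfi : Function.Injective f := by
        intro a b hab
        have h1 := hf a
        rw [hab, hf b] at h1
        rw [hg, hg, Option.some.injEq] at h1
        exact Subtype.ext (hginj h1.symm)
      have := Fintype.card_le_of_injective f hfi
      rwa [Fintype.card_coe, Fintype.card_coe] at this
    have hZj : (Zᶜ).card ≤ Fintype.card {a // PMc (rtA : Fin r ⊕ Fin m → Prop) cl a} := by
      rw [← Fintype.card_coe]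
      refine Fintype.card_le_of_injective (fun z : (Zᶜ : Finset (Fin m)) =>
        (⟨g z.1, ⟨Sum.inr z.1, hg z.1⟩, ?_⟩ : {a // PMc (rtA : Fin r ⊕ Fin m → Prop) cl a})) ?_
      · rintro κ hκ ⟨l, rfl⟩
        exact Finset.mem_compl.1 z.2 (Finset.mem_filter.2 ⟨Finset.mem_univ _, l, by rw [hκ, hg]⟩)
      · intro a b hab
        exact Subtype.ext (hginj (congrArg Subtype.val hab))
    rw [Finset.card_compl, Fintype.card_fin] at hZI hZj
    have hsj : I.card ≤ Fintype.card {a // PMc (rtA : Fin r ⊕ Fin m → Prop) cl a} := by omega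
    generalize Fintype.card {a // PMc (rtA : Fin r ⊕ Fin m → Prop) cl a} = j' at hj hsj ⊢
    generalize Fintype.card {a // PRc (rtA : Fin r ⊕ Fin m → Prop) cl a} = ρ' at hρ ⊢
    rcases Nat.lt_or_ge I.card m with hlt | hge
    · left
      have h1 := num_blk hm hη hη1 hw hlt hcount
      have h2 : ((j' : ℕ) : ℝ) ≤ m := by exact_mod_cast hj
      exact h1.trans ((dd_mono hsj (by linarith)).trans (dd_anti hρ))
    · have hjm : j' = m := by omega
      subst hjm
      rcases Nat.lt_or_ge ρ' r with h3 | h3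
      · left
        obtain ⟨k, rfl⟩ := Nat.exists_eq_add_of_lt h3
        have h4 : ((N : ℕ) : ℝ) ≤ w := by exact_mod_cast hNw
        have h5 : (N : ℝ) * η ≤ w * η := mul_le_mul_of_nonneg_right h4 hη.le
        have h6 : (4 : ℝ) ≤ j' := by exact_mod_cast hm
        have h7 : (0 : ℝ) ≤ k := Nat.cast_nonneg k
        unfold dd at hw ⊢
        push_cast at hw
        nlinarith
      · right
        exact ⟨le_antisymm hρ h3, rfl⟩

end Pool.Agent.MP_e76e0e_co
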