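import Pool.Agent.MP_e76e0e_co.Recursion

/-!
# Critical graphs on doubly exponentially many vertices
-/

set_option autoImplicit false
set_option linter.unusedSectionVars false
set_option linter.unusedFintypeInType false

namespace Pool.Agent.MP_e76e0e_co

open Classical

theorem base_down {x δ : ℝ} {r : ℕ} (hx : (r : ℝ) ≤ x) (hδ : 0 < δ)
    (hB : Pc x δ (r + 1) δ (fun _ => 0) 1) :
    ∃ σ, 0 < σ ∧ σ ≤ δ ∧ Pc x σ r σ (fun _ => 0) 1 := by
  obtain ⟨w, hw1, hw2⟩ := exists_mul (y := x - r) (by linarith) hδ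
  have hw0 : 0 < w := by
    rcases Nat.eq_zero_or_pos w with h | h
    · subst h
      rw [Nat.cast_zero, zero_mul] at hw1
      linarith
    · exact h
  obtain ⟨τ, hτ, hc⟩ := comb_one (η := δ) (w := w) hx
  have : Nonempty (Fin w) := ⟨⟨0, hw0⟩⟩
  have g := pc_glue (δ' := w * δ - dd x r 1) (Et := w * δ - dd x r 1) (F := fun _ => 0)
    (fun _ : Fin w => hB) hδ.le hτ (by simp) (by rw [dd_one]; linarith) (fun _ => by linarith)
    hc.comb
  rw [dd_one] at g
  refine ⟨w * δ - (x - r), by linarith, by linarith, pc_mono g ?_⟩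
  simp
  omega

theorem bases {x : ℝ} {n : ℕ} (h1 : (n : ℝ) ≤ x) (h2 : x < n + 1) : ∀ k r : ℕ, r + k = n + 1 →
    ∃ δ, 0 < δ ∧ δ ≤ 1 ∧ Pc x δ r δ (fun _ => 0) 1 ∧
      ∀ s, r < s → s ≤ n + 1 → ∃ σ, δ ≤ σ ∧ σ ≤ 1 ∧ Pc x δ s σ (fun _ => 0) 1 := by
  intro k
  induction k with
  | zero =>
    intro r hr
    obtain ⟨σ, h3, h4, h5⟩ := lev_base h1 h2
    obtain rfl : r = n + 1 := by omega
    exact ⟨σ, h3, h4, h5, fun s h6 h7 => by omega⟩
  | succ k ih =>
    intro r hr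
    obtain ⟨δ, h3, h4, h5, h6⟩ := ih (r + 1) (by omega)
    have hx : (r : ℝ) ≤ x := by
      have : r ≤ n := by omega
      have : (r : ℝ) ≤ n := by exact_mod_cast this
      linarith
    obtain ⟨σ, h7, h8, h9⟩ := base_down hx h3 h5
    refine ⟨σ, h7, by linarith, h9, fun s hs1 hs2 => ?_⟩
    rcases Nat.lt_or_ge (r + 1) s with h | h
    · obtain ⟨σ', g1, g2, g3⟩ := h6 s h hs2
      exact ⟨σ', by linarith, g2, pc_loss g3 h8⟩
    · obtain rfl : s = r + 1 := by omega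
      exact ⟨δ, h8, h4, pc_loss h5 h8⟩

theorem op_iter {x δ κ : ℝ} {s₀ s₁ m : ℕ} (hm4 : 4 ≤ m) (hcover : s₁ + 2 * m ≤ 2 * s₀)
    (hstar : 2 * s₁ < 2 * s₀ + m + 2) (hmx : (m : ℝ) - 1 ≤ x - s₁) (hδ : 0 < δ)
    (hB : ∀ s, s₀ < s → s ≤ s₁ + 1 → ∃ σ, δ ≤ σ ∧ σ ≤ 1 ∧ Pc x δ s σ (fun _ => 0) 1)
    (hnum : 2 * (m : ℝ) * (3 * κ + 2) ≤ (m - 1) * (m - 2)) (hx4 : 4 ≤ x - s₁)
    (hκ : κ + 2 ≤ x - s₁) : ∀ j s : ℕ, s + j = s₁ → s₀ < s →
    Op x δ s₀ s (κ - 2 * j) (fun N => 2 ^ (2 ^ j) * N) := by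
  intro j
  induction j with
  | zero =>
    intro s hs hs0
    obtain rfl : s = s₁ := by omega
    obtain ⟨σ, h1, h2, h3⟩ := hB (s + 1) (by omega) le_rfl
    have := op_top (κ := κ) hm4 hcover hstar hmx hδ h1 h2 h3 hnum
    simpa using this
  | succ j ih =>
    intro s hs hs0
    obtain ⟨σ, h1, h2, h3⟩ := hB (s + 1) (by omega) (by omega)
    have h4 := ih (s + 1) (by omega) (by omega)
    have hsx : x - s₁ ≤ x - s := by
      have : s ≤ s₁ := by omega
      have : (s : ℝ) ≤ s₁ := by exact_mod_cast this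
      linarith
    have hj : (0 : ℝ) ≤ j := Nat.cast_nonneg j
    have e : κ - 2 * ((j + 1 : ℕ) : ℝ) + 2 = κ - 2 * j := by
      push_cast
      ring
    have h5 := op_step (κ := κ - 2 * ((j + 1 : ℕ) : ℝ)) hs0 hδ h1 h2 h3 (by linarith)
      (by push_cast; linarith) (by rw [e]; exact h4)
    have e2 : (fun N => 2 ^ 2 ^ j * (2 ^ 2 ^ j * N)) = fun N => 2 ^ 2 ^ (j + 1) * N := by
      funext N
      rw [← mul_assoc, ← pow_add]
      congr 2
      ring
    rw [e2] at h5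
    exact h5

theorem lev_down {x : ℝ} {r L : ℕ} (k : ℕ) (hx : ((r + k : ℕ) : ℝ) ≤ x) (h : Lev x (r + k) L) :
    Lev x r L := by
  induction k with
  | zero => exact h
  | succ k ih =>
    have hx' : ((r + k : ℕ) : ℝ) ≤ x := by
      push_cast at hx ⊢
      linarith
    refine ih hx' (lev_mono (lev_one (r := r + k) (b := 0) (by simpa using hx') h) (by simp))

/-- Critical graphs on doubly exponentially many vertices. -/
theorem exists_double {x : ℝ} {n h : ℕ} (h1 : (n : ℝ) ≤ x) (h2 : x < n + 1) (hh : 1 ≤ h)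
    (hn : 38 * h + 2 ≤ n) : ∃ F : FG, Crit x F.2 ∧ 2 ^ (2 ^ (h - 1)) ≤ order F := by
  obtain ⟨k, rfl⟩ := Nat.exists_eq_add_of_le' hh
  rw [Nat.add_sub_cancel]
  obtain ⟨s₀, hs₀⟩ : ∃ s₀, s₀ + 13 * (k + 1) = n := ⟨n - 13 * (k + 1), by omega⟩
  obtain ⟨δ, hδ, hδ1, hB0, hB⟩ := bases h1 h2 (13 * (k + 1) + 1) s₀ (by omega)
  have hkR : (0 : ℝ) ≤ k := Nat.cast_nonneg k
  have hsx : 12 * ((k : ℝ) + 1) ≤ x - ((s₀ + (k + 1) : ℕ) : ℝ) := by
    have h3 : ((s₀ + 13 * (k + 1) : ℕ) : ℝ) = n := by rw [hs₀]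
    push_cast at h3 ⊢
    linarith
  have hop := op_iter (x := x) (δ := δ) (κ := 2 * k + 1) (s₀ := s₀) (s₁ := s₀ + (k + 1))
    (m := 12 * (k + 1) + 1) (by omega) (by omega) (by omega) (by push_cast at hsx ⊢; linarith) hδ
    (fun s h3 h4 => hB s h3 (by omega)) (by push_cast; nlinarith) (by linarith) (by linarith)
    k (s₀ + 1) (by omega) (by omega)
  have e1 : (2 * (k : ℝ) + 1) - 2 * k = 1 := by ring
  rw [e1] at hop
  have hctx : Ctx s₀ (upd (fun _ => 0) s₀ δ) := by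
    refine ⟨?_, ?_, ?_⟩
    · intro a b hab
      unfold upd
      split_ifs with h3 h4
      · exact le_rfl
      · exact hδ.le
      · omega
      · exact le_rfl
    · intro d
      unfold upd
      split_ifs
      · exact le_rfl
      · exact hδ.le
    · intro d hd
      exact upd_lt hd
  have e2 : upd (fun _ => 0) s₀ δ (s₀ + 1 - 1) = δ := upd_ge (by omega)
  obtain ⟨E, h3, h4, h5⟩ := hop _ hctx (by rw [e2]; exact hδ1) s₀ 1 le_rfl (by omega)
    ⟨δ, fun _ => 0, hδ.le, by rw [upd_ge le_rfl], fun d _ => hctx.nonneg d, hB0⟩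
  rw [e2] at h4
  have hx0 : 12 * ((k : ℝ) + 1) ≤ x - s₀ := by
    push_cast at hsx
    linarith
  obtain ⟨σ, g1, g2, g3⟩ := hB (s₀ + 1) (by omega) (by omega)
  obtain ⟨E₁, h6, h7, h8⟩ := pc_conv (g := fun _ => 0) monotone_const (fun _ => le_rfl)
    (fun _ _ => hδ.le) hδ.le (by linarith) hδ g1 h5 g3 (by linarith)
  obtain ⟨r, rfl⟩ : ∃ r, s₀ = r + 1 := ⟨s₀ - 1, by omega⟩
  push_cast at hx0
  have hfin := pc_fin hδ hδ1 h8 hB0 (by linarith) (by linarith)
  rw [show (fun N => 2 ^ 2 ^ k * N) 1 = 2 ^ 2 ^ k from mul_one _] at hfin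
  have hrx : ((0 + r : ℕ) : ℝ) ≤ x := by
    push_cast
    linarith
  have hlev := lev_down (r := 0) r hrx (by rw [zero_add]; exact hfin)
  exact lev_zero hlev

/-- The gaps above `n` are doubly exponentially small. -/
theorem gapStar_le_double (n : ℕ) : gapStar n ≤ 1 / 2 ^ (2 ^ (n / 38 - 2)) := by
  refine (isLUB_Ico n).2 ?_
  rintro _ ⟨x, ⟨h1, h2⟩, rfl⟩
  have hx : (0 : ℝ) ≤ x := le_trans (Nat.cast_nonneg n) h1
  rcases Nat.lt_or_ge (n / 38) 3 with h0 | h0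
  · have e : n / 38 - 2 = 0 := by omega
    rw [e, pow_zero, pow_one]
    exact gap_le_half hx
  · obtain ⟨F, hF, h3⟩ := exists_double (h := n / 38 - 1) h1 h2 (by omega) (by omega)
    have e : n / 38 - 1 - 1 = n / 38 - 2 := by omega
    rw [e] at h3
    have h4 : gap x ≤ 1 / order F := by
      have := next_le (rho_mem hF) (rho_gt hF)
      have h5 := rho_le hF
      unfold gap
      linarith
    refine h4.trans (one_div_le_one_div_of_le (by positivity) ?_)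
    exact_mod_cast h3

/-- Critical graphs are minor-minimal among the graphs of density greater than `x`. -/
theorem minimal_of_crit {x : ℝ} {G : FG} (hG : Crit x G.2) : MinimalAbove x G := by
  refine ⟨rho_gt hG, fun H hH hor => ?_⟩
  unfold rho
  rw [div_le_iff₀ (order_pos H), size_eq, order_eq]
  by_cases hc : order H < order G
  · rw [order_eq, order_eq] at hc
    exact hG.minor _ _ hH hc
  · have h1 : size H < size G := hor.resolve_left hc
    have h2 : order H = order G := by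
      have := card_le_of_minor hH
      rw [← order_eq, ← order_eq] at this
      omega
    have h3 : (sz H.2 : ℝ) + 1 ≤ sz G.2 := by
      rw [← size_eq, ← size_eq]
      exact_mod_cast h1
    have h4 := hG.le
    rw [← order_eq, ← h2, order_eq] at h4
    linarith

/-- Large minor-minimal graphs. -/
theorem exists_both {x : ℝ} {n : ℕ} (h1 : (n : ℝ) ≤ x) (h2 : x < n + 1) :
    ∃ F : FG, Crit x F.2 ∧ 2 ^ (2 ^ (n / 38 - 2)) ≤ order F ∧
      n.factorial ^ 2 ≤ 10 ^ n * order F := by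
  have hx : (0 : ℝ) ≤ x := le_trans (Nat.cast_nonneg n) h1
  obtain ⟨F, hF, h3⟩ : ∃ F : FG, Crit x F.2 ∧ 2 ^ (2 ^ (n / 38 - 2)) ≤ order F := by
    rcases Nat.lt_or_ge (n / 38) 3 with h0 | h0
    · have e : n / 38 - 2 = 0 := by omega
      rw [e, pow_zero, pow_one]
      obtain ⟨F, hF, h3⟩ := large_of_nonneg hx
      refine ⟨F, hF, le_trans ?_ h3⟩
      rw [arr_succ]
      have := arr_pos ⌊x⌋₊
      nlinarith
    · obtain ⟨F, hF, h3⟩ := exists_double (h := n / 38 - 1) h1 h2 (by omega) (by omega)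
      have e : n / 38 - 1 - 1 = n / 38 - 2 := by omega
      rw [e] at h3
      exact ⟨F, hF, h3⟩
  by_cases h4 : n.factorial ^ 2 ≤ 10 ^ n * 2 ^ (2 ^ (n / 38 - 2))
  · exact ⟨F, hF, h3, h4.trans (Nat.mul_le_mul_left _ h3)⟩
  · rw [not_le] at h4
    rcases Nat.eq_zero_or_pos n with h0 | h0
    · subst h0
      simp at h4
    · obtain ⟨F', hF', h5⟩ := exists_square h1 h2 h0
      refine ⟨F', hF', ?_, h5⟩
      exact (lt_of_mul_lt_mul_left (lt_of_lt_of_le h4 h5) (Nat.zero_le _)).le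

end Pool.Agent.MP_e76e0e_co
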