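import Pool.Agent.MP_e76e0e_co.Rooted

/-!
# Gluing preserves rooted criticality
-/

set_option autoImplicit false
set_option linter.unusedSectionVars false
set_option linter.unusedFintypeInType false

namespace Pool.Agent.MP_e76e0e_co

open Classical

/-- A connected set which contains an inner vertex of a copy and a vertex of the clique contains
a root of the copy. -/
theorem conn_meets {K C : Type} {A V : C → Type} {G' : ∀ c, SimpleGraph (A c ⊕ V c)}
    {τ : ∀ c, A c → K} {S : Set (K ⊕ Σ c, V c)} (hS : ((glue G' τ).induce S).Connected) {c : C}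
    {v : V c} {κ : K} (h1 : Sum.inr ⟨c, v⟩ ∈ S) (h2 : Sum.inl κ ∈ S) :
    ∃ i, Sum.inl (τ c i) ∈ S := by
  obtain ⟨p, hp⟩ := walk_of_conn _ hS h1 h2
  have key : ∀ {s s' : K ⊕ Σ c, V c} (p : (glue G' τ).Walk s s'), (∀ z ∈ p.support, z ∈ S) →
      (∃ v : V c, s = Sum.inr ⟨c, v⟩) → (∃ κ, s' = Sum.inl κ) → ∃ i, Sum.inl (τ c i) ∈ S := by
    intro s s' p
    induction p with
    | nil =>
      rintro _ ⟨v, h⟩ ⟨κ, h'⟩
      rw [h] at h'
      exact absurd h' Sum.inr_ne_inl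
    | @cons s s₁ s' hs p ih =>
      rintro hp ⟨v, rfl⟩ h'
      have hs₁S : s₁ ∈ S := hp s₁ (by
        rw [SimpleGraph.Walk.support_cons]
        exact List.mem_cons_of_mem _ p.start_mem_support)
      rcases s₁ with κ | ⟨c', v'⟩
      · obtain ⟨i, h3, -⟩ := glue_lr.1 hs.symm
        exact ⟨i, h3 ▸ hs₁S⟩
      · obtain rfl : c = c' := glue_idx hs
        exact ih (fun z hz => hp z (by
          rw [SimpleGraph.Walk.support_cons]
          exact List.mem_cons_of_mem _ hz)) ⟨v', rfl⟩ h'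
  exact key p hp ⟨v, rfl⟩ ⟨κ, rfl⟩

/-- the roots of the glued graph -/
def rt0 {K P : Type} (rtK : K → Prop) (z : K ⊕ P) : Prop := ∃ κ, z = Sum.inl κ ∧ rtK κ

/-- the roots of the pieces -/
def rtA {A V : Type} (y : A ⊕ V) : Prop := ∃ i, y = Sum.inl i

section sums
variable {W : Type} [Fintype W]

theorem sum_ite_subtype (S : W → Prop) [DecidablePred S] [Fintype {a // S a}] (g : W → ℕ) :
    ∑ a : W, (if S a then g a else 0) = ∑ a : {a // S a}, g a.1 := by
  rw [← Finset.sum_filter]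
  exact Finset.sum_subtype (Finset.univ.filter S) (fun a => by simp) g

theorem card_sub (P : W → Prop) [DecidablePred P] [Fintype {a // P a}] :
    Fintype.card {a // P a} = ∑ a : W, if P a then 1 else 0 := by
  rw [sum_ite_subtype P fun _ => 1]
  simp

theorem sum_and (P Q : W → Prop) [Fintype {a // P a}] [Fintype {a // Q a}]
    [∀ a b, Decidable (P a ∧ Q b)] : ∑ a : W, ∑ b : W, (if P a ∧ Q b then 1 else 0) =
    Fintype.card {a // P a} * Fintype.card {a // Q a} := by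
  rw [card_sub P, card_sub Q, Finset.sum_mul_sum]
  refine Finset.sum_congr rfl fun a _ => Finset.sum_congr rfl fun b _ => ?_
  by_cases h1 : P a <;> by_cases h2 : Q b <;> simp [h1, h2]

theorem sum_ne (P : W → Prop) [Fintype {a // P a}] [∀ a b, Decidable (P a ∧ P b ∧ a ≠ b)] :
    ∑ a : W, ∑ b : W, (if P a ∧ P b ∧ a ≠ b then 1 else 0) =
    Fintype.card {a // P a} * (Fintype.card {a // P a} - 1) := by
  have h : ∀ a : W, ∑ b : W, (if P a ∧ P b ∧ a ≠ b then 1 else 0) =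
      if P a then Fintype.card {a // P a} - 1 else 0 := by
    intro a
    by_cases ha : P a
    · rw [if_pos ha, card_sub P, ← Finset.card_filter, ← Finset.card_filter]
      have e : (Finset.univ.filter fun b => P a ∧ P b ∧ a ≠ b) =
          (Finset.univ.filter fun b => P b).erase a := by
        ext b
        simp only [Finset.mem_filter, Finset.mem_univ, true_and, Finset.mem_erase, ha]
        constructor
        · rintro ⟨h1, h2⟩
          exact ⟨h2.symm, h1⟩
        · rintro ⟨h1, h2⟩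
          exact ⟨h2, h1.symm⟩
      rw [e, Finset.card_erase_of_mem (by simp [ha])]
    · rw [if_neg ha]
      exact Finset.sum_eq_zero fun b _ => if_neg fun h => ha h.1
  rw [Finset.sum_congr rfl fun a _ => h a, sum_ite_subtype P fun _ => Fintype.card {a // P a} - 1,
    Finset.sum_const, Finset.card_univ, smul_eq_mul]

theorem sum_sub_sub (S : W → Prop) (g : W → W → ℕ) (h : ∀ a b, g a b ≠ 0 → S a ∧ S b) :
    ∑ a : W, ∑ b : W, g a b = ∑ a : {a // S a}, ∑ b : {a // S a}, g a.1 b.1 := by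
  have h1 : ∀ a : W, ∑ b : W, g a b = if S a then ∑ b : {a // S a}, g a b.1 else 0 := by
    intro a
    by_cases ha : S a
    · rw [if_pos ha, ← sum_ite_subtype S fun b => g a b]
      refine Finset.sum_congr rfl fun b _ => ?_
      by_cases hb : S b
      · rw [if_pos hb]
      · rw [if_neg hb]
        by_contra hne
        exact hb (h a b hne).2
    · rw [if_neg ha]
      refine Finset.sum_eq_zero fun b _ => ?_
      by_contra hne
      exact ha (h a b hne).1
  rw [Finset.sum_congr rfl fun a _ => h1 a, sum_ite_subtype S fun a => ∑ b : {a // S a}, g a b.1]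

end sums

section main
variable {K C W : Type} {A V : C → Type} [∀ c, Fintype (A c)] [∀ c, Fintype (V c)] [Fintype K]
  [Fintype C] [Fintype W] {G' : ∀ c, SimpleGraph (A c ⊕ V c)} {τ : ∀ c, A c → K} {rtK : K → Prop}
  {H : SimpleGraph W} {φ : W → Set (K ⊕ Σ c, V c)}

/-- the class of a vertex of the clique -/
noncomputable def cls {P : Type} (φ : W → Set (K ⊕ P)) (κ : K) : Option W :=
  if h : ∃ a, Sum.inl κ ∈ φ a then some h.choose else none

theorem cls_iff {P : Type} {φ : W → Set (K ⊕ P)} (hd : ∀ a b, a ≠ b → Disjoint (φ a) (φ b))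
    {κ : K} {a : W} :
    cls φ κ = some a ↔ Sum.inl κ ∈ φ a := by
  unfold cls
  constructor
  · intro h
    split_ifs at h with h1
    rw [Option.some_inj] at h
    rw [← h]
    exact h1.choose_spec
  · intro h
    have h1 : ∃ a, Sum.inl κ ∈ φ a := ⟨a, h⟩
    rw [dif_pos h1, Option.some_inj]
    by_contra hne
    exact Set.disjoint_left.1 (hd _ _ hne) h1.choose_spec h

/-- classes inside the copy `c` -/
def Lc (φ : W → Set (K ⊕ Σ c, V c)) (c : C) (a : W) : Prop :=
  ∀ z ∈ φ a, ∃ v : V c, z = Sum.inr ⟨c, v⟩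

/-- classes which meet the copy `c` -/
def Sc (τ : ∀ c, A c → K) (φ : W → Set (K ⊕ Σ c, V c)) (c : C) (a : W) : Prop :=
  Lc φ c a ∨ ∃ i, cls φ (τ c i) = some a

/-- classes with a root -/
def PR {P : Type} (rtK : K → Prop) (φ : W → Set (K ⊕ P)) (a : W) : Prop :=
  ∃ κ, rtK κ ∧ cls φ κ = some a

/-- classes meeting the clique without a root -/
def PM {P : Type} (rtK : K → Prop) (φ : W → Set (K ⊕ P)) (a : W) : Prop :=
  (∃ κ, cls φ κ = some a) ∧ ∀ κ, cls φ κ = some a → ¬ rtK κ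

variable (hφ : RModel (rt0 rtK) (glue G' τ) H φ)
include hφ

theorem F2 {c : C} {a : W} (h : Lc φ c a) (κ : K) : cls φ κ ≠ some a := by
  rw [ne_eq, cls_iff hφ.disj]
  intro h1
  obtain ⟨v, hv⟩ := h _ h1
  exact absurd hv Sum.inl_ne_inr

theorem F2' {c c' : C} {a : W} (h : Lc φ c a) (h' : Lc φ c' a) : c = c' := by
  obtain ⟨⟨z, hz⟩⟩ := (hφ.conn a).nonempty
  obtain ⟨v, hv⟩ := h z hz
  obtain ⟨v', hv'⟩ := h' z hz
  rw [hv, Sum.inr.injEq, Sigma.mk.injEq] at hv'
  exact hv'.1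

theorem F1 (a : W) : (∃ κ, cls φ κ = some a) ∨ ∃ c, Lc φ c a := by
  by_cases h : ∃ κ, cls φ κ = some a
  · exact Or.inl h
  · right
    push Not at h
    refine conn_avoid (hφ.conn a) fun κ hκ => h κ ((cls_iff hφ.disj).2 hκ)

theorem F3 (a : W) : Fr (rt0 rtK) φ a ↔ (∃ c, Lc φ c a) ∨ PM rtK φ a := by
  constructor
  · intro h
    rcases F1 hφ a with h1 | h1
    · refine Or.inr ⟨h1, fun κ hκ hr => ?_⟩
      exact h _ ((cls_iff hφ.disj).1 hκ) ⟨κ, rfl, hr⟩
    · exact Or.inl h1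
  · rintro (⟨c, h1⟩ | ⟨h1, h2⟩) z hz ⟨κ, rfl, hr⟩
    · exact F2 hφ h1 κ ((cls_iff hφ.disj).2 hz)
    · exact h2 κ ((cls_iff hφ.disj).2 hz) hr

theorem F3' (a : W) : ¬ Fr (rt0 rtK) φ a ↔ PR rtK φ a := by
  rw [F3 hφ]
  constructor
  · intro h
    rw [not_or] at h
    rcases F1 hφ a with h1 | h1
    · by_contra hcon
      exact h.2 ⟨h1, fun κ hκ hr => hcon ⟨κ, hr, hκ⟩⟩
    · exact absurd h1 h.1
  · rintro ⟨κ, hr, hκ⟩ (⟨c, h1⟩ | ⟨h1, h2⟩)
    · exact F2 hφ h1 κ hκ
    · exact h2 κ hκ hr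

theorem F5 {c : C} {a b : W} (ha : Lc φ c a) (hab : H.Adj a b) : Sc τ φ c b := by
  obtain ⟨x, hx, y, hy, hxy⟩ := hφ.edge a b hab ((F3 hφ a).2 (Or.inl ⟨c, ha⟩))
  obtain ⟨v, rfl⟩ := ha x hx
  obtain ⟨y', rfl⟩ := glue_inner hxy
  rcases y' with i | v'
  · exact Or.inr ⟨i, (cls_iff hφ.disj).2 hy⟩
  · rcases F1 hφ b with ⟨κ, hκ⟩ | ⟨c', hc'⟩
    · obtain ⟨i, hi⟩ := conn_meets (hφ.conn b) hy ((cls_iff hφ.disj).1 hκ)
      exact Or.inr ⟨i, (cls_iff hφ.disj).2 hi⟩
    · obtain ⟨v'', h1⟩ := hc' _ hy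
      have h2 : (Sum.inr ⟨c, v'⟩ : K ⊕ Σ c, V c) = Sum.inr ⟨c', v''⟩ := h1
      rw [Sum.inr.injEq, Sigma.mk.injEq] at h2
      rw [h2.1]
      exact Or.inl hc'

theorem F4' {c : C} (a : {a // Sc τ φ c a}) :
    Fr rtA (fun a : {a // Sc τ φ c a} => jc τ c ⁻¹' φ a.1) a ↔ Lc φ c a.1 := by
  constructor
  · intro h
    rcases a.2 with h1 | ⟨i, hi⟩
    · exact h1
    · exact absurd ⟨i, rfl⟩ (h (Sum.inl i) ((cls_iff hφ.disj).1 hi))
  · rintro h z hz ⟨i, rfl⟩
    exact F2 hφ h (τ c i) ((cls_iff hφ.disj).2 hz)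

theorem F4 (hτ : ∀ c, Function.Injective (τ c))
    (hcl : ∀ c (i j : A c), i ≠ j → (G' c).Adj (Sum.inl i) (Sum.inl j)) (c : C) :
    RModel rtA (G' c) (H.induce {a | Sc τ φ c a})
      (fun a : {a // Sc τ φ c a} => jc τ c ⁻¹' φ a.1) := by
  refine ⟨?_, ?_, ?_⟩
  · rintro ⟨a, ha⟩
    refine conn_trace hτ hcl (hφ.conn a) c ?_
    rcases ha with h1 | ⟨i, hi⟩
    · right
      intro z hz
      obtain ⟨v, rfl⟩ := h1 z hz
      exact ⟨Sum.inr v, rfl⟩
    · exact Or.inl ⟨i, (cls_iff hφ.disj).1 hi⟩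
  · rintro ⟨a, ha⟩ ⟨b, hb⟩ hab
    refine Disjoint.preimage _ (hφ.disj a b fun e => hab (Subtype.ext e))
  · rintro ⟨a, ha⟩ ⟨b, hb⟩ hab hfr
    have hL : Lc φ c a := (F4' hφ ⟨a, ha⟩).1 hfr
    obtain ⟨x, hx, y, hy, hxy⟩ := hφ.edge a b hab ((F3 hφ a).2 (Or.inl ⟨c, hL⟩))
    obtain ⟨v, rfl⟩ := hL x hx
    obtain ⟨y', rfl⟩ := glue_inner hxy
    exact ⟨Sum.inr v, hx, y', hy, glue_jc (c := c) hτ hcl hxy⟩

/-- counting the edges with a free end -/
theorem fcount_le : fcount (Fr (rt0 rtK) φ) H ≤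
    2 * (Fintype.card {a // PR rtK φ a} * Fintype.card {a // PM rtK φ a}) +
      Fintype.card {a // PM rtK φ a} * (Fintype.card {a // PM rtK φ a} - 1) +
      ∑ c : C, fcount (Fr rtA (fun a : {a // Sc τ φ c a} => jc τ c ⁻¹' φ a.1))
        (H.induce {a | Sc τ φ c a}) := by
  have hpt : ∀ a b : W, (if H.Adj a b ∧ (Fr (rt0 rtK) φ a ∨ Fr (rt0 rtK) φ b) then 1 else 0) ≤
      (if PR rtK φ a ∧ PM rtK φ b then 1 else 0) + (if PM rtK φ a ∧ PR rtK φ b then 1 else 0) +
      (if PM rtK φ a ∧ PM rtK φ b ∧ a ≠ b then 1 else 0) +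
      ∑ c : C, (if H.Adj a b ∧ (Lc φ c a ∨ Lc φ c b) then 1 else 0) := by
    intro a b
    by_cases hab : H.Adj a b ∧ (Fr (rt0 rtK) φ a ∨ Fr (rt0 rtK) φ b)
    · rw [if_pos hab]
      obtain ⟨hab, hf⟩ := hab
      by_cases hL : ∃ c, Lc φ c a ∨ Lc φ c b
      · obtain ⟨c, hc⟩ := hL
        have h1 : 1 ≤ ∑ c : C, (if H.Adj a b ∧ (Lc φ c a ∨ Lc φ c b) then 1 else 0) := by
          refine le_trans ?_ (Finset.single_le_sum (f := fun c : C =>
            (if H.Adj a b ∧ (Lc φ c a ∨ Lc φ c b) then 1 else 0))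
            (fun _ _ => Nat.zero_le _) (Finset.mem_univ c))
          rw [if_pos ⟨hab, hc⟩]
        omega
      · push Not at hL
        have hne : a ≠ b := hab.ne
        have ha : PR rtK φ a ∨ PM rtK φ a := by
          by_cases h : Fr (rt0 rtK) φ a
          · rcases (F3 hφ a).1 h with ⟨c, hc⟩ | h
            · exact absurd hc (hL c).1
            · exact Or.inr h
          · exact Or.inl ((F3' hφ a).1 h)
        have hb : PR rtK φ b ∨ PM rtK φ b := by
          by_cases h : Fr (rt0 rtK) φ b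
          · rcases (F3 hφ b).1 h with ⟨c, hc⟩ | h
            · exact absurd hc (hL c).2
            · exact Or.inr h
          · exact Or.inl ((F3' hφ b).1 h)
        rcases ha with ha | ha <;> rcases hb with hb | hb
        · exfalso
          rcases hf with hf | hf
          · exact (F3' hφ a).2 ha hf
          · exact (F3' hφ b).2 hb hf
        · rw [if_pos (⟨ha, hb⟩ : PR rtK φ a ∧ PM rtK φ b)]
          omega
        · rw [if_pos (⟨ha, hb⟩ : PM rtK φ a ∧ PR rtK φ b)]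
          omega
        · rw [if_pos (⟨ha, hb, hne⟩ : PM rtK φ a ∧ PM rtK φ b ∧ a ≠ b)]
          omega
    · rw [if_neg hab]
      exact Nat.zero_le _
  have hc : ∀ c : C, ∑ a : W, ∑ b : W, (if H.Adj a b ∧ (Lc φ c a ∨ Lc φ c b) then 1 else 0) =
      fcount (Fr rtA (fun a : {a // Sc τ φ c a} => jc τ c ⁻¹' φ a.1))
        (H.induce {a | Sc τ φ c a}) := by
    intro c
    rw [sum_sub_sub (Sc τ φ c)]
    · unfold fcount
      refine Finset.sum_congr rfl fun a _ => Finset.sum_congr rfl fun b _ => ?_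
      rw [F4' hφ a, F4' hφ b]
      rfl
    · intro a b h
      have h1 : H.Adj a b ∧ (Lc φ c a ∨ Lc φ c b) := by
        by_contra hcon
        exact h (if_neg hcon)
      obtain ⟨hab, h2 | h2⟩ := h1
      · exact ⟨Or.inl h2, F5 hφ h2 hab⟩
      · exact ⟨F5 hφ h2 hab.symm, Or.inl h2⟩
  unfold fcount
  calc ∑ a : W, ∑ b : W, (if H.Adj a b ∧ (Fr (rt0 rtK) φ a ∨ Fr (rt0 rtK) φ b) then 1 else 0)
      ≤ ∑ a : W, ∑ b : W, ((if PR rtK φ a ∧ PM rtK φ b then 1 else 0) +
        (if PM rtK φ a ∧ PR rtK φ b then 1 else 0) +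
        (if PM rtK φ a ∧ PM rtK φ b ∧ a ≠ b then 1 else 0) +
        ∑ c : C, (if H.Adj a b ∧ (Lc φ c a ∨ Lc φ c b) then 1 else 0)) :=
        Finset.sum_le_sum fun a _ => Finset.sum_le_sum fun b _ => hpt a b
    _ = _ := by
        simp only [Finset.sum_add_distrib]
        rw [sum_and, sum_and, sum_ne]
        have e5 : ∑ a : W, ∑ b : W, ∑ c : C, (if H.Adj a b ∧ (Lc φ c a ∨ Lc φ c b) then 1 else 0) =
            ∑ c : C, fcount (Fr rtA (fun a : {a // Sc τ φ c a} => jc τ c ⁻¹' φ a.1))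
              (H.induce {a | Sc τ φ c a}) := by
          calc _ = ∑ a : W, ∑ c : C, ∑ b : W,
                (if H.Adj a b ∧ (Lc φ c a ∨ Lc φ c b) then 1 else 0) :=
                Finset.sum_congr rfl fun a _ => Finset.sum_comm
            _ = ∑ c : C, ∑ a : W, ∑ b : W,
                (if H.Adj a b ∧ (Lc φ c a ∨ Lc φ c b) then 1 else 0) := Finset.sum_comm
            _ = _ := Finset.sum_congr rfl fun c _ => hc c
        rw [e5]
        unfold fcount
        ring

theorem card_free : Fintype.card {a // Fr (rt0 rtK) φ a} = Fintype.card {a // PM rtK φ a} +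
    ∑ c : C, Fintype.card {a : {a // Sc τ φ c a} //
      Fr rtA (fun a : {a // Sc τ φ c a} => jc τ c ⁻¹' φ a.1) a} := by
  have hc : ∀ c : C, Fintype.card {a : {a // Sc τ φ c a} //
      Fr rtA (fun a : {a // Sc τ φ c a} => jc τ c ⁻¹' φ a.1) a} =
      ∑ a : W, if Lc φ c a then 1 else 0 := by
    intro c
    rw [card_sub]
    have h1 : ∀ a : W, (if Lc φ c a then 1 else 0) =
        if Sc τ φ c a then (if Lc φ c a then 1 else 0) else 0 := by
      intro a
      by_cases h : Lc φ c a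
      · rw [if_pos h, if_pos (show Sc τ φ c a from Or.inl h)]
      · rw [if_neg h]
        split_ifs <;> rfl
    rw [Finset.sum_congr rfl fun a _ => h1 a, sum_ite_subtype (Sc τ φ c)]
    refine Finset.sum_congr rfl fun a _ => ?_
    rw [F4' hφ a]
  rw [Finset.sum_congr rfl fun c _ => hc c, card_sub, card_sub, Finset.sum_comm,
    ← Finset.sum_add_distrib]
  refine Finset.sum_congr rfl fun a _ => ?_
  by_cases h : ∃ c, Lc φ c a
  · obtain ⟨c, hc⟩ := h
    have h1 : ¬ PM rtK φ a := fun h => by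
      obtain ⟨κ, hκ⟩ := h.1
      exact F2 hφ hc κ hκ
    rw [if_pos ((F3 hφ a).2 (Or.inl ⟨c, hc⟩)), if_neg h1, zero_add, Finset.sum_eq_single c]
    · rw [if_pos hc]
    · intro c' _ hne
      exact if_neg fun h => hne (F2' hφ h hc)
    · intro h
      exact absurd (Finset.mem_univ c) h
  · have h0 : ∑ c : C, (if Lc φ c a then 1 else 0) = 0 :=
      Finset.sum_eq_zero fun c _ => if_neg fun hc => h ⟨c, hc⟩
    rw [h0, add_zero]
    by_cases h1 : PM rtK φ a
    · rw [if_pos h1, if_pos ((F3 hφ a).2 (Or.inr h1))]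
    · rw [if_neg h1, if_neg]
      intro h2
      rcases (F3 hφ a).1 h2 with h3 | h3
      · exact h h3
      · exact h1 h3

/-- the excess of a model in the glued graph -/
theorem exc_le (x : ℝ) : exc x (Fr (rt0 rtK) φ) H ≤
    2 * Fintype.card {a // PR rtK φ a} * Fintype.card {a // PM rtK φ a} +
      Fintype.card {a // PM rtK φ a} * (Fintype.card {a // PM rtK φ a} - 1) -
      2 * x * Fintype.card {a // PM rtK φ a} +
      ∑ c : C, exc x (Fr rtA (fun a : {a // Sc τ φ c a} => jc τ c ⁻¹' φ a.1))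
        (H.induce {a | Sc τ φ c a}) := by
  have h1 := fcount_le hφ
  have h2 := card_free hφ
  have h3 : (fcount (Fr (rt0 rtK) φ) H : ℝ) ≤
      2 * (Fintype.card {a // PR rtK φ a} * Fintype.card {a // PM rtK φ a}) +
      Fintype.card {a // PM rtK φ a} * ((Fintype.card {a // PM rtK φ a} - 1 : ℕ) : ℝ) +
      ∑ c : C, (fcount (Fr rtA (fun a : {a // Sc τ φ c a} => jc τ c ⁻¹' φ a.1))
        (H.induce {a | Sc τ φ c a}) : ℝ) := by exact_mod_cast h1
  have h4 : (Fintype.card {a // PM rtK φ a} : ℝ) * ((Fintype.card {a // PM rtK φ a} - 1 : ℕ) : ℝ) =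
      Fintype.card {a // PM rtK φ a} * (Fintype.card {a // PM rtK φ a} - 1) := by
    rcases Nat.eq_zero_or_pos (Fintype.card {a // PM rtK φ a}) with h | h
    · rw [h]
      simp
    · rw [Nat.cast_sub h]
      simp
  rw [h4] at h3
  have h5 : (Fintype.card {a // Fr (rt0 rtK) φ a} : ℝ) = Fintype.card {a // PM rtK φ a} +
      ∑ c : C, (Fintype.card {a : {a // Sc τ φ c a} //
        Fr rtA (fun a : {a // Sc τ φ c a} => jc τ c ⁻¹' φ a.1) a} : ℝ) := by exact_mod_cast h2
  unfold exc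
  rw [Finset.sum_sub_distrib, ← Finset.mul_sum, h5]
  linarith

end main

end Pool.Agent.MP_e76e0e_co
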