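import Pool.Agent.MP_e76e0e_co.RC

/-!
# The levels of the recursion
-/

set_option autoImplicit false
set_option linter.unusedSectionVars false
set_option linter.unusedFintypeInType false

namespace Pool.Agent.MP_e76e0e_co

open Classical

/-- There is a rooted graph with `r` pairwise adjacent roots, excess `E` and at least `L` other
vertices, such that every other rooted minor, in which `d` vertices contain roots, has excess at
most `F d`; here `F d ≤ E - δ`. -/
def Pc (x δ : ℝ) (r : ℕ) (E : ℝ) (F : ℕ → ℝ) (L : ℕ) : Prop :=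
  (∀ d, F d ≤ E - δ) ∧ ∃ (V : Type) (_ : Fintype V) (G : SimpleGraph (Fin r ⊕ V)),
    RC x E F rtA G ∧ LB x E rtA G ∧
    (∀ i j : Fin r, i ≠ j → G.Adj (Sum.inl i) (Sum.inl j)) ∧
    L ≤ Fintype.card V ∧ 0 < Fintype.card V

/-- there is a rooted critical graph with `r` roots and at least `L` other vertices -/
def Lev (x : ℝ) (r L : ℕ) : Prop := ∃ σ : ℝ, 0 < σ ∧ σ ≤ 1 ∧ Pc x σ r σ (fun _ => 0) L

theorem pc_mono {x σ E : ℝ} {F : ℕ → ℝ} {r L L' : ℕ} (h : Pc x σ r E F L) (hL : L' ≤ L) :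
    Pc x σ r E F L' := by
  obtain ⟨h0, V, i, G, h3, h4, h5, h6, h7⟩ := h
  exact ⟨h0, V, i, G, h3, h4, h5, hL.trans h6, h7⟩

theorem pc_loss {x δ δ' E : ℝ} {F : ℕ → ℝ} {r L : ℕ} (h : Pc x δ r E F L) (hδ : δ' ≤ δ) :
    Pc x δ' r E F L :=
  ⟨fun d => (h.1 d).trans (by linarith), h.2⟩

theorem lev_mono {x : ℝ} {r L L' : ℕ} (h : Lev x r L) (hL : L' ≤ L) : Lev x r L' := by
  obtain ⟨σ, h1, h2, h⟩ := h
  exact ⟨σ, h1, h2, pc_mono h hL⟩

/-- Gluing pieces to the complete graph on `r` roots and `m` new vertices. -/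
theorem pc_glue {x δ δ' Et : ℝ} {F : ℕ → ℝ} {r m : ℕ} {C : Type} [Fintype C] [Nonempty C]
    {A : C → ℕ} {E : C → ℝ} {Fc : C → ℕ → ℝ} {L : C → ℕ}
    (h : ∀ c, Pc x δ (A c) (E c) (Fc c) (L c)) (hδ : 0 ≤ δ)
    {τ : ∀ c, Fin (A c) → Fin r ⊕ Fin m}
    (hτ : ∀ c, Function.Injective (τ c)) (hEt : Et = ∑ c, E c - dd x r m)
    (hF : Et - δ ≤ F r) (hF' : ∀ d, F d ≤ Et - δ')
    (hcomb : Comb x E Fc F (rtA : Fin r ⊕ Fin m → Prop) τ) :
    Pc x δ' r Et F (∑ c, L c) := by
  choose hE V hV G h3 h4 h5 h6 h7 using h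
  have hr : Fintype.card {κ : Fin r ⊕ Fin m // rtA κ} = r := by
    rw [card_rtA, Fintype.card_fin]
  have hm : Fintype.card {κ : Fin r ⊕ Fin m // ¬ rtA κ} = m := by
    rw [card_not_rtA, Fintype.card_fin]
  have hEt' : Et = ∑ c, E c - dd x (Fintype.card {κ : Fin r ⊕ Fin m // rtA κ})
      (Fintype.card {κ : Fin r ⊕ Fin m // ¬ rtA κ}) := by
    rw [hr, hm]
    exact hEt
  have hRC := rc_glue (G' := G) hδ hE hτ h5 h3 hEt' (by rw [hr]; exact hF) hcomb
  have hLB := lb_glue (G' := G) (rtK := (rtA : Fin r ⊕ Fin m → Prop)) hEt' hτ h4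
  have hrt : ∀ z : (Fin r ⊕ Fin m) ⊕ Σ c, V c, rt0 rtA z ↔
      rtA (Equiv.sumAssoc (Fin r) (Fin m) (Σ c, V c) z) := by
    rintro ((i | j) | p)
    · exact ⟨fun _ => ⟨i, rfl⟩, fun _ => ⟨Sum.inl i, rfl, ⟨i, rfl⟩⟩⟩
    · constructor
      · rintro ⟨κ, hκ, i, rfl⟩
        rw [Sum.inl.injEq] at hκ
        exact absurd hκ Sum.inr_ne_inl
      · rintro ⟨i, hi⟩
        exact absurd hi Sum.inr_ne_inl
    · constructor
      · rintro ⟨κ, hκ, -⟩
        exact absurd hκ Sum.inr_ne_inl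
      · rintro ⟨i, hi⟩
        exact absurd hi Sum.inr_ne_inl
  have hcard : ∑ c, L c ≤ Fintype.card (Σ c, V c) := by
    rw [Fintype.card_sigma]
    exact Finset.sum_le_sum fun c _ => h6 c
  have hpos : 0 < Fintype.card (Σ c, V c) := by
    rw [Fintype.card_sigma]
    exact Finset.sum_pos (fun c _ => h7 c) Finset.univ_nonempty
  refine ⟨hF', Fin m ⊕ Σ c, V c, inferInstance,
    (glue G τ).comap (Equiv.sumAssoc (Fin r) (Fin m) (Σ c, V c)).symm,
    rc_transport _ hrt hRC, lb_transport _ hrt hLB, ?_, ?_, ?_⟩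
  · intro i j hij
    show (glue G τ).Adj (Sum.inl (Sum.inl i)) (Sum.inl (Sum.inl j))
    rw [glue_ll, ne_eq, Sum.inl.injEq]
    exact hij
  · rw [Fintype.card_sum]
    omega
  · rw [Fintype.card_sum]
    omega

/-- the combinatorial condition for copies of one critical piece -/
def Comb1 {A K C : Type} [Fintype K] [Fintype C] (x η : ℝ) (rtK : K → Prop) (τ : C → A → K) : Prop :=
  ∀ (W : Type) [Fintype W] (cl : K → Option W),
    (Fintype.card {c : C // Surv cl (τ c)} : ℝ) * η ≤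
        dd x (Fintype.card {a // PRc rtK cl a}) (Fintype.card {a // PMc rtK cl a}) ∨
      (Fintype.card {a // PRc rtK cl a} = Fintype.card {κ // rtK κ} ∧
        Fintype.card {a // PMc rtK cl a} = Fintype.card {κ // ¬ rtK κ})

theorem Comb1.comb {A K C : Type} [Fintype K] [Fintype C] {x η : ℝ} {rtK : K → Prop}
    {τ : C → A → K} (h : Comb1 x η rtK τ) :
    Comb x (fun _ => η) (fun _ _ => 0) (fun _ => 0) rtK τ := by
  intro W _ cl
  rcases h W cl with h1 | h1
  · left
    rw [add_zero]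
    refine le_trans (le_of_eq ?_) h1
    unfold val
    rw [← Finset.sum_filter, Finset.sum_const, nsmul_eq_mul, Fintype.card_subtype]
  · exact Or.inr h1

/-- One level of the recursion. -/
theorem lev_step {x : ℝ} {r m L : ℕ} (h : Lev x (r + 1) L) (hD : 0 ≤ dd x r m)
    (hdes : ∀ η : ℝ, 0 < η → η ≤ 1 → ∀ w : ℕ, ((w : ℝ) - 1) * η ≤ dd x r m → dd x r m < w * η →
      ∃ τ : Fin w → Fin (r + 1) → Fin r ⊕ Fin m, (∀ c, Function.Injective (τ c)) ∧
        Comb1 x η (rtA : Fin r ⊕ Fin m → Prop) τ) :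
    Lev x r ((⌊dd x r m⌋₊ + 1) * L) := by
  obtain ⟨η, h1, h2, hP⟩ := h
  have hw1 : (((⌊dd x r m / η⌋₊ + 1 : ℕ) : ℝ) - 1) * η ≤ dd x r m := by
    push_cast
    rw [add_sub_cancel_right, ← le_div_iff₀ h1]
    exact Nat.floor_le (div_nonneg hD h1.le)
  have hw2 : dd x r m < ((⌊dd x r m / η⌋₊ + 1 : ℕ) : ℝ) * η := by
    push_cast
    rw [← div_lt_iff₀ h1]
    exact Nat.lt_floor_add_one _
  have hw0 : 0 < ⌊dd x r m / η⌋₊ + 1 := Nat.succ_pos _
  generalize ⌊dd x r m / η⌋₊ + 1 = w at hw1 hw2 hw0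
  obtain ⟨τ, hτ, hc⟩ := hdes η h1 h2 w hw1 hw2
  have : Nonempty (Fin w) := ⟨⟨0, hw0⟩⟩
  have g := pc_glue (δ' := w * η - dd x r m) (Et := w * η - dd x r m) (F := fun _ => 0)
    (fun _ : Fin w => hP) h1.le hτ (by simp) (by linarith) (fun _ => by linarith) hc.comb
  refine ⟨w * η - dd x r m, by linarith, by linarith, pc_mono g ?_⟩
  rw [Finset.sum_const, Finset.card_univ, Fintype.card_fin, smul_eq_mul]
  refine Nat.mul_le_mul_right L (?_ : _ ≤ w)
  rw [Nat.succ_le_iff, Nat.floor_lt hD]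
  have h9 : (w : ℝ) * η ≤ w * 1 := mul_le_mul_of_nonneg_left h2 (Nat.cast_nonneg w)
  linarith

/-- The last level: one vertex adjacent to `n + 1` roots. -/
theorem lev_base {x : ℝ} {n : ℕ} (h1 : (n : ℝ) ≤ x) (h2 : x < n + 1) : Lev x (n + 1) 1 := by
  refine ⟨n + 1 - x, by linarith, by linarith, fun _ => by linarith, Unit, inferInstance, ⊤,
    ?_, ?_, ?_, by simp, by simp⟩
  · intro W _ H φ hφ
    have huniq : ∀ a b, Fr rtA φ a → Fr rtA φ b → a = b := by
      intro a b ha hb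
      have key : ∀ a, Fr rtA φ a → (Sum.inr () : Fin (n + 1) ⊕ Unit) ∈ φ a := by
        intro a ha
        obtain ⟨⟨z, hz⟩⟩ := (hφ.conn a).nonempty
        rcases z with i | u
        · exact absurd ⟨i, rfl⟩ (ha _ hz)
        · exact hz
      by_contra hne
      exact Set.disjoint_left.1 (hφ.disj a b hne) (key a ha) (key b hb)
    have hf : fcount (Fr rtA φ) H ≤ 2 * (Fintype.card {a // Fr rtA φ a} *
        Fintype.card {a // ¬ Fr rtA φ a}) := by
      have e : 2 * (Fintype.card {a // Fr rtA φ a} * Fintype.card {a // ¬ Fr rtA φ a}) =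
          ∑ a : W, ∑ b : W, ((if Fr rtA φ a ∧ ¬ Fr rtA φ b then 1 else 0) +
            (if ¬ Fr rtA φ a ∧ Fr rtA φ b then 1 else 0)) := by
        simp only [Finset.sum_add_distrib]
        rw [sum_and (Fr rtA φ) (fun a => ¬ Fr rtA φ a), sum_and (fun a => ¬ Fr rtA φ a) (Fr rtA φ)]
        have h3 : ∀ a b c : ℕ, b = c → 2 * (a * b) = a * c + c * a := by
          rintro a b c rfl
          ring
        exact h3 _ _ _ (by convert rfl)
      rw [e]
      unfold fcount
      refine Finset.sum_le_sum fun a _ => Finset.sum_le_sum fun b _ => ?_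
      by_cases hab : H.Adj a b ∧ (Fr rtA φ a ∨ Fr rtA φ b)
      · rw [if_pos hab]
        by_cases ha : Fr rtA φ a
        · have hb : ¬ Fr rtA φ b := fun hb => hab.1.ne (huniq a b ha hb)
          rw [if_pos (⟨ha, hb⟩ : Fr rtA φ a ∧ ¬ Fr rtA φ b)]
          omega
        · have hb : Fr rtA φ b := hab.2.resolve_left ha
          rw [if_pos (⟨ha, hb⟩ : ¬ Fr rtA φ a ∧ Fr rtA φ b)]
          omega
      · rw [if_neg hab]
        exact Nat.zero_le _
    have hF1 : Fintype.card {a // Fr rtA φ a} ≤ 1 := by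
      rw [Fintype.card_le_one_iff]
      rintro ⟨a, ha⟩ ⟨b, hb⟩
      exact Subtype.ext (huniq a b ha hb)
    have hR : Fintype.card {a // ¬ Fr rtA φ a} ≤ n + 1 := by
      have hex : ∀ a : {a // ¬ Fr rtA φ a}, ∃ i : Fin (n + 1), Sum.inl i ∈ φ a.1 := by
        rintro ⟨a, ha⟩
        unfold Fr at ha
        push Not at ha
        obtain ⟨z, hz, i, rfl⟩ := ha
        exact ⟨i, hz⟩
      choose g hg using hex
      have hg' : Function.Injective g := by
        intro a b hab
        by_contra hne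
        refine Set.disjoint_left.1 (hφ.disj a.1 b.1 fun e => hne (Subtype.ext e)) (hg a) ?_
        rw [hab]
        exact hg b
      have := Fintype.card_le_of_injective g hg'
      rwa [Fintype.card_fin] at this
    have hf' : (fcount (Fr rtA φ) H : ℝ) ≤ 2 * (Fintype.card {a // Fr rtA φ a} *
        Fintype.card {a // ¬ Fr rtA φ a}) := by exact_mod_cast hf
    unfold exc
    rcases Nat.le_one_iff_eq_zero_or_eq_one.1 hF1 with h0 | h0
    · left
      rw [h0] at hf' ⊢
      push_cast at hf' ⊢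
      linarith
    · rw [h0] at hf' ⊢
      rcases Nat.lt_or_ge n (Fintype.card {a // ¬ Fr rtA φ a}) with h3 | h3
      · right
        have h4 : Fintype.card {a // ¬ Fr rtA φ a} = n + 1 := le_antisymm hR h3
        refine ⟨by rw [h4, card_rtA, Fintype.card_fin], by rw [card_not_rtA]; rfl, ?_⟩
        rw [h4] at hf'
        push_cast at hf' ⊢
        linarith
      · left
        have h5 : (Fintype.card {a // ¬ Fr rtA φ a} : ℝ) ≤ n := by exact_mod_cast h3
        push_cast at hf' ⊢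
        linarith
  · unfold LB
    rw [fcount_piece (fun z : Fin (n + 1) ⊕ Unit => ¬ rtA z) (fun i h => h ⟨i, rfl⟩)
      (fun v ⟨i, h⟩ => Sum.inr_ne_inl h), card_not_rtA]
    simp
    linarith
  · intro i j hij
    rw [SimpleGraph.top_adj, ne_eq, Sum.inl.injEq]
    exact hij

/-- No roots: critical graphs. -/
theorem lev_zero {x : ℝ} {L : ℕ} (h : Lev x 0 L) : ∃ F : FG, Crit x F.2 ∧ L ≤ order F := by
  obtain ⟨η, h1, h2, -, V, _, G, h3, h4, -, h6, h7⟩ := h
  have hfr : ∀ (W : Type) (φ : W → Set (Fin 0 ⊕ V)) (a : W), Fr rtA φ a := by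
    rintro W φ a z hz ⟨i, -⟩
    exact i.elim0
  have hcard : Fintype.card (Fin 0 ⊕ V) = Fintype.card V := by simp
  have hfc : ∀ (W : Type) [Fintype W] (P : W → Prop) (H : SimpleGraph W), (∀ a, P a) →
      fcount P H = 2 * sz H := by
    intro W _ P H hP
    have e := dcount_eq H
    unfold sz
    rw [← e]
    unfold fcount dcount
    refine Finset.sum_congr rfl fun a _ => Finset.sum_congr rfl fun b _ => ?_
    by_cases hab : H.Adj a b
    · rw [if_pos ⟨hab, Or.inl (hP a)⟩, if_pos hab]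
    · rw [if_neg fun h => hab h.1, if_neg hab]
  have hex : ∀ (W : Type) [Fintype W] (H : SimpleGraph W), IsMinor H G →
      (2 * sz H : ℝ) - 2 * x * Fintype.card W ≤ 0 ∨ (Fintype.card W = Fintype.card V ∧
        (2 * sz H : ℝ) - 2 * x * Fintype.card W ≤ 2 * η) := by
    intro W _ H hH
    obtain ⟨φ, a1, a2, a3⟩ := hH
    have hm : RModel rtA G H φ := ⟨a1, a2, fun a b hab _ => a3 a b hab⟩
    have hc : Fintype.card {a // Fr rtA φ a} = Fintype.card W :=
      Fintype.card_congr (Equiv.subtypeUnivEquiv (hfr W φ))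
    rcases h3 W H φ hm with h | ⟨-, h8, h9⟩
    · left
      unfold exc at h
      rw [hfc W _ H (hfr W φ), hc, mul_zero] at h
      push_cast at h
      exact h
    · right
      unfold exc at h9
      rw [hfc W _ H (hfr W φ), hc] at h9
      rw [hc, card_not_rtA] at h8
      push_cast at h9
      exact ⟨h8, h9⟩
  have hC : Crit x G := by
    refine ⟨by rw [hcard]; exact h7, ?_, ?_, ?_⟩
    · unfold LB at h4
      rw [hfc _ _ G (fun z ⟨i, _⟩ => i.elim0), card_not_rtA] at h4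
      rw [hcard]
      push_cast at h4
      linarith
    · have := hex _ G (isMinor_of_inj id Function.injective_id fun _ _ h => h)
      rcases this with h | ⟨-, h⟩ <;> linarith
    · intro W _ H hH hW
      rw [hcard] at hW
      rcases hex W H hH with h | ⟨h, -⟩
      · linarith
      · exact absurd h hW.ne
  obtain ⟨F, hF1, hF2⟩ := exists_FG G hC.pos
  refine ⟨F, crit_iso hF1 hF2 hC, ?_⟩
  rw [order_eq, le_antisymm (card_le_of_minor hF1) (card_le_of_minor hF2), hcard]
  exact h6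

end Pool.Agent.MP_e76e0e_co
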