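import Pool.Agent.MP_e76e0e_co.Design

/-!
# Large critical graphs
-/

set_option autoImplicit false

namespace Pool.Agent.MP_e76e0e_co

open Classical

theorem dd_one (x : ℝ) (r : ℕ) : dd x r 1 = x - r := by
  unfold dd
  push_cast
  ring

/-- one level, with one new vertex -/
theorem lev_one {x : ℝ} {r b L : ℕ} (hx : ((r + b : ℕ) : ℝ) ≤ x) (h : Lev x (r + 1) L) :
    Lev x r ((b + 1) * L) := by
  push_cast at hx
  have hb : (0 : ℝ) ≤ b := Nat.cast_nonneg b
  have h1 : 0 ≤ dd x r 1 := by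
    rw [dd_one]
    linarith
  have h2 := lev_step h h1 (fun η _ _ w _ _ => comb_one (by linarith))
  refine lev_mono h2 (Nat.mul_le_mul_right L (Nat.add_le_add_right ?_ 1))
  rw [dd_one]
  exact Nat.le_floor (by linarith)

/-- one level, with the better of the two constructions -/
theorem lev_kappa {x : ℝ} {r b L : ℕ} (hx : ((r + b : ℕ) : ℝ) ≤ x) (h : Lev x (r + 1) L) :
    ∃ L', Lev x r L' ∧ r * b ^ 2 * L ≤ 3 * (r + b) * L' := by
  by_cases hm : 4 ≤ min r b
  · have hmr : min r b ≤ r := min_le_left _ _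
    have hmb : min r b ≤ b := min_le_right _ _
    have hmul : r * b ≤ (r + b) * min r b := by
      rcases le_total r b with h1 | h1
      · rw [min_eq_left h1]
        nlinarith
      · rw [min_eq_right h1]
        nlinarith
    generalize min r b = m at hm hmr hmb hmul
    have hmb' : (m : ℝ) ≤ b := by exact_mod_cast hmb
    have hm4 : (4 : ℝ) ≤ m := by exact_mod_cast hm
    push_cast at hx
    have h0 : (m : ℝ) - 1 ≤ x - r := by linarith
    have h1 : 0 ≤ dd x r m := dd_nonneg h0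
    have h2 := lev_step h h1 (fun η hη hη1 w hw _ => comb_blk hmr hm h0 hη hη1 hw)
    refine ⟨_, h2, ?_⟩
    have h3 : (m : ℝ) * b / 2 ≤ dd x r m := by
      unfold dd
      nlinarith
    have h4 : dd x r m < ((⌊dd x r m⌋₊ + 1 : ℕ) : ℝ) := by
      push_cast
      exact Nat.lt_floor_add_one _
    generalize ⌊dd x r m⌋₊ + 1 = κ at h4
    have h5 : (m : ℝ) * b ≤ 2 * κ := by linarith
    have h6 : m * b ≤ 2 * κ := by exact_mod_cast h5
    have h7 : r * b ^ 2 ≤ 3 * (r + b) * κ := by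
      calc r * b ^ 2 = r * b * b := by ring
        _ ≤ (r + b) * m * b := Nat.mul_le_mul_right b hmul
        _ = (r + b) * (m * b) := by ring
        _ ≤ (r + b) * (2 * κ) := Nat.mul_le_mul_left _ h6
        _ ≤ 3 * (r + b) * κ := by nlinarith
    calc r * b ^ 2 * L ≤ 3 * (r + b) * κ * L := Nat.mul_le_mul_right L h7
      _ = _ := by ring
  · refine ⟨_, lev_one hx h, ?_⟩
    have h1 : r * b ≤ 3 * (r + b) := by
      have : r ≤ 3 ∨ b ≤ 3 := by omega
      rcases this with h2 | h2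
      · nlinarith [Nat.mul_le_mul_right b h2]
      · nlinarith [Nat.mul_le_mul_left r h2]
    have h2 : r * b ^ 2 ≤ 3 * (r + b) * (b + 1) := by
      calc r * b ^ 2 = r * b * b := by ring
        _ ≤ 3 * (r + b) * b := Nat.mul_le_mul_right b h1
        _ ≤ _ := Nat.mul_le_mul_left _ (Nat.le_succ b)
    calc r * b ^ 2 * L ≤ 3 * (r + b) * (b + 1) * L := Nat.mul_le_mul_right L h2
      _ = _ := by ring

/-- all levels down to the first -/
theorem lev_prod {x : ℝ} {n : ℕ} (h1 : (n : ℝ) ≤ x) (h2 : x < n + 1) : ∀ b r : ℕ, r + b = n →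
    1 ≤ r → ∃ L, Lev x r L ∧ (n - 1).descFactorial b * b.factorial ^ 2 ≤ (3 * n) ^ b * L := by
  intro b
  induction b with
  | zero =>
    intro r hr _
    refine ⟨1, ?_, by simp⟩
    obtain rfl : r = n := by omega
    exact lev_mono (lev_one (b := 0) (by simpa using h1) (lev_base h1 h2)) (by simp)
  | succ b ih =>
    intro r hr hr1
    obtain ⟨L, hL, hb⟩ := ih (r + 1) (by omega) (by omega)
    obtain ⟨L', hL', h3⟩ := lev_kappa (r := r) (b := b + 1) (by rw [hr]; exact h1) hL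
    refine ⟨L', hL', ?_⟩
    rw [hr] at h3
    have h4 : n - 1 - b = r := by omega
    rw [Nat.descFactorial_succ, h4, Nat.factorial_succ]
    calc r * (n - 1).descFactorial b * ((b + 1) * b.factorial) ^ 2
        = r * (b + 1) ^ 2 * ((n - 1).descFactorial b * b.factorial ^ 2) := by ring
      _ ≤ r * (b + 1) ^ 2 * ((3 * n) ^ b * L) := Nat.mul_le_mul_left _ hb
      _ = (3 * n) ^ b * (r * (b + 1) ^ 2 * L) := by ring
      _ ≤ (3 * n) ^ b * (3 * n * L') := Nat.mul_le_mul_left _ h3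
      _ = _ := by ring

theorem pow_le_fact (k : ℕ) : (k + 1) ^ k ≤ 3 ^ k * k.factorial := by
  induction k with
  | zero => simp
  | succ k ih =>
    have h1 : ((k : ℝ) + 2) ^ (k + 1) ≤ 3 * ((k : ℝ) + 1) ^ (k + 1) := by
      have hk : (0 : ℝ) < (k : ℝ) + 1 := by positivity
      have h2 : 1 + 1 / ((k : ℝ) + 1) ≤ Real.exp (1 / ((k : ℝ) + 1)) := by
        rw [add_comm]
        exact Real.add_one_le_exp _
      have h3 : (1 + 1 / ((k : ℝ) + 1)) ^ (k + 1) ≤ Real.exp (1 / ((k : ℝ) + 1)) ^ (k + 1) :=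
        pow_le_pow_left₀ (by positivity) h2 _
      rw [← Real.exp_nat_mul] at h3
      have h4 : ((k + 1 : ℕ) : ℝ) * (1 / ((k : ℝ) + 1)) = 1 := by
        push_cast
        field_simp
      rw [h4] at h3
      have h5 : Real.exp 1 < 3 := lt_trans Real.exp_one_lt_d9 (by norm_num)
      have h6 : (k : ℝ) + 2 = (1 + 1 / ((k : ℝ) + 1)) * ((k : ℝ) + 1) := by
        field_simp
        ring
      rw [h6, mul_pow]
      exact mul_le_mul_of_nonneg_right (by linarith) (by positivity)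
    have h7 : (k + 2) ^ (k + 1) ≤ 3 * (k + 1) ^ (k + 1) := by exact_mod_cast h1
    calc (k + 1 + 1) ^ (k + 1) = (k + 2) ^ (k + 1) := rfl
      _ ≤ 3 * (k + 1) ^ (k + 1) := h7
      _ = 3 * (k + 1) * (k + 1) ^ k := by ring
      _ ≤ 3 * (k + 1) * (3 ^ k * k.factorial) := Nat.mul_le_mul_left _ ih
      _ = _ := by
        rw [Nat.factorial_succ]
        ring

theorem nine_ten (k : ℕ) : (k + 1) ^ 2 * 9 ^ k ≤ 10 ^ (k + 1) * (k + 2) := by
  have h : ∀ k : ℕ, 9 ^ k * (9 + k) ≤ 9 * 10 ^ k := by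
    intro k
    induction k with
    | zero => simp
    | succ k ih =>
      calc 9 ^ (k + 1) * (9 + (k + 1)) = 9 ^ k * (90 + 9 * k) := by ring
        _ ≤ 9 ^ k * (90 + 10 * k) := Nat.mul_le_mul_left _ (by omega)
        _ = 10 * (9 ^ k * (9 + k)) := by ring
        _ ≤ 10 * (9 * 10 ^ k) := Nat.mul_le_mul_left _ ih
        _ = _ := by ring
  have h1 := Nat.mul_le_mul_right (k + 2) (h k)
  have h2 : 9 ^ k * (k + 1) ^ 2 ≤ 9 ^ k * (9 + k) * (k + 2) := by
    rw [mul_assoc]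
    exact Nat.mul_le_mul_left _ (by nlinarith)
  have h3 : 9 * 10 ^ k * (k + 2) ≤ 10 ^ (k + 1) * (k + 2) :=
    Nat.mul_le_mul_right _ (by rw [pow_succ]; omega)
  calc (k + 1) ^ 2 * 9 ^ k = 9 ^ k * (k + 1) ^ 2 := by ring
    _ ≤ _ := h2.trans (h1.trans h3)

/-- Large critical graphs for every `x`. -/
theorem exists_square {x : ℝ} {n : ℕ} (h1 : (n : ℝ) ≤ x) (h2 : x < n + 1) (hn : 1 ≤ n) :
    ∃ F : FG, Crit x F.2 ∧ n.factorial ^ 2 ≤ 10 ^ n * order F := by
  obtain ⟨L, hL, h3⟩ := lev_prod h1 h2 (n - 1) 1 (by omega) le_rfl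
  obtain ⟨F, hF, h4⟩ := lev_zero (lev_one (r := 0) (b := n) (by simpa using h1) hL)
  refine ⟨F, hF, ?_⟩
  obtain ⟨k, rfl⟩ := Nat.exists_eq_add_of_le' hn
  rw [Nat.add_sub_cancel, Nat.descFactorial_self] at h3
  have h5 := pow_le_fact k
  have h6 := nine_ten k
  have hpos : 0 < (3 * (k + 1)) ^ k := by positivity
  refine Nat.le_of_mul_le_mul_left ?_ hpos
  calc (3 * (k + 1)) ^ k * (k + 1).factorial ^ 2
      = 3 ^ k * (k + 1) ^ 2 * k.factorial ^ 2 * (k + 1) ^ k := by
        rw [Nat.factorial_succ, mul_pow, mul_pow]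
        ring
    _ ≤ 3 ^ k * (k + 1) ^ 2 * k.factorial ^ 2 * (3 ^ k * k.factorial) :=
        Nat.mul_le_mul_left _ h5
    _ = (k + 1) ^ 2 * 9 ^ k * (k.factorial * k.factorial ^ 2) := by
        have : (9 : ℕ) ^ k = 3 ^ k * 3 ^ k := by
          rw [← mul_pow]
          norm_num
        rw [this]
        ring
    _ ≤ 10 ^ (k + 1) * (k + 2) * (k.factorial * k.factorial ^ 2) := Nat.mul_le_mul_right _ h6
    _ ≤ 10 ^ (k + 1) * (k + 2) * ((3 * (k + 1)) ^ k * L) := Nat.mul_le_mul_left _ h3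
    _ = (3 * (k + 1)) ^ k * (10 ^ (k + 1) * ((k + 1 + 1) * L)) := by ring
    _ ≤ (3 * (k + 1)) ^ k * (10 ^ (k + 1) * order F) :=
        Nat.mul_le_mul_left _ (Nat.mul_le_mul_left _ h4)

/-- The gaps above `n` are at most `10 ^ n / (n !) ^ 2`. -/
theorem gapStar_le_square (n : ℕ) : gapStar n ≤ 10 ^ n / (n.factorial : ℝ) ^ 2 := by
  refine (isLUB_Ico n).2 ?_
  rintro _ ⟨x, ⟨h1, h2⟩, rfl⟩
  have hx : (0 : ℝ) ≤ x := le_trans (Nat.cast_nonneg n) h1
  rcases Nat.eq_zero_or_pos n with h0 | h0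
  · subst h0
    simp only [pow_zero, Nat.factorial_zero, Nat.cast_one, one_pow, div_one]
    linarith [gap_le_half hx]
  · obtain ⟨F, hF, h3⟩ := exists_square h1 h2 h0
    have h4 : gap x ≤ 1 / order F := by
      have := next_le (rho_mem hF) (rho_gt hF)
      have h5 := rho_le hF
      unfold gap
      linarith
    refine h4.trans ?_
    have h5 : (0 : ℝ) < order F := order_pos F
    have h6 : (0 : ℝ) < (n.factorial : ℝ) ^ 2 := by positivity
    rw [div_le_div_iff₀ h5 h6, one_mul]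
    exact_mod_cast h3

end Pool.Agent.MP_e76e0e_co
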