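import Pool.Agent.MP_e76e0e_co.Numeric

/-!
# Pieces inside pieces with more roots
-/

set_option autoImplicit false
set_option linter.unusedSectionVars false
set_option linter.unusedFintypeInType false

namespace Pool.Agent.MP_e76e0e_co

open Classical

section classes
variable {A K W : Type} [Fintype A] [Fintype K] [Fintype W] {rtK : K → Prop} {cl : K → Option W}
  {τ : A → K}

theorem dcl_le_card : dcl cl τ ≤ Fintype.card A := by
  have h : ∀ a : {a // Meets cl τ a}, ∃ i, cl (τ i) = some a.1 := fun a => a.2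
  choose g hg using h
  refine Fintype.card_le_of_injective g fun a b hab => ?_
  have := hg a
  rw [hab, hg b, Option.some.injEq] at this
  exact Subtype.ext this.symm

theorem dcl_le_classes : dcl cl τ ≤ Fintype.card {a // PRc rtK cl a} +
    Fintype.card {a // PMc rtK cl a} := by
  have hP : ∀ a : {a // Meets cl τ a}, PRc rtK cl a.1 ∨ PMc rtK cl a.1 := by
    rintro ⟨a, i, hi⟩
    by_cases h : PRc rtK cl a
    · exact Or.inl h
    · right
      exact ⟨⟨_, hi⟩, fun κ hκ hr => h ⟨κ, hr, hκ⟩⟩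
  have h3 := Fintype.card_le_of_injective
    (fun a : {a // Meets cl τ a} => (⟨a.1, hP a⟩ : {a // PRc rtK cl a ∨ PMc rtK cl a}))
    (fun s t h => Subtype.ext (Subtype.mk.inj h))
  exact h3.trans (Fintype.card_subtype_or _ _)

end classes

/-- a position which contains all the new vertices -/
def tau {s m t : ℕ} (f : Fin t → Fin s) (i : Fin t) : Fin s ⊕ Fin m :=
  if h : i.1 < m then Sum.inr ⟨i.1, h⟩ else Sum.inl (f i)

theorem tau_inj {s m t : ℕ} {f : Fin t → Fin s}
    (hf : ∀ i j : Fin t, m ≤ i.1 → m ≤ j.1 → f i = f j → i = j) :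
    Function.Injective (tau (m := m) f) := by
  intro i j h
  unfold tau at h
  split_ifs at h with h1 h2 h2
  · rw [Sum.inr.injEq, Fin.mk.injEq] at h
    exact Fin.ext h
  · rw [Sum.inl.injEq] at h
    exact hf i j (by omega) (by omega) h

/-- If many new vertices are dead or share their class with a root of the position then there are
few classes. -/
theorem dcl_tau {s m t : ℕ} (hmt : m ≤ t) {f : Fin t → Fin s} {W : Type} [Fintype W]
    {cl : Fin s ⊕ Fin m → Option W} {B : Fin m → Prop}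
    (hB : ∀ z, B z → cl (Sum.inr z) = none ∨ ∃ i : Fin t, m ≤ i.1 ∧
      cl (Sum.inl (f i)) = cl (Sum.inr z)) :
    dcl cl (tau f) + Fintype.card {z // B z} ≤ t := by
  let Q : Fin t → Prop := fun i => ∃ h : i.1 < m, B ⟨i.1, h⟩
  have h1 : dcl cl (tau f) ≤ Fintype.card {i // ¬ Q i} := by
    have hex : ∀ a : {a // Meets cl (tau f) a}, ∃ i : {i // ¬ Q i}, cl (tau f i.1) = some a.1 := by
      rintro ⟨a, i, hi⟩
      by_cases hQ : Q i
      · obtain ⟨h, hb⟩ := hQ
        have e : tau (m := m) f i = Sum.inr ⟨i.1, h⟩ := by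
          unfold tau
          rw [dif_pos h]
        rw [e] at hi
        rcases hB _ hb with h2 | ⟨k, hk, h2⟩
        · rw [h2] at hi
          exact absurd hi (by simp)
        · refine ⟨⟨k, fun ⟨h3, _⟩ => by omega⟩, ?_⟩
          have e2 : tau (m := m) f k = Sum.inl (f k) := by
            unfold tau
            rw [dif_neg (by omega)]
          rw [e2, h2, hi]
      · exact ⟨⟨i, hQ⟩, hi⟩
    choose g hg using hex
    refine Fintype.card_le_of_injective g fun a b hab => ?_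
    have := hg a
    rw [hab, hg b, Option.some.injEq] at this
    exact Subtype.ext this.symm
  have h2 : Fintype.card {z // B z} ≤ Fintype.card {i // Q i} := by
    refine Fintype.card_le_of_injective (fun z => (⟨⟨z.1.1, lt_of_lt_of_le z.1.2 hmt⟩,
      z.1.2, z.2⟩ : {i // Q i})) fun a b hab => ?_
    have h3 : a.1.1 = b.1.1 := congrArg (fun i => i.1.1) hab
    exact Subtype.ext (Fin.ext h3)
  have h3 : Fintype.card {i // Q i} + Fintype.card {i // ¬ Q i} = t := by
    have := Fintype.card_subtype_compl Q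
    have h4 := Fintype.card_subtype_le Q
    rw [Fintype.card_fin] at this h4
    omega
  omega

/-- Two positions which together contain all roots, if all classes contain roots. -/
theorem dcl_two {s m t : ℕ} (hmt : m ≤ t) {f₁ f₂ : Fin t → Fin s} {W : Type} [Fintype W]
    {cl : Fin s ⊕ Fin m → Option W}
    (hf : ∀ l : Fin s, (∃ i, m ≤ i.1 ∧ f₁ i = l) ∨ ∃ i, m ≤ i.1 ∧ f₂ i = l)
    (h0 : Fintype.card {a // PMc (rtA : Fin s ⊕ Fin m → Prop) cl a} = 0) :
    dcl cl (tau f₁) + dcl cl (tau f₂) + m ≤ 2 * t := by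
  obtain ⟨B₁, hB₁⟩ : ∃ B : Fin m → Prop, ∀ z, B z ↔ (cl (Sum.inr z) = none ∨
    ∃ i : Fin t, m ≤ i.1 ∧ cl (Sum.inl (f₁ i)) = cl (Sum.inr z)) := ⟨_, fun _ => Iff.rfl⟩
  obtain ⟨B₂, hB₂⟩ : ∃ B : Fin m → Prop, ∀ z, B z ↔ (cl (Sum.inr z) = none ∨
    ∃ i : Fin t, m ≤ i.1 ∧ cl (Sum.inl (f₂ i)) = cl (Sum.inr z)) := ⟨_, fun _ => Iff.rfl⟩
  have h1 := dcl_tau hmt (f := f₁) (cl := cl) (B := B₁) (fun z h => (hB₁ z).1 h)
  have h2 := dcl_tau hmt (f := f₂) (cl := cl) (B := B₂) (fun z h => (hB₂ z).1 h)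
  have hor : ∀ z, B₁ z ∨ B₂ z := by
    intro z
    by_contra hcon
    rw [not_or, hB₁, hB₂] at hcon
    have hz : ∃ a, cl (Sum.inr z) = some a := by
      rw [← Option.ne_none_iff_exists']
      exact fun h => hcon.1 (Or.inl h)
    obtain ⟨a, ha⟩ := hz
    rw [Fintype.card_eq_zero_iff] at h0
    refine h0.false ⟨a, ⟨Sum.inr z, ha⟩, ?_⟩
    rintro κ hκ ⟨l, rfl⟩
    rcases hf l with ⟨i, hi, rfl⟩ | ⟨i, hi, rfl⟩
    · exact hcon.1 (Or.inr ⟨i, hi, by rw [hκ, ha]⟩)
    · exact hcon.2 (Or.inr ⟨i, hi, by rw [hκ, ha]⟩)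
  have h3 : m ≤ Fintype.card {z // B₁ z} + Fintype.card {z // B₂ z} := by
    have h4 := Fintype.card_le_of_injective
      (fun z : Fin m => (⟨z, hor z⟩ : {z // B₁ z ∨ B₂ z})) (fun a b h => congrArg Subtype.val h)
    rw [Fintype.card_fin] at h4
    exact h4.trans (Fintype.card_subtype_or _ _)
  omega

/-- The new vertices and the surviving blocks. -/
theorem blk_classes {r m : ℕ} {hmr : m ≤ r} {W : Type} [Fintype W]
    {cl : Fin r ⊕ Fin m → Option W} {i₀ : Fin m} (hs₀ : Surv cl (blk hmr i₀)) :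
    (Finset.univ.filter fun i => Surv cl (blk hmr i)).card ≤
      Fintype.card {a // PMc (rtA : Fin r ⊕ Fin m → Prop) cl a} := by
  set I : Finset (Fin m) := Finset.univ.filter fun i => Surv cl (blk hmr i) with hI
  have hIm : I.card ≤ m := by
    have := Finset.card_le_univ I
    rwa [Fintype.card_fin] at this
  -- the classes of the new vertices
  have hex : ∀ z : Fin m, ∃ a, cl (Sum.inr z) = some a := fun z => surv_some hs₀ (blk_mid i₀ z)
  choose g hg using hex
  have hginj : Function.Injective g := by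
    intro z z' h
    have := surv_inj hs₀ (blk_mid i₀ z) (blk_mid i₀ z') (by rw [hg, hg, h])
    exact Sum.inr_injective this
  -- new vertices whose class contains a root
  have hroot : ∀ z : Fin m, (∃ l : Fin r, cl (Sum.inl l) = cl (Sum.inr z)) →
      ∃ i : Fin m, i ∈ Iᶜ ∧ cl (Sum.inl ⟨i.1, lt_of_lt_of_le i.2 hmr⟩) = cl (Sum.inr z) := by
    rintro z ⟨l, hl⟩
    by_cases hlm : l.1 < m
    · refine ⟨⟨l.1, hlm⟩, ?_, hl⟩
      rw [Finset.mem_compl]
      intro hmem
      have hs : Surv cl (blk hmr ⟨l.1, hlm⟩) := (Finset.mem_filter.1 hmem).2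
      have := surv_inj hs (blk_self ⟨l.1, hlm⟩) (blk_mid _ z) hl
      exact Sum.inl_ne_inr this
    · have := surv_inj hs₀ (blk_big i₀ l (by omega)) (blk_mid _ z) hl
      exact absurd this Sum.inl_ne_inr
  set Z : Finset (Fin m) := Finset.univ.filter
    fun z => ∃ l : Fin r, cl (Sum.inl l) = cl (Sum.inr z) with hZ
  have hZI : Z.card ≤ (Iᶜ).card := by
    have : ∀ z : Z, ∃ i : (Iᶜ : Finset (Fin m)),
        cl (Sum.inl ⟨i.1.1, lt_of_lt_of_le i.1.2 hmr⟩) = cl (Sum.inr z.1) := by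
      rintro ⟨z, hz⟩
      obtain ⟨i, hi, h⟩ := hroot z (Finset.mem_filter.1 hz).2
      exact ⟨⟨i, hi⟩, h⟩
    choose f hf using this
    have hfi : Function.Injective f := by
      intro a b hab
      have h1 := hf a
      rw [hab, hf b] at h1
      rw [hg, hg, Option.some.injEq] at h1
      exact Subtype.ext (hginj h1.symm)
    have := Fintype.card_le_of_injective f hfi
    rwa [Fintype.card_coe, Fintype.card_coe] at this
  have hZj : (Zᶜ).card ≤ Fintype.card {a // PMc (rtA : Fin r ⊕ Fin m → Prop) cl a} := by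
    rw [← Fintype.card_coe]
    refine Fintype.card_le_of_injective (fun z : (Zᶜ : Finset (Fin m)) =>
      (⟨g z.1, ⟨Sum.inr z.1, hg z.1⟩, ?_⟩ : {a // PMc (rtA : Fin r ⊕ Fin m → Prop) cl a})) ?_
    · rintro κ hκ ⟨l, rfl⟩
      exact Finset.mem_compl.1 z.2 (Finset.mem_filter.2 ⟨Finset.mem_univ _, l, by rw [hκ, hg]⟩)
    · intro a b hab
      exact Subtype.ext (hginj (congrArg Subtype.val hab))
  rw [Finset.card_compl, Fintype.card_fin] at hZI hZj
  omega

/-- The numerical inequality for the blocks. -/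
theorem num_top {x σ G : ℝ} {s m f z N : ℕ} (hσ : 0 < σ) (hσ1 : σ ≤ 1) (hG : 0 ≤ G)
    (hf : f * σ ≤ dd x s m + G + 2) (hz1 : 1 ≤ z) (hzm : z < m)
    (hN : m * N ≤ z * (f + (m - z)))
    (hnum : 2 * (m : ℝ) * (3 * G + 2) ≤ (m - 1) * (m - 2)) :
    (N : ℝ) * σ + 2 * G ≤ dd x s z := by
  obtain ⟨u, rfl⟩ := Nat.exists_eq_add_of_lt hzm
  have h0 : z + u + 1 - z = u + 1 := by omega
  rw [h0] at hN
  have h1 : ((z + u + 1 : ℕ) : ℝ) * N ≤ z * (f + (u + 1)) := by exact_mod_cast hN
  unfold dd at hf ⊢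
  push_cast at h1 hf hnum ⊢
  have hz0 : (1 : ℝ) ≤ z := by exact_mod_cast hz1
  have hu0 : (0 : ℝ) ≤ u := Nat.cast_nonneg u
  have hmpos : (0 : ℝ) < z + u + 1 := by linarith
  have h2 : (z + u + 1 : ℝ) * (N * σ) ≤ z * (f * σ + (u + 1) * σ) := by
    have := mul_le_mul_of_nonneg_right h1 hσ.le
    nlinarith
  have h3 : (u + 1 : ℝ) * σ ≤ u + 1 := by nlinarith
  have h5 : (z : ℝ) * (f * σ + (u + 1) * σ) ≤
      z * (((z + u + 1) * (x - s) - (z + u + 1) * ((z + u + 1) - 1) / 2 + G + 2) + (u + 1)) :=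
    mul_le_mul_of_nonneg_left (by linarith) (by linarith)
  have h6 : (z : ℝ) * (((z + u + 1) * (x - s) - (z + u + 1) * ((z + u + 1) - 1) / 2 + G + 2) +
      (u + 1)) + (z + u + 1) * (2 * G) ≤ (z + u + 1) * (z * (x - s) - z * (z - 1) / 2) := by
    -- `z (u + 1) ≥ z + u`
    have h7 : (z + u : ℝ) ≤ z * (u + 1) := by nlinarith
    have h8 : (z + u : ℝ) * ((z + u + 1) - 2) ≤ z * (u + 1) * ((z + u + 1) - 2) := by
      rcases le_or_gt (2 : ℝ) (z + u + 1) with h9 | h9
      · exact mul_le_mul_of_nonneg_right h7 (by linarith)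
      · exfalso
        nlinarith
    nlinarith
  have h9 : (z + u + 1 : ℝ) * (N * σ + 2 * G) ≤
      (z + u + 1) * (z * (x - s) - z * (z - 1) / 2) := by
    rw [mul_add]
    linarith
  exact le_of_mul_le_mul_left h9 hmpos

end Pool.Agent.MP_e76e0e_co
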