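import Pool.Agent.MP_e76e0e_co.Glue

/-!
# The recursion for rooted critical graphs
-/

set_option autoImplicit false
set_option linter.unusedSectionVars false
set_option linter.unusedFintypeInType false

namespace Pool.Agent.MP_e76e0e_co

open Classical

/-- classes (with respect to a partial map `cl`) which contain a root -/
def PRc {K W : Type} (rtK : K → Prop) (cl : K → Option W) (a : W) : Prop :=
  ∃ κ, rtK κ ∧ cl κ = some a

/-- classes which contain no root -/
def PMc {K W : Type} (rtK : K → Prop) (cl : K → Option W) (a : W) : Prop :=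
  (∃ κ, cl κ = some a) ∧ ∀ κ, cl κ = some a → ¬ rtK κ

/-- a copy survives if its roots lie in different classes -/
def Surv {A K W : Type} (cl : K → Option W) (τ : A → K) : Prop :=
  (∀ i, ∃ a, cl (τ i) = some a) ∧ Function.Injective fun i => cl (τ i)

/-- lower bound for the number of edges of a rooted graph -/
def LB {X : Type} [Fintype X] (x η : ℝ) (rt : X → Prop) (G : SimpleGraph X) : Prop :=
  2 * (x * Fintype.card {z // ¬ rt z} + η) ≤ fcount (fun z => ¬ rt z) G

/-- `m (x - r) - m (m - 1) / 2` -/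
noncomputable def dd (x : ℝ) (r m : ℕ) : ℝ := m * (x - r) - m * ((m : ℝ) - 1) / 2

/-- the class `a` contains a root of the piece -/
def Meets {A K W : Type} (cl : K → Option W) (τ : A → K) (a : W) : Prop :=
  ∃ i, cl (τ i) = some a

/-- the number of classes which contain a root of the piece -/
noncomputable def dcl {A K W : Type} [Fintype W] (cl : K → Option W) (τ : A → K) : ℕ :=
  Fintype.card {a : W // Meets cl τ a}

/-- upper bound for the excess of the trace of a minor on a piece -/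
noncomputable def val {A K W : Type} [Fintype W] (cl : K → Option W) (τ : A → K) (E : ℝ)
    (F : ℕ → ℝ) : ℝ :=
  if Surv cl τ then E else F (dcl cl τ)

/-- the combinatorial condition for the positions of the pieces -/
def Comb {K C : Type} {A : C → Type} [Fintype K] [Fintype C] (x : ℝ) (E : C → ℝ)
    (Fc : C → ℕ → ℝ) (F : ℕ → ℝ) (rtK : K → Prop) (τ : ∀ c, A c → K) : Prop :=
  ∀ (W : Type) [Fintype W] (cl : K → Option W),
    (∑ c, val cl (τ c) (E c) (Fc c)) ≤
        dd x (Fintype.card {a // PRc rtK cl a}) (Fintype.card {a // PMc rtK cl a}) +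
          F (Fintype.card {a // PRc rtK cl a}) ∨
      (Fintype.card {a // PRc rtK cl a} = Fintype.card {κ // rtK κ} ∧
        Fintype.card {a // PMc rtK cl a} = Fintype.card {κ // ¬ rtK κ})

theorem dcl_of_surv {A K W : Type} [Fintype A] [Fintype W] {cl : K → Option W} {τ : A → K}
    (h : Surv cl τ) : dcl cl τ = Fintype.card A := by
  obtain ⟨h1, h2⟩ := h
  choose g hg using h1
  refine (Fintype.card_of_bijective
    (f := fun i : A => (⟨g i, i, hg i⟩ : {a : W // Meets cl τ a})) ⟨?_, ?_⟩).symm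
  · intro i i' h
    apply h2
    show cl (τ i) = cl (τ i')
    have h3 : g i = g i' := congrArg Subtype.val h
    rw [hg, hg, h3]
  · rintro ⟨a, i, hi⟩
    refine ⟨i, Subtype.ext ?_⟩
    rw [hg i, Option.some_inj] at hi
    exact hi

section cards
variable {A V K C : Type} [Fintype A] [Fintype V] [Fintype K] [Fintype C]

theorem card_rtA : Fintype.card {y : A ⊕ V // rtA y} = Fintype.card A := by
  rw [card_sub, Fintype.sum_sum_type]
  have h1 : ∀ i : A, (if rtA (Sum.inl i : A ⊕ V) then 1 else 0) = 1 := fun i =>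
    if_pos ⟨i, rfl⟩
  have h2 : ∀ v : V, (if rtA (Sum.inr v : A ⊕ V) then 1 else 0) = 0 := fun v =>
    if_neg fun ⟨i, h⟩ => Sum.inr_ne_inl h
  rw [Finset.sum_congr rfl fun i _ => h1 i, Finset.sum_congr rfl fun v _ => h2 v]
  simp

theorem card_not_rtA : Fintype.card {y : A ⊕ V // ¬ rtA y} = Fintype.card V := by
  rw [card_sub, Fintype.sum_sum_type]
  have h1 : ∀ i : A, (if ¬ rtA (Sum.inl i : A ⊕ V) then 1 else 0) = 0 := fun i =>
    if_neg fun h => h ⟨i, rfl⟩
  have h2 : ∀ v : V, (if ¬ rtA (Sum.inr v : A ⊕ V) then 1 else 0) = 1 := fun v =>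
    if_pos fun ⟨i, h⟩ => Sum.inr_ne_inl h
  rw [Finset.sum_congr rfl fun i _ => h1 i, Finset.sum_congr rfl fun v _ => h2 v]
  simp

theorem card_rt0 {P : Type} [Fintype P] (rtK : K → Prop) :
    Fintype.card {z : K ⊕ P // rt0 rtK z} = Fintype.card {κ // rtK κ} := by
  rw [card_sub, Fintype.sum_sum_type, card_sub]
  have h2 : ∀ p : P, (if rt0 rtK (Sum.inr p : K ⊕ P) then 1 else 0) = 0 := fun v =>
    if_neg fun ⟨i, h, _⟩ => Sum.inr_ne_inl h
  rw [Finset.sum_congr rfl fun v _ => h2 v, Finset.sum_const_zero, add_zero]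
  refine Finset.sum_congr rfl fun κ _ => ?_
  have : rt0 rtK (Sum.inl κ : K ⊕ P) ↔ rtK κ := by
    constructor
    · rintro ⟨κ', h1, h2⟩
      rw [Sum.inl.injEq] at h1
      rw [h1]
      exact h2
    · exact fun h => ⟨κ, rfl, h⟩
  simp only [this]

theorem card_not_rt0 {P : Type} [Fintype P] (rtK : K → Prop) :
    Fintype.card {z : K ⊕ P // ¬ rt0 rtK z} =
    Fintype.card {κ // ¬ rtK κ} + Fintype.card P := by
  rw [card_sub, Fintype.sum_sum_type, card_sub]
  have h2 : ∀ p : P, (if ¬ rt0 rtK (Sum.inr p : K ⊕ P) then 1 else 0) = 1 := fun v =>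
    if_pos fun ⟨i, h, _⟩ => Sum.inr_ne_inl h
  rw [Finset.sum_congr rfl fun v _ => h2 v]
  congr 1
  · refine Finset.sum_congr rfl fun κ _ => ?_
    have : rt0 rtK (Sum.inl κ : K ⊕ P) ↔ rtK κ := by
      constructor
      · rintro ⟨κ', h1, h2⟩
        rw [Sum.inl.injEq] at h1
        rw [h1]
        exact h2
      · exact fun h => ⟨κ, rfl, h⟩
    simp only [this]
  · simp

end cards

section main
variable {K C : Type} {A V : C → Type} [∀ c, Fintype (A c)] [∀ c, Fintype (V c)] [Fintype K]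
  [Fintype C] {G' : ∀ c, SimpleGraph (A c ⊕ V c)} {τ : ∀ c, A c → K} {rtK : K → Prop} {x : ℝ}
  {E : C → ℝ} {Fc : C → ℕ → ℝ}

theorem surv_of_full {W : Type} [Fintype W] {H : SimpleGraph W} {φ : W → Set (K ⊕ Σ c, V c)}
    (hφ : RModel (rt0 rtK) (glue G' τ) H φ) {c : C}
    (h : Fintype.card {a : {a // Sc τ φ c a} //
      ¬ Fr rtA (fun a : {a // Sc τ φ c a} => jc τ c ⁻¹' φ a.1) a} =
      Fintype.card {y : A c ⊕ V c // rtA y}) : Surv (cls φ) (τ c) := by
  rw [card_rtA] at h
  have h1 : ∀ t : {a : {a // Sc τ φ c a} //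
      ¬ Fr rtA (fun a : {a // Sc τ φ c a} => jc τ c ⁻¹' φ a.1) a},
      ∃ i, cls φ (τ c i) = some t.1.1 := by
    rintro ⟨a, ha⟩
    unfold Fr at ha
    push Not at ha
    obtain ⟨z, hz, i, rfl⟩ := ha
    exact ⟨i, (cls_iff hφ.disj).2 hz⟩
  choose g hg using h1
  have hinj : Function.Injective g := by
    intro t t' e
    have h2 := hg t
    rw [e, hg t', Option.some_inj] at h2
    exact Subtype.ext (Subtype.ext h2.symm)
  have hbij : Function.Bijective g := (Fintype.bijective_iff_injective_and_card g).2 ⟨hinj, h⟩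
  refine ⟨fun i => ?_, fun i i' e => ?_⟩
  · obtain ⟨t, rfl⟩ := hbij.2 i
    exact ⟨_, hg t⟩
  · obtain ⟨t, rfl⟩ := hbij.2 i
    obtain ⟨t', rfl⟩ := hbij.2 i'
    have e' : cls φ (τ c (g t)) = cls φ (τ c (g t')) := e
    rw [hg t, hg t', Option.some_inj] at e'
    rw [show t = t' from Subtype.ext (Subtype.ext e')]

theorem card_trace {W : Type} [Fintype W] {H : SimpleGraph W} {φ : W → Set (K ⊕ Σ c, V c)}
    (hφ : RModel (rt0 rtK) (glue G' τ) H φ) (c : C) :
    Fintype.card {a : {a // Sc τ φ c a} //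
      ¬ Fr rtA (fun a : {a // Sc τ φ c a} => jc τ c ⁻¹' φ a.1) a} = dcl (cls φ) (τ c) := by
  refine Fintype.card_congr ⟨fun a => ⟨a.1.1, ?_⟩, fun a => ⟨⟨a.1, Or.inr a.2⟩, ?_⟩,
    fun _ => rfl, fun _ => rfl⟩
  · have h := a.2
    rw [F4' hφ] at h
    exact a.1.2.resolve_left h
  · rw [F4' hφ]
    intro h
    obtain ⟨i, hi⟩ := a.2
    exact F2 hφ h _ hi

/-- Gluing rooted graphs at positions which satisfy the combinatorial condition. -/
theorem rc_glue {σ Et : ℝ} {F : ℕ → ℝ} (hσ : 0 ≤ σ) (hE : ∀ c d, Fc c d ≤ E c - σ)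
    (hτ : ∀ c, Function.Injective (τ c))
    (hcl : ∀ c (i j : A c), i ≠ j → (G' c).Adj (Sum.inl i) (Sum.inl j))
    (hRC : ∀ c, RC x (E c) (Fc c) rtA (G' c))
    (hEt : Et = ∑ c, E c - dd x (Fintype.card {κ // rtK κ}) (Fintype.card {κ // ¬ rtK κ}))
    (hF : Et - σ ≤ F (Fintype.card {κ // rtK κ}))
    (hcomb : Comb x E Fc F rtK τ) :
    RC x Et F (rt0 rtK) (glue G' τ) := by
  intro W _ H φ hφ
  have hexc := exc_le hφ x
  have hper := fun c => hRC c _ (H.induce {a | Sc τ φ c a}) _ (F4 hφ hτ hcl c)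
  set X : C → ℝ := fun c => exc x (Fr rtA (fun a : {a // Sc τ φ c a} => jc τ c ⁻¹' φ a.1))
    (H.induce {a | Sc τ φ c a}) with hX
  set ρ : ℕ := Fintype.card {a // PR rtK φ a} with hρ
  set j : ℕ := Fintype.card {a // PM rtK φ a} with hj
  have hroot : Fintype.card {a // ¬ Fr (rt0 rtK) φ a} = ρ := by
    rw [hρ]
    exact Fintype.card_congr (Equiv.subtypeEquivRight fun a => F3' hφ a)
  rw [hroot]
  rcases hcomb W (cls φ) with h | ⟨h1, h2⟩
  · left
    have hX1 : ∀ c, X c ≤ 2 * val (cls φ) (τ c) (E c) (Fc c) := by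
      intro c
      rcases hper c with h | ⟨h1, h2, h3⟩
      · have h' : X c ≤ 2 * Fc c (dcl (cls φ) (τ c)) := by
          rw [← card_trace hφ c]
          exact h
        refine le_trans h' ?_
        unfold val
        split_ifs
        · have := hE c (dcl (cls φ) (τ c))
          linarith
        · exact le_rfl
      · unfold val
        rw [if_pos (surv_of_full hφ h1)]
        exact h3
    have hX2 : ∑ c, X c ≤ 2 * ∑ c, val (cls φ) (τ c) (E c) (Fc c) := by
      rw [Finset.mul_sum]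
      exact Finset.sum_le_sum fun c _ => hX1 c
    have h' : (∑ c, val (cls φ) (τ c) (E c) (Fc c)) ≤
        j * (x - ρ) - j * ((j : ℝ) - 1) / 2 + F ρ := h
    refine hexc.trans ?_
    nlinarith
  · have h1' : ρ = Fintype.card {κ // rtK κ} := h1
    have h2' : j = Fintype.card {κ // ¬ rtK κ} := h2
    rw [← h1', ← h2'] at hEt
    rw [← h1'] at hF
    unfold dd at hEt
    by_cases hall : ∀ c, Fintype.card {a : {a // Sc τ φ c a} //
        Fr rtA (fun a : {a // Sc τ φ c a} => jc τ c ⁻¹' φ a.1) a} =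
        Fintype.card {y : A c ⊕ V c // ¬ rtA y} ∧ X c ≤ 2 * E c
    · right
      refine ⟨by rw [card_rt0, ← h1'], ?_, ?_⟩
      · rw [card_not_rt0, card_free hφ, ← h2', Fintype.card_sigma]
        congr 1
        refine Finset.sum_congr rfl fun c _ => ?_
        rw [(hall c).1, card_not_rtA]
      · have h3 : ∑ c, X c ≤ 2 * ∑ c, E c := by
          rw [Finset.mul_sum]
          exact Finset.sum_le_sum fun c _ => (hall c).2
        refine hexc.trans ?_
        linarith
    · left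
      push Not at hall
      obtain ⟨c₀, hc₀⟩ := hall
      have hX1 : ∀ c, X c ≤ 2 * E c := by
        intro c
        rcases hper c with h | ⟨h5, h6, h7⟩
        · exact le_trans h (mul_le_mul_of_nonneg_left ((hE c _).trans (by linarith))
            (by norm_num))
        · exact h7
      have h4 : X c₀ ≤ 2 * (E c₀ - σ) := by
        rcases hper c₀ with h | ⟨h5, h6, h7⟩
        · exact le_trans h (mul_le_mul_of_nonneg_left (hE c₀ _) (by norm_num))
        · exact absurd h7 (not_le.2 (hc₀ h6))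
      have h3 : ∑ c, X c ≤ 2 * (∑ c, E c - σ) := by
        have h6 : ∑ c, X c ≤ ∑ c : C, (2 * E c - if c = c₀ then 2 * σ else 0) := by
          refine Finset.sum_le_sum fun c _ => ?_
          by_cases hc : c = c₀
          · rw [if_pos hc, hc]
            linarith
          · rw [if_neg hc]
            have := hX1 c
            linarith
        refine h6.trans (le_of_eq ?_)
        rw [Finset.sum_sub_distrib, Finset.sum_ite_eq' Finset.univ c₀,
          if_pos (Finset.mem_univ _), ← Finset.mul_sum]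
        ring
      refine hexc.trans ?_
      linarith

/-- the number of edges of a piece -/
theorem fcount_piece {A V : Type} [Fintype A] [Fintype V] {G' : SimpleGraph (A ⊕ V)}
    (P : A ⊕ V → Prop)
    (hl : ∀ i, ¬ P (Sum.inl i)) (hr : ∀ v, P (Sum.inr v)) : fcount P G' =
      (∑ i : A, ∑ v : V, if G'.Adj (Sum.inl i) (Sum.inr v) then 1 else 0) +
      (∑ i : A, ∑ v : V, if G'.Adj (Sum.inl i) (Sum.inr v) then 1 else 0) +
      ∑ v : V, ∑ v' : V, if G'.Adj (Sum.inr v) (Sum.inr v') then 1 else 0 := by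
  unfold fcount
  rw [Fintype.sum_sum_type]
  have h1 : ∀ i : A, ∑ b : A ⊕ V,
      (if G'.Adj (Sum.inl i) b ∧ (P (Sum.inl i) ∨ P b) then 1 else 0) =
      ∑ v : V, if G'.Adj (Sum.inl i) (Sum.inr v) then 1 else 0 := by
    intro i
    rw [Fintype.sum_sum_type]
    have h0 : ∀ i' : A, (if G'.Adj (Sum.inl i) (Sum.inl i') ∧
        (P (Sum.inl i) ∨ P (Sum.inl i')) then 1 else 0) = 0 :=
      fun i' => if_neg fun h => h.2.elim (hl i) (hl i')
    rw [Finset.sum_congr rfl fun i' _ => h0 i', Finset.sum_const_zero, zero_add]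
    refine Finset.sum_congr rfl fun v _ => ?_
    have h3 := hr v
    by_cases h : G'.Adj (Sum.inl i) (Sum.inr v)
    · rw [if_pos ⟨h, Or.inr h3⟩, if_pos h]
    · rw [if_neg fun h' => h h'.1, if_neg h]
  have h2 : ∀ v : V, ∑ b : A ⊕ V,
      (if G'.Adj (Sum.inr v) b ∧ (P (Sum.inr v) ∨ P b) then 1 else 0) =
      (∑ i : A, if G'.Adj (Sum.inl i) (Sum.inr v) then 1 else 0) +
      ∑ v' : V, if G'.Adj (Sum.inr v) (Sum.inr v') then 1 else 0 := by
    intro v
    have h3 := hr v
    rw [Fintype.sum_sum_type]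
    congr 1
    · refine Finset.sum_congr rfl fun i _ => ?_
      by_cases h : G'.Adj (Sum.inl i) (Sum.inr v)
      · rw [if_pos ⟨h.symm, Or.inl h3⟩, if_pos h]
      · rw [if_neg fun h' => h h'.1.symm, if_neg h]
    · refine Finset.sum_congr rfl fun v' _ => ?_
      by_cases h : G'.Adj (Sum.inr v) (Sum.inr v')
      · rw [if_pos ⟨h, Or.inl h3⟩, if_pos h]
      · rw [if_neg fun h' => h h'.1, if_neg h]
  rw [Finset.sum_congr rfl fun i _ => h1 i, Finset.sum_congr rfl fun v _ => h2 v,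
    Finset.sum_add_distrib, ← add_assoc]
  congr 2
  exact Finset.sum_comm

/-- the number of edges of the glued graph -/
theorem fcount_glue (hτ : ∀ c, Function.Injective (τ c)) (P : (K ⊕ Σ c, V c) → Prop)
    (R Q : K → Prop)
    (hRQ : ∀ κ, Q κ ↔ ¬ R κ) (hl : ∀ κ, P (Sum.inl κ) ↔ Q κ) (hr : ∀ p, P (Sum.inr p)) :
    2 * (Fintype.card {κ // R κ} * Fintype.card {κ // Q κ}) +
      Fintype.card {κ // Q κ} * (Fintype.card {κ // Q κ} - 1) +
      ∑ c : C, ((∑ i : A c, ∑ v : V c, if (G' c).Adj (Sum.inl i) (Sum.inr v) then 1 else 0) +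
      (∑ i : A c, ∑ v : V c, if (G' c).Adj (Sum.inl i) (Sum.inr v) then 1 else 0) +
      ∑ v : V c, ∑ v' : V c, if (G' c).Adj (Sum.inr v) (Sum.inr v') then 1 else 0) ≤
      fcount P (glue G' τ) := by
  set KP : ℕ := ∑ κ : K, ∑ p : Σ c, V c,
    if (glue G' τ).Adj (Sum.inl κ) (Sum.inr p) then 1 else 0 with hKP
  set KK : ℕ := ∑ κ : K, ∑ κ' : K, if κ ≠ κ' ∧ (Q κ ∨ Q κ') then 1 else 0 with hKK
  set PP : ℕ := ∑ p : Σ c, V c, ∑ p' : Σ c, V c,
    if (glue G' τ).Adj (Sum.inr p) (Sum.inr p') then 1 else 0 with hPP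
  have h0 : fcount P (glue G' τ) = KK + KP + KP + PP := by
    unfold fcount
    rw [Fintype.sum_sum_type]
    have h1 : ∀ κ : K, ∑ b : K ⊕ Σ c, V c, (if (glue G' τ).Adj (Sum.inl κ) b ∧
        (P (Sum.inl κ) ∨ P b) then 1 else 0) =
        (∑ κ' : K, if κ ≠ κ' ∧ (Q κ ∨ Q κ') then 1 else 0) +
        ∑ p : Σ c, V c, if (glue G' τ).Adj (Sum.inl κ) (Sum.inr p) then 1 else 0 := by
      intro κ
      rw [Fintype.sum_sum_type]
      congr 1
      · refine Finset.sum_congr rfl fun κ' _ => ?_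
        simp only [hl, glue_ll]
      · refine Finset.sum_congr rfl fun p _ => ?_
        have h3 := hr p
        by_cases h : (glue G' τ).Adj (Sum.inl κ) (Sum.inr p)
        · rw [if_pos ⟨h, Or.inr h3⟩, if_pos h]
        · rw [if_neg fun h' => h h'.1, if_neg h]
    have h2 : ∀ p : Σ c, V c, ∑ b : K ⊕ Σ c, V c, (if (glue G' τ).Adj (Sum.inr p) b ∧
        (P (Sum.inr p) ∨ P b) then 1 else 0) =
        (∑ κ : K, if (glue G' τ).Adj (Sum.inl κ) (Sum.inr p) then 1 else 0) +
        ∑ p' : Σ c, V c, if (glue G' τ).Adj (Sum.inr p) (Sum.inr p') then 1 else 0 := by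
      intro p
      have h3 := hr p
      rw [Fintype.sum_sum_type]
      congr 1
      · refine Finset.sum_congr rfl fun κ _ => ?_
        by_cases h : (glue G' τ).Adj (Sum.inl κ) (Sum.inr p)
        · rw [if_pos ⟨h.symm, Or.inl h3⟩, if_pos h]
        · rw [if_neg fun h' => h h'.1.symm, if_neg h]
      · refine Finset.sum_congr rfl fun p' _ => ?_
        by_cases h : (glue G' τ).Adj (Sum.inr p) (Sum.inr p')
        · rw [if_pos ⟨h, Or.inl h3⟩, if_pos h]
        · rw [if_neg fun h' => h h'.1, if_neg h]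
    rw [Finset.sum_congr rfl fun κ _ => h1 κ, Finset.sum_congr rfl fun p _ => h2 p,
      Finset.sum_add_distrib, Finset.sum_add_distrib, ← hKK, ← hKP, ← hPP]
    have h4 : ∑ p : Σ c, V c, ∑ κ : K,
        (if (glue G' τ).Adj (Sum.inl κ) (Sum.inr p) then 1 else 0) = KP := Finset.sum_comm
    rw [h4]
    ring
  have hKK' : KK = 2 * (Fintype.card {κ // R κ} * Fintype.card {κ // Q κ}) +
      Fintype.card {κ // Q κ} * (Fintype.card {κ // Q κ} - 1) := by
    have h1 : ∀ κ κ' : K, (if κ ≠ κ' ∧ (Q κ ∨ Q κ') then 1 else 0) =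
        (if R κ ∧ Q κ' then 1 else 0) + (if Q κ ∧ R κ' then 1 else 0) +
        (if Q κ ∧ Q κ' ∧ κ ≠ κ' then 1 else 0) := by
      intro κ κ'
      have q1 := hRQ κ
      have q2 := hRQ κ'
      by_cases h2 : R κ <;> by_cases h3 : R κ'
      · simp [q1, q2, h2, h3]
      · have : κ ≠ κ' := fun e => h3 (e ▸ h2)
        simp [q1, q2, h2, h3, this]
      · have : κ ≠ κ' := fun e => h2 (e ▸ h3)
        simp [q1, q2, h2, h3, this]
      · by_cases h4 : κ = κ'
        · simp [h4, q2, h3]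
        · simp [q1, q2, h2, h3, h4]
    rw [hKK, Finset.sum_congr rfl fun κ _ => Finset.sum_congr rfl fun κ' _ => h1 κ κ']
    simp only [Finset.sum_add_distrib]
    rw [sum_and, sum_and, sum_ne]
    ring
  have hKP' : (∑ c : C, ∑ i : A c, ∑ v : V c,
      if (G' c).Adj (Sum.inl i) (Sum.inr v) then 1 else 0) ≤ KP := by
    have e0 : KP = ∑ p : Σ c, V c, ∑ κ : K,
        if (glue G' τ).Adj (Sum.inl κ) (Sum.inr p) then 1 else 0 := Finset.sum_comm
    rw [e0, Fintype.sum_sigma]
    refine Finset.sum_le_sum fun c _ => ?_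
    rw [Finset.sum_comm]
    refine Finset.sum_le_sum fun v _ => ?_
    rw [← card_sub, ← card_sub]
    refine Fintype.card_le_of_injective
      (fun i : {i // (G' c).Adj (Sum.inl i) (Sum.inr v)} =>
        (⟨τ c i.1, glue_lr.2 ⟨i.1, rfl, i.2⟩⟩ :
          {κ // (glue G' τ).Adj (Sum.inl κ) (Sum.inr ⟨c, v⟩)})) ?_
    intro i i' h
    exact Subtype.ext (hτ c (Subtype.mk.inj h))
  have hPP' : PP = ∑ c : C,
      ∑ v : V c, ∑ v' : V c, if (G' c).Adj (Sum.inr v) (Sum.inr v') then 1 else 0 := by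
    rw [hPP, Fintype.sum_sigma]
    refine Finset.sum_congr rfl fun c _ => Finset.sum_congr rfl fun v _ => ?_
    rw [Fintype.sum_sigma, Finset.sum_eq_single c]
    · refine Finset.sum_congr rfl fun v' _ => ?_
      simp only [glue_rr]
    · intro c' _ hc
      refine Finset.sum_eq_zero fun v' _ => if_neg fun h => hc (glue_idx h).symm
    · intro h
      exact absurd (Finset.mem_univ c) h
  rw [h0, hKK', hPP', Finset.sum_add_distrib, Finset.sum_add_distrib]
  omega

theorem lb_glue {Et : ℝ}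
    (hEt : Et = ∑ c, E c - dd x (Fintype.card {κ // rtK κ}) (Fintype.card {κ // ¬ rtK κ}))
    (hτ : ∀ c, Function.Injective (τ c)) (hLB : ∀ c, LB x (E c) rtA (G' c)) :
    LB x Et (rt0 rtK) (glue G' τ) := by
  have e1 := fun c => fcount_piece (G' := G' c) (fun z : A c ⊕ V c => ¬ rtA z)
    (fun i h => h ⟨i, rfl⟩) (fun v ⟨i, h⟩ => Sum.inr_ne_inl h)
  have e2 := fcount_glue (G' := G') hτ (fun z : K ⊕ Σ c, V c => ¬ rt0 rtK z) rtK (fun κ => ¬ rtK κ)
    (fun _ => Iff.rfl) (fun κ => not_congr ⟨fun ⟨κ', h1, h2⟩ => by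
      rw [Sum.inl.injEq] at h1
      rw [h1]
      exact h2, fun h => ⟨κ, rfl, h⟩⟩) (fun p ⟨i, h, _⟩ => Sum.inr_ne_inl h)
  rw [Finset.sum_congr rfl fun c _ => (e1 c).symm] at e2
  unfold LB at hLB ⊢
  rw [card_not_rt0, Fintype.card_sigma]
  set r := Fintype.card {κ // rtK κ}
  set m := Fintype.card {κ // ¬ rtK κ}
  have e2' : 2 * (r * m) + m * (m - 1) + ∑ c, fcount (fun z : A c ⊕ V c => ¬ rtA z) (G' c) ≤
      fcount (fun z : K ⊕ Σ c, V c => ¬ rt0 rtK z) (glue G' τ) := by
    convert e2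
  have e3 : (2 : ℝ) * (r * m) + m * ((m : ℝ) - 1) +
      ∑ c, (fcount (fun z : A c ⊕ V c => ¬ rtA z) (G' c) : ℝ) ≤
      fcount (fun z : K ⊕ Σ c, V c => ¬ rt0 rtK z) (glue G' τ) := by
    have h1 : (m : ℝ) * ((m - 1 : ℕ) : ℝ) = m * ((m : ℝ) - 1) := by
      rcases Nat.eq_zero_or_pos m with h | h
      · rw [h]
        simp
      · rw [Nat.cast_sub h]
        simp
    rw [← h1]
    exact_mod_cast e2'
  have h6 : ∑ c, (2 * (x * Fintype.card (V c) + E c)) ≤
      ∑ c, (fcount (fun z : A c ⊕ V c => ¬ rtA z) (G' c) : ℝ) := by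
    refine Finset.sum_le_sum fun c _ => ?_
    have := hLB c
    rwa [card_not_rtA] at this
  rw [← Finset.mul_sum, Finset.sum_add_distrib, ← Finset.mul_sum] at h6
  refine le_trans ?_ e3
  rw [hEt]
  unfold dd
  push_cast
  linarith

end main

/-! ### transport -/

theorem rc_transport {X Y : Type} [Fintype X] [Fintype Y] (e : X ≃ Y) {rtX : X → Prop}
    {rtY : Y → Prop} (h : ∀ z, rtX z ↔ rtY (e z)) {G : SimpleGraph X} {x E : ℝ} {F : ℕ → ℝ}
    (hG : RC x E F rtX G) : RC x E F rtY (G.comap e.symm) := by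
  intro W _ H φ hφ
  have hfr : ∀ a, Fr rtX (fun a => e ⁻¹' φ a) a ↔ Fr rtY φ a := by
    intro a
    constructor
    · intro h1 z hz hr
      refine h1 (e.symm z) ?_ ((h _).2 ?_)
      · show e (e.symm z) ∈ φ a
        rw [Equiv.apply_symm_apply]
        exact hz
      · rw [Equiv.apply_symm_apply]
        exact hr
    · intro h1 z hz hr
      exact h1 (e z) hz ((h z).1 hr)
  have hmod : RModel rtX G H (fun a => e ⁻¹' φ a) := by
    refine ⟨?_, ?_, ?_⟩
    · intro a
      obtain ⟨⟨z₀, hz₀⟩⟩ := (hφ.conn a).nonempty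
      have hz₀' : e.symm z₀ ∈ e ⁻¹' φ a := by
        show e (e.symm z₀) ∈ φ a
        rw [Equiv.apply_symm_apply]
        exact hz₀
      refine conn_of_walks G hz₀' ?_
      intro y hy
      obtain ⟨p, hp⟩ := walk_of_conn _ (hφ.conn a) hz₀ (show e y ∈ φ a from hy)
      let f : G.comap e.symm →g G := ⟨e.symm, fun h => h⟩
      have h2 : f (e y) = y := e.symm_apply_apply y
      refine ⟨(p.map f).copy rfl h2, fun v hv => ?_⟩
      rw [SimpleGraph.Walk.support_copy, SimpleGraph.Walk.support_map, List.mem_map] at hv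
      obtain ⟨w, hw, rfl⟩ := hv
      show e (e.symm w) ∈ φ a
      rw [Equiv.apply_symm_apply]
      exact hp w hw
    · intro a b hab
      exact Disjoint.preimage _ (hφ.disj a b hab)
    · intro a b hab hf
      obtain ⟨u, hu, v, hv, huv⟩ := hφ.edge a b hab ((hfr a).1 hf)
      refine ⟨e.symm u, ?_, e.symm v, ?_, huv⟩
      · show e (e.symm u) ∈ φ a
        rw [Equiv.apply_symm_apply]
        exact hu
      · show e (e.symm v) ∈ φ b
        rw [Equiv.apply_symm_apply]
        exact hv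
  have hfr' : Fr rtX (fun a => e ⁻¹' φ a) = Fr rtY φ := funext fun a => propext (hfr a)
  have h1 := hG W H _ hmod
  rw [hfr'] at h1
  have hc1 : Fintype.card {z // rtX z} = Fintype.card {z // rtY z} :=
    Fintype.card_congr (e.subtypeEquiv h)
  have hc2 : Fintype.card {z // ¬ rtX z} = Fintype.card {z // ¬ rtY z} :=
    Fintype.card_congr (e.subtypeEquiv fun z => not_congr (h z))
  rw [hc1, hc2] at h1
  exact h1

theorem lb_transport {X Y : Type} [Fintype X] [Fintype Y] (e : X ≃ Y) {rtX : X → Prop}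
    {rtY : Y → Prop} (h : ∀ z, rtX z ↔ rtY (e z)) {G : SimpleGraph X} {x η : ℝ}
    (hG : LB x η rtX G) : LB x η rtY (G.comap e.symm) := by
  unfold LB at hG ⊢
  have hc2 : Fintype.card {z // ¬ rtX z} = Fintype.card {z // ¬ rtY z} :=
    Fintype.card_congr (e.subtypeEquiv fun z => not_congr (h z))
  rw [← hc2]
  refine hG.trans (le_of_eq ?_)
  unfold fcount
  rw [← Equiv.sum_comp e]
  push_cast
  refine Finset.sum_congr rfl fun a _ => ?_
  rw [← Equiv.sum_comp e]
  refine Finset.sum_congr rfl fun b _ => ?_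
  have h1 : (G.comap e.symm).Adj (e a) (e b) ↔ G.Adj a b := by
    show G.Adj (e.symm (e a)) (e.symm (e b)) ↔ _
    rw [Equiv.symm_apply_apply, Equiv.symm_apply_apply]
  simp only [h1, h]

end Pool.Agent.MP_e76e0e_co
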