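import Pool.Agent.MP_e76e0e_co.Top

/-!
# The nested recursion
-/

set_option autoImplicit false
set_option linter.unusedSectionVars false
set_option linter.unusedFintypeInType false

namespace Pool.Agent.MP_e76e0e_co

open Classical

theorem exists_mul {y σ : ℝ} (hy : 0 ≤ y) (hσ : 0 < σ) : ∃ f : ℕ, y < f * σ ∧ f * σ ≤ y + σ := by
  refine ⟨⌊y / σ⌋₊ + 1, ?_, ?_⟩
  · push_cast
    have := Nat.lt_floor_add_one (y / σ)
    rwa [div_lt_iff₀ hσ] at this
  · push_cast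
    have := Nat.floor_le (div_nonneg hy hσ.le)
    rw [le_div_iff₀ hσ] at this
    linarith

/-- Two copies of a piece with fewer roots inside a piece with `s` roots. -/
theorem pc_top {x δ σ EX : ℝ} {s m t s₀ N : ℕ} {g FX : ℕ → ℝ} (hms : m ≤ s) (hmt : m ≤ t)
    (hm4 : 4 ≤ m) (hts : t < s) (hg : Monotone g) (hg0 : ∀ d, 0 ≤ g d)
    (hgz : ∀ d, d < s₀ → g d = 0) (hEX0 : 0 ≤ EX) (hEX : EX ≤ g t)
    (hFX : ∀ d, d ≤ t → FX d ≤ g d) (hcover : s + 2 * m ≤ 2 * t) (hstar : 2 * t < 2 * s₀ + m)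
    (hmx : (m : ℝ) - 1 ≤ x - s) (hδ : 0 < δ) (hδσ : δ ≤ σ) (hσ1 : σ ≤ 1)
    (hX : Pc x δ t EX FX N) (hB : Pc x δ (s + 1) σ (fun _ => 0) 1)
    (hnum : 2 * (m : ℝ) * (3 * g (s - 1) + 2) ≤ (m - 1) * (m - 2)) :
    ∃ E, g (s - 1) + δ ≤ E ∧ E ≤ g (s - 1) + 2 ∧ Pc x δ s E (upd g s (E - δ)) (2 * N) := by
  have hσ : 0 < σ := lt_of_lt_of_le hδ hδσ
  have hm0 : 0 < m := by omega
  have hmR : (4 : ℝ) ≤ m := by exact_mod_cast hm4
  have hG : ∀ d, d < s → g d ≤ g (s - 1) := fun d hd => hg (by omega)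
  have hG0 : 0 ≤ g (s - 1) := hg0 _
  generalize hGdef : g (s - 1) = G at hG hG0 hnum
  have hGm : 3 * G + 2 ≤ (m : ℝ) / 2 := by
    have h1 : ((m : ℝ) - 1) * (m - 2) ≤ m * m := by nlinarith
    have h2 : (m : ℝ) * (2 * (3 * G + 2)) ≤ m * m := by linarith
    have := le_of_mul_le_mul_left h2 (by linarith)
    linarith
  have hEG : EX ≤ G := hEX.trans (hG t hts)
  have hD : (m : ℝ) - 1 ≤ dd x s m := by
    have := dd_mono (x := x) (r := s) (by omega : 1 ≤ m) hmx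
    rw [dd_one] at this
    linarith
  obtain ⟨f, hf1, hf2⟩ := exists_mul (y := dd x s m + G + δ - 2 * EX) (by linarith) hσ
  have hE1 : G + δ ≤ 2 * EX + f * σ - dd x s m := by linarith
  have hE2 : 2 * EX + f * σ - dd x s m ≤ G + 2 := by linarith
  have hcomb := comb_top (f := f) (l := 2 * EX + f * σ - dd x s m - δ) hms hmt hm4 hts hg hg0 hgz hG
    hEX hFX hcover hstar hmx hσ hσ1 (by linarith) hnum (by linarith) hm0
  have hne : Nonempty (Bool ⊕ Fin f) := ⟨Sum.inl true⟩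
  have hP : ∀ c : Bool ⊕ Fin f, Pc x δ (topA t s f c)
      ((Sum.elim (fun _ => EX) (fun _ => σ) : Bool ⊕ Fin f → ℝ) c)
      ((Sum.elim (fun _ => FX) (fun _ _ => 0) : Bool ⊕ Fin f → ℕ → ℝ) c)
      ((Sum.elim (fun _ => N) (fun _ => 1) : Bool ⊕ Fin f → ℕ) c) := by
    rintro (b | j)
    · exact hX
    · exact hB
  have g1 := pc_glue (δ' := δ) (Et := 2 * EX + f * σ - dd x s m)
    (F := upd g s (2 * EX + f * σ - dd x s m - δ)) hP hδ.le (topT_inj f hms hm0 hts)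
    (by rw [Fintype.sum_sum_type, Fintype.sum_bool]; simp; ring)
    (by rw [upd_ge le_rfl])
    (by
      intro d
      unfold upd
      split_ifs with h
      · have := hG d h
        linarith
      · exact le_rfl)
    hcomb
  refine ⟨_, hE1, hE2, pc_mono g1 ?_⟩
  rw [Fintype.sum_sum_type, Fintype.sum_bool]
  simp only [Sum.elim_inl]
  omega

/-- Pieces which use all vertices of the clique with one new vertex. -/
theorem comb_down {x E' σ : ℝ} {r f : ℕ} {F' F : ℕ → ℝ}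
    (h : ∀ ρ' j' : ℕ, ρ' + j' ≤ r → j' ≤ 1 → ∀ d, d ≤ ρ' + j' → F' d ≤ dd x ρ' j' + F ρ') :
    Comb x (Sum.elim (fun _ => E') (fun _ => σ) : Unit ⊕ Fin f → ℝ)
      (Sum.elim (fun _ => F') (fun _ _ => 0) : Unit ⊕ Fin f → ℕ → ℝ) F
      (rtA : Fin r ⊕ Fin 1 → Prop)
      (fun _ : Unit ⊕ Fin f => (finSumFinEquiv.symm : Fin (r + 1) → Fin r ⊕ Fin 1)) := by
  intro W _ cl
  have h1 : Fintype.card {a // PRc (rtA : Fin r ⊕ Fin 1 → Prop) cl a} ≤ r := by
    refine card_PRc_le.trans ?_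
    rw [card_rtA, Fintype.card_fin]
  have h2 : Fintype.card {a // PMc (rtA : Fin r ⊕ Fin 1 → Prop) cl a} ≤ 1 := by
    refine card_PMc_le.trans ?_
    rw [card_not_rtA, Fintype.card_fin]
  have h3 := dcl_le_classes (rtK := (rtA : Fin r ⊕ Fin 1 → Prop)) (cl := cl)
    (τ := (finSumFinEquiv.symm : Fin (r + 1) → Fin r ⊕ Fin 1))
  rw [card_rtA, card_not_rtA, Fintype.card_fin, Fintype.card_fin]
  generalize Fintype.card {a // PRc (rtA : Fin r ⊕ Fin 1 → Prop) cl a} = ρ' at h1 h3 ⊢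
  generalize Fintype.card {a // PMc (rtA : Fin r ⊕ Fin 1 → Prop) cl a} = j' at h2 h3 ⊢
  by_cases hfull : ρ' = r ∧ j' = 1
  · exact Or.inr hfull
  · left
    have h4 : ρ' + j' ≤ r := by omega
    have hns : ¬ Surv cl (finSumFinEquiv.symm : Fin (r + 1) → Fin r ⊕ Fin 1) := by
      intro hs
      have := dcl_of_surv hs
      rw [Fintype.card_fin] at this
      omega
    rw [Fintype.sum_sum_type]
    have e1 : (∑ c : Fin f, val cl (finSumFinEquiv.symm : Fin (r + 1) → Fin r ⊕ Fin 1)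
        ((Sum.elim (fun _ => E') (fun _ => σ) : Unit ⊕ Fin f → ℝ) (Sum.inr c))
        ((Sum.elim (fun _ => F') (fun _ _ => 0) : Unit ⊕ Fin f → ℕ → ℝ) (Sum.inr c))) = 0 := by
      refine Finset.sum_eq_zero fun c _ => ?_
      unfold val
      rw [if_neg hns]
      rfl
    rw [e1, add_zero]
    show (∑ c : Unit, val cl (finSumFinEquiv.symm : Fin (r + 1) → Fin r ⊕ Fin 1) E' F') ≤ _
    rw [Fintype.sum_unique]
    unfold val
    rw [if_neg hns]
    exact h ρ' j' h4 h2 _ h3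

/-- From `s + 1` roots to `s` roots. -/
theorem pc_conv {x δ σ E' v l' : ℝ} {s N : ℕ} {g : ℕ → ℝ} (hg : Monotone g)
    (hg0 : ∀ d, 0 ≤ g d) (hgv : ∀ d, d < s → g d ≤ v) (hv0 : 0 ≤ v) (hvx : v ≤ x - s)
    (hδ : 0 < δ) (hδσ : δ ≤ σ)
    (hP : Pc x δ (s + 1) E' (upd (upd g s v) (s + 1) l') N)
    (hB : Pc x δ (s + 1) σ (fun _ => 0) 1) (hE' : E' ≤ x - s + v + δ) :
    ∃ E, v + δ ≤ E ∧ E ≤ v + δ + σ ∧ Pc x δ s E (upd g s (E - δ)) N := by
  have hσ : 0 < σ := lt_of_lt_of_le hδ hδσ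
  obtain ⟨f, hf1, hf2⟩ := exists_mul (y := x - s + v + δ - E') (by linarith) hσ
  have hne : Nonempty (Unit ⊕ Fin f) := ⟨Sum.inl ()⟩
  have hPc : ∀ c : Unit ⊕ Fin f, Pc x δ (s + 1)
      ((Sum.elim (fun _ => E') (fun _ => σ) : Unit ⊕ Fin f → ℝ) c)
      ((Sum.elim (fun _ => upd (upd g s v) (s + 1) l') (fun _ _ => 0) :
        Unit ⊕ Fin f → ℕ → ℝ) c)
      ((Sum.elim (fun _ => N) (fun _ => 1) : Unit ⊕ Fin f → ℕ) c) := by
    rintro (b | j)
    · exact hP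
    · exact hB
  have hcomb : Comb x (Sum.elim (fun _ => E') (fun _ => σ) : Unit ⊕ Fin f → ℝ)
      (Sum.elim (fun _ => upd (upd g s v) (s + 1) l') (fun _ _ => 0) : Unit ⊕ Fin f → ℕ → ℝ)
      (upd g s (E' + f * σ - (x - s) - δ)) (rtA : Fin s ⊕ Fin 1 → Prop)
      (fun _ : Unit ⊕ Fin f => (finSumFinEquiv.symm : Fin (s + 1) → Fin s ⊕ Fin 1)) := by
    apply comb_down
    intro ρ' j' h1 h2 d hd
    have hρR : (ρ' : ℝ) ≤ s := by
      have : ρ' ≤ s := by omega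
      exact_mod_cast this
    rw [upd_lt (by omega : d < s + 1)]
    rcases Nat.le_one_iff_eq_zero_or_eq_one.1 h2 with h0 | h0
    · subst h0
      have e : dd x ρ' 0 = 0 := by
        unfold dd
        simp
      rw [e, zero_add]
      rcases Nat.lt_or_ge ρ' s with h3 | h3
      · rw [upd_lt h3, upd_lt (by omega : d < s)]
        exact hg (by omega)
      · rw [upd_ge h3]
        unfold upd
        split_ifs with h4
        · have := hgv d h4
          linarith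
        · linarith
    · subst h0
      rw [dd_one]
      have h3 : upd g s v d ≤ v := by
        unfold upd
        split_ifs with h4
        · exact hgv d h4
        · exact le_rfl
      have h4 : 0 ≤ upd g s (E' + f * σ - (x - s) - δ) ρ' := by
        unfold upd
        split_ifs
        · exact hg0 _
        · linarith
      linarith
  have g1 := pc_glue (A := fun _ => s + 1) (δ' := δ) (Et := E' + f * σ - (x - s))
    (F := upd g s (E' + f * σ - (x - s) - δ)) hPc hδ.le (fun _ => Equiv.injective _)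
    (by rw [Fintype.sum_sum_type, dd_one]; simp)
    (by rw [upd_ge le_rfl])
    (by
      intro d
      unfold upd
      split_ifs with h
      · have := hgv d h
        linarith
      · exact le_rfl)
    hcomb
  refine ⟨_, by linarith, by linarith, pc_mono g1 ?_⟩
  rw [Fintype.sum_sum_type]
  simp

/-- From a piece with `r + 1` roots to a critical piece with `r` roots. -/
theorem pc_fin {x δ E l : ℝ} {r N : ℕ} (hδ : 0 < δ) (hδ1 : δ ≤ 1)
    (hP : Pc x δ (r + 1) E (upd (fun _ => 0) (r + 1) l) N)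
    (hB : Pc x δ (r + 1) δ (fun _ => 0) 1) (hE : E ≤ x - r) (hr : (r : ℝ) ≤ x) :
    Lev x r N := by
  obtain ⟨f, hf1, hf2⟩ := exists_mul (y := x - r - E) (by linarith) hδ
  have hne : Nonempty (Unit ⊕ Fin f) := ⟨Sum.inl ()⟩
  have hPc : ∀ c : Unit ⊕ Fin f, Pc x δ (r + 1)
      ((Sum.elim (fun _ => E) (fun _ => δ) : Unit ⊕ Fin f → ℝ) c)
      ((Sum.elim (fun _ => upd (fun _ => 0) (r + 1) l) (fun _ _ => 0) :
        Unit ⊕ Fin f → ℕ → ℝ) c)
      ((Sum.elim (fun _ => N) (fun _ => 1) : Unit ⊕ Fin f → ℕ) c) := by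
    rintro (b | j)
    · exact hP
    · exact hB
  have hcomb : Comb x (Sum.elim (fun _ => E) (fun _ => δ) : Unit ⊕ Fin f → ℝ)
      (Sum.elim (fun _ => upd (fun _ => 0) (r + 1) l) (fun _ _ => 0) : Unit ⊕ Fin f → ℕ → ℝ)
      (fun _ => 0) (rtA : Fin r ⊕ Fin 1 → Prop)
      (fun _ : Unit ⊕ Fin f => (finSumFinEquiv.symm : Fin (r + 1) → Fin r ⊕ Fin 1)) := by
    apply comb_down
    intro ρ' j' h1 h2 d hd
    rw [upd_lt (by omega : d < r + 1), add_zero]
    apply dd_nonneg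
    have h3 : ((j' : ℕ) : ℝ) ≤ 1 := by exact_mod_cast h2
    have h4 : ((ρ' : ℕ) : ℝ) ≤ r := by
      have : ρ' ≤ r := by omega
      exact_mod_cast this
    linarith
  have g1 := pc_glue (A := fun _ => r + 1) (δ' := E + f * δ - (x - r)) (Et := E + f * δ - (x - r))
    (F := fun _ => 0) hPc hδ.le (fun _ => Equiv.injective _)
    (by rw [Fintype.sum_sum_type, dd_one]; simp)
    (by linarith) (by intro d; linarith) hcomb
  refine ⟨_, by linarith, by linarith, pc_mono g1 ?_⟩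
  rw [Fintype.sum_sum_type]
  simp

/-- bounds for the excess of the rooted minors with few roots -/
structure Ctx (s₀ : ℕ) (g : ℕ → ℝ) : Prop where
  mono : Monotone g
  nonneg : ∀ d, 0 ≤ g d
  zero : ∀ d, d < s₀ → g d = 0

theorem Ctx.upd {s₀ s : ℕ} {g : ℕ → ℝ} {v : ℝ} (hg : Ctx s₀ g) (hs : s₀ < s) (hv : g (s - 1) ≤ v) :
    Ctx s₀ (upd g s v) := by
  have hlt : ∀ d, d < s → g d ≤ v := fun d hd => (hg.mono (by omega)).trans hv
  refine ⟨?_, ?_, ?_⟩
  · intro a b hab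
    unfold MP_e76e0e_co.upd
    split_ifs with h1 h2
    · exact hg.mono hab
    · exact hlt a h1
    · omega
    · exact le_rfl
  · intro d
    unfold MP_e76e0e_co.upd
    split_ifs
    · exact hg.nonneg d
    · exact (hg.nonneg _).trans hv
  · intro d hd
    rw [upd_lt (by omega)]
    exact hg.zero d hd

/-- a piece which fits in the context `g` -/
def Item (x δ : ℝ) (g : ℕ → ℝ) (t N : ℕ) : Prop :=
  ∃ (E : ℝ) (F : ℕ → ℝ), 0 ≤ E ∧ E ≤ g t ∧ (∀ d, d ≤ t → F d ≤ g d) ∧ Pc x δ t E F N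

/-- Pieces which fit in a context can be enlarged to pieces with `s` roots. -/
def Op (x δ : ℝ) (s₀ s : ℕ) (κ : ℝ) (M : ℕ → ℕ) : Prop :=
  ∀ g, Ctx s₀ g → g (s - 1) ≤ κ → ∀ t N, s₀ ≤ t → t < s → Item x δ g t N →
    ∃ E, 0 ≤ E ∧ E ≤ g (s - 1) + 4 ∧ Pc x δ s E (upd g s (E - δ)) (M N)

theorem op_top {x δ σ κ : ℝ} {s₀ s m : ℕ} (hm4 : 4 ≤ m) (hcover : s + 2 * m ≤ 2 * s₀)
    (hstar : 2 * s < 2 * s₀ + m + 2) (hmx : (m : ℝ) - 1 ≤ x - s) (hδ : 0 < δ) (hδσ : δ ≤ σ)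
    (hσ1 : σ ≤ 1) (hB : Pc x δ (s + 1) σ (fun _ => 0) 1)
    (hnum : 2 * (m : ℝ) * (3 * κ + 2) ≤ (m - 1) * (m - 2)) :
    Op x δ s₀ s κ (fun N => 2 * N) := by
  rintro g hg hκ t N ht1 ht2 ⟨E, F, h1, h2, h3, h4⟩
  have hmR : (4 : ℝ) ≤ m := by exact_mod_cast hm4
  obtain ⟨E', h5, h6, h7⟩ := pc_top (m := m) (s₀ := s₀) (by omega) (by omega) hm4 ht2 hg.mono
    hg.nonneg hg.zero h1 h2 h3 (by omega) (by omega) hmx hδ hδσ hσ1 h4 hB (by
      refine le_trans ?_ hnum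
      exact mul_le_mul_of_nonneg_left (by linarith) (by linarith))
  have := hg.nonneg (s - 1)
  exact ⟨E', by linarith, by linarith, h7⟩

theorem op_step {x δ σ κ : ℝ} {s₀ s : ℕ} {M : ℕ → ℕ} (hs : s₀ < s) (hδ : 0 < δ) (hδσ : δ ≤ σ)
    (hσ1 : σ ≤ 1) (hB : Pc x δ (s + 1) σ (fun _ => 0) 1) (hx4 : 4 ≤ x - s) (hκ : κ + 2 ≤ x - s)
    (h : Op x δ s₀ (s + 1) (κ + 2) M) : Op x δ s₀ s κ (fun N => M (M N)) := by
  rintro g hg hgκ t N ht1 ht2 ⟨E, F, h1, h2, h3, h4⟩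
  have hv0 := hg.nonneg (s - 1)
  have hlt : ∀ d, d < s → g d ≤ g (s - 1) := fun d hd => hg.mono (by omega)
  -- first round
  have hg₀ : Ctx s₀ (upd g s (g (s - 1))) := hg.upd hs le_rfl
  have e0 : upd g s (g (s - 1)) (s + 1 - 1) = g (s - 1) := upd_ge (by omega)
  obtain ⟨E', h5, h6, h7⟩ := h _ hg₀ (by rw [e0]; linarith) t N ht1 (by omega)
    ⟨E, F, h1, by rw [upd_lt ht2]; exact h2, fun d hd => by
      rw [upd_lt (by omega)]
      exact h3 d hd, h4⟩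
  rw [e0] at h6
  obtain ⟨E₀, h8, h9, h10⟩ := pc_conv hg.mono hg.nonneg hlt hv0 (by linarith) hδ hδσ h7 hB
    (by linarith)
  -- second round
  have hg₁ : Ctx s₀ (upd g s E₀) := hg.upd hs (by linarith)
  have e1 : upd g s E₀ (s + 1 - 1) = E₀ := upd_ge (by omega)
  obtain ⟨E'', h11, h12, h13⟩ := h _ hg₁ (by rw [e1]; linarith) s (M N) hs.le (by omega)
    ⟨E₀, upd g s (E₀ - δ), by linarith, by rw [upd_ge le_rfl], fun d hd => by
      rcases Nat.lt_or_ge d s with h14 | h14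
      · rw [upd_lt h14, upd_lt h14]
      · rw [upd_ge h14, upd_ge h14]
        linarith, h10⟩
  rw [e1] at h12
  obtain ⟨E₁, h15, h16, h17⟩ := pc_conv hg.mono hg.nonneg
    (fun d hd => (hlt d hd).trans (by linarith : g (s - 1) ≤ E₀))
    (by linarith) (by linarith) hδ hδσ h13 hB (by linarith)
  exact ⟨E₁, by linarith, by linarith, h17⟩

end Pool.Agent.MP_e76e0e_co
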