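import Pool.Agent.MP_e76e0e_co.Basic

/-!
# Rooted critical graphs and gluing along cliques
-/

set_option autoImplicit false

namespace Pool.Agent.MP_e76e0e_co

open Classical

/-- a class of a model is free if it contains no root -/
def Fr {X W : Type} (rt : X → Prop) (φ : W → Set X) (a : W) : Prop := ∀ x ∈ φ a, ¬ rt x

/-- a model of `H` in `G` as a minor; only edges with a free end have to be realised -/
structure RModel {X W : Type} (rt : X → Prop) (G : SimpleGraph X) (H : SimpleGraph W)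
    (φ : W → Set X) : Prop where
  conn : ∀ a, (G.induce (φ a)).Connected
  disj : ∀ a b, a ≠ b → Disjoint (φ a) (φ b)
  edge : ∀ a b, H.Adj a b → Fr rt φ a → ∃ x ∈ φ a, ∃ y ∈ φ b, G.Adj x y

/-- ordered adjacent pairs, at least one member of which satisfies `F` -/
noncomputable def fcount {W : Type} [Fintype W] (F : W → Prop) (H : SimpleGraph W) : ℕ :=
  ∑ a : W, ∑ b : W, if H.Adj a b ∧ (F a ∨ F b) then 1 else 0

/-- twice the excess -/
noncomputable def exc {W : Type} [Fintype W] (x : ℝ) (F : W → Prop) (H : SimpleGraph W) : ℝ :=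
  fcount F H - 2 * x * Fintype.card {a // F a}

/-- rooted graphs with excess at most `E`, whose other rooted minors have excess at most `F d`, where
`d` is the number of the vertices of the minor which contain a root -/
def RC {X : Type} [Fintype X] (x E : ℝ) (F : ℕ → ℝ) (rt : X → Prop) (G : SimpleGraph X) : Prop :=
  ∀ (W : Type) [Fintype W] (H : SimpleGraph W) (φ : W → Set X), RModel rt G H φ →
    exc x (Fr rt φ) H ≤ 2 * F (Fintype.card {a // ¬ Fr rt φ a}) ∨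
      (Fintype.card {a // ¬ Fr rt φ a} = Fintype.card {z // rt z} ∧
        Fintype.card {a // Fr rt φ a} = Fintype.card {z // ¬ rt z} ∧
        exc x (Fr rt φ) H ≤ 2 * E)

/-! ### the glued graph -/

/-- The graphs `G' c` (with roots `A c`), indexed by `C`, glued to the complete graph on `K`;
the roots of the piece `c` are identified with the vertices `τ c i`. -/
def glue {K C : Type} {A V : C → Type} (G' : ∀ c, SimpleGraph (A c ⊕ V c))
    (τ : ∀ c, A c → K) : SimpleGraph (K ⊕ Σ c, V c) where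
  Adj a b := (∃ κ κ', a = Sum.inl κ ∧ b = Sum.inl κ' ∧ κ ≠ κ') ∨
    (∃ c i v, a = Sum.inl (τ c i) ∧ b = Sum.inr ⟨c, v⟩ ∧ (G' c).Adj (Sum.inl i) (Sum.inr v)) ∨
    (∃ c i v, b = Sum.inl (τ c i) ∧ a = Sum.inr ⟨c, v⟩ ∧ (G' c).Adj (Sum.inl i) (Sum.inr v)) ∨
    (∃ c v v', a = Sum.inr ⟨c, v⟩ ∧ b = Sum.inr ⟨c, v'⟩ ∧ (G' c).Adj (Sum.inr v) (Sum.inr v'))
  symm := ⟨by
    rintro a b (⟨κ, κ', h1, h2, h3⟩ | ⟨c, i, v, h1, h2, h3⟩ | ⟨c, i, v, h1, h2, h3⟩ |
      ⟨c, v, v', h1, h2, h3⟩)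
    · exact Or.inl ⟨κ', κ, h2, h1, h3.symm⟩
    · exact Or.inr (Or.inr (Or.inl ⟨c, i, v, h1, h2, h3⟩))
    · exact Or.inr (Or.inl ⟨c, i, v, h1, h2, h3⟩)
    · exact Or.inr (Or.inr (Or.inr ⟨c, v', v, h2, h1, h3.symm⟩))⟩
  loopless := ⟨by
    rintro a (⟨κ, κ', h1, h2, h3⟩ | ⟨c, i, v, h1, h2, h3⟩ | ⟨c, i, v, h1, h2, h3⟩ |
      ⟨c, v, v', h1, h2, h3⟩)
    · rw [h1, Sum.inl.injEq] at h2
      exact h3 h2
    · rw [h1] at h2
      exact Sum.inl_ne_inr h2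
    · rw [h1] at h2
      exact Sum.inl_ne_inr h2
    · rw [h1, Sum.inr.injEq, Sigma.mk.injEq] at h2
      rw [eq_of_heq h2.2] at h3
      exact (G' c).loopless.irrefl _ h3⟩

section glue
variable {K C : Type} {A V : C → Type} {G' : ∀ c, SimpleGraph (A c ⊕ V c)} {τ : ∀ c, A c → K}

theorem glue_ll {κ κ' : K} : (glue G' τ).Adj (Sum.inl κ) (Sum.inl κ') ↔ κ ≠ κ' := by
  constructor
  · rintro (⟨κ₁, κ₂, h1, h2, h3⟩ | ⟨c, i, v, h1, h2, h3⟩ | ⟨c, i, v, h1, h2, h3⟩ |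
      ⟨c, v, v', h1, h2, h3⟩)
    · rw [Sum.inl.injEq] at h1 h2
      rw [h1, h2]
      exact h3
    · exact absurd h2 Sum.inl_ne_inr
    · exact absurd h2 Sum.inl_ne_inr
    · exact absurd h2 Sum.inl_ne_inr
  · intro h
    exact Or.inl ⟨κ, κ', rfl, rfl, h⟩

theorem glue_lr {κ : K} {c : C} {v : V c} : (glue G' τ).Adj (Sum.inl κ) (Sum.inr ⟨c, v⟩) ↔
    ∃ i, τ c i = κ ∧ (G' c).Adj (Sum.inl i) (Sum.inr v) := by
  constructor
  · rintro (⟨κ₁, κ₂, h1, h2, h3⟩ | ⟨c', i, v', h1, h2, h3⟩ | ⟨c', i, v', h1, h2, h3⟩ |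
      ⟨c', v₁, v₂, h1, h2, h3⟩)
    · exact absurd h2 Sum.inr_ne_inl
    · rw [Sum.inr.injEq, Sigma.mk.injEq] at h2
      rw [Sum.inl.injEq] at h1
      obtain ⟨rfl, h2⟩ := h2
      rw [eq_of_heq h2]
      exact ⟨i, h1.symm, h3⟩
    · exact absurd h2 Sum.inl_ne_inr
    · exact absurd h1 Sum.inl_ne_inr
  · rintro ⟨i, rfl, h⟩
    exact Or.inr (Or.inl ⟨c, i, v, rfl, rfl, h⟩)

theorem glue_rr {c : C} {v v' : V c} : (glue G' τ).Adj (Sum.inr ⟨c, v⟩) (Sum.inr ⟨c, v'⟩) ↔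
    (G' c).Adj (Sum.inr v) (Sum.inr v') := by
  constructor
  · rintro (⟨κ₁, κ₂, h1, h2, h3⟩ | ⟨c₁, i, v₁, h1, h2, h3⟩ | ⟨c₁, i, v₁, h1, h2, h3⟩ |
      ⟨c₁, v₁, v₂, h1, h2, h3⟩)
    · exact absurd h2 Sum.inr_ne_inl
    · exact absurd h1 Sum.inr_ne_inl
    · exact absurd h1 Sum.inr_ne_inl
    · rw [Sum.inr.injEq, Sigma.mk.injEq] at h1 h2
      obtain ⟨rfl, h1⟩ := h1
      rw [eq_of_heq h1, eq_of_heq h2.2]
      exact h3
  · intro h
    exact Or.inr (Or.inr (Or.inr ⟨c, v, v', rfl, rfl, h⟩))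

theorem glue_idx {p q : Σ c, V c} (h : (glue G' τ).Adj (Sum.inr p) (Sum.inr q)) : p.1 = q.1 := by
  rcases h with ⟨κ₁, κ₂, h1, h2, h3⟩ | ⟨c₁, i, v₁, h1, h2, h3⟩ | ⟨c₁, i, v₁, h1, h2, h3⟩ |
      ⟨c₁, v₁, v₂, h1, h2, h3⟩
  · exact absurd h2 Sum.inr_ne_inl
  · exact absurd h1 Sum.inr_ne_inl
  · exact absurd h1 Sum.inr_ne_inl
  · rw [Sum.inr.injEq] at h1 h2
    rw [h1, h2]

/-- the piece `c` in the glued graph -/
def jc (τ : ∀ c, A c → K) (c : C) : A c ⊕ V c → K ⊕ Σ c, V c :=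
  Sum.map (τ c) (fun v => ⟨c, v⟩)

theorem jc_inj (hτ : ∀ c, Function.Injective (τ c)) (c : C) :
    Function.Injective (jc (V := V) τ c) :=
  Function.Injective.sumMap (hτ c) sigma_mk_injective

theorem glue_jc (hτ : ∀ c, Function.Injective (τ c))
    (hcl : ∀ c (i j : A c), i ≠ j → (G' c).Adj (Sum.inl i) (Sum.inl j)) {c : C}
    {y y' : A c ⊕ V c}
    (h : (glue G' τ).Adj (jc τ c y) (jc τ c y')) : (G' c).Adj y y' := by
  rcases y with i | v <;> rcases y' with i' | v'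
  · refine hcl c i i' fun e => ?_
    exact (glue_ll.1 h) (by rw [e])
  · obtain ⟨i₁, h1, h2⟩ := glue_lr.1 h
    rw [← hτ c h1]
    exact h2
  · obtain ⟨i₁, h1, h2⟩ := glue_lr.1 h.symm
    rw [← hτ c h1]
    exact h2.symm
  · exact glue_rr.1 h

/-- neighbours of the interior of a copy belong to the copy -/
theorem glue_inner {c : C} {v : V c} {z : K ⊕ Σ c, V c}
    (h : (glue G' τ).Adj (Sum.inr ⟨c, v⟩) z) : ∃ y, jc τ c y = z := by
  rcases z with κ | ⟨c', v'⟩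
  · obtain ⟨i, h1, -⟩ := glue_lr.1 h.symm
    exact ⟨Sum.inl i, by rw [← h1]; rfl⟩
  · obtain rfl : c = c' := glue_idx h
    exact ⟨Sum.inr v', rfl⟩

/-- traces of connected sets on a copy -/
theorem conn_trace (hτ : ∀ c, Function.Injective (τ c))
    (hcl : ∀ c (i j : A c), i ≠ j → (G' c).Adj (Sum.inl i) (Sum.inl j)) {S : Set (K ⊕ Σ c, V c)}
    (hS : ((glue G' τ).induce S).Connected) (c : C)
    (h : (∃ i, jc (V := V) τ c (Sum.inl i) ∈ S) ∨ ∀ z ∈ S, ∃ y, jc τ c y = z) :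
    ((G' c).induce (jc τ c ⁻¹' S)).Connected := by
  -- representatives in the copy
  let R : (K ⊕ Σ c, V c) → A c ⊕ V c → Prop := fun s y => (jc τ c y = s) ∨
    ((¬ ∃ y', jc τ c y' = s) ∧ ∃ i₀, y = Sum.inl i₀ ∧ jc (V := V) τ c (Sum.inl i₀) ∈ S ∧
      ∀ i₁ (h1 : ∃ i, jc (V := V) τ c (Sum.inl i) ∈ S), h1.choose = i₁ → i₀ = i₁)
  have hex : ∀ s ∈ S, ∃ y, R s y := by
    intro s hs
    by_cases h1 : ∃ y', jc τ c y' = s
    · obtain ⟨y, hy⟩ := h1
      exact ⟨y, Or.inl hy⟩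
    · rcases h with h | h
      · exact ⟨Sum.inl h.choose, Or.inr ⟨h1, h.choose, rfl, h.choose_spec, fun i₁ h2 h3 => h3⟩⟩
      · exact absurd (h s hs) h1
  have hmem : ∀ s ∈ S, ∀ y, R s y → y ∈ jc τ c ⁻¹' S := by
    rintro s hs y (h1 | ⟨-, i₀, rfl, h1, -⟩)
    · show jc τ c y ∈ S
      rw [h1]
      exact hs
    · exact h1
  have huniq : ∀ s, ∀ y y', R s y → R s y' → y = y' := by
    rintro s y y' (h1 | ⟨h1, i₀, rfl, h2, h3⟩) (h1' | ⟨h1', i₀', rfl, h2', h3'⟩)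
    · exact jc_inj hτ c (h1.trans h1'.symm)
    · exact absurd ⟨y, h1⟩ h1'
    · exact absurd ⟨y', h1'⟩ h1
    · rw [h3 _ ⟨i₀, h2⟩ rfl, h3' _ ⟨i₀, h2⟩ rfl]
  have hadj : ∀ s s₁ y y₁, (glue G' τ).Adj s s₁ → R s y → R s₁ y₁ →
      y = y₁ ∨ (G' c).Adj y y₁ := by
    rintro s s₁ y y₁ hs (rfl | ⟨h1, i₀, rfl, h2, h3⟩) (rfl | ⟨h1', i₀', rfl, h2', h3'⟩)
    · exact Or.inr (glue_jc hτ hcl hs)
    · rcases y with i | v
      · by_cases e : i = i₀'
        · exact Or.inl (by rw [e])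
        · exact Or.inr (hcl _ _ _ e)
      · exact absurd (glue_inner hs) h1'
    · rcases y₁ with i | v
      · by_cases e : i₀ = i
        · exact Or.inl (by rw [e])
        · exact Or.inr (hcl _ _ _ e)
      · exact absurd (glue_inner hs.symm) h1
    · rw [h3 _ ⟨i₀, h2⟩ rfl, h3' _ ⟨i₀, h2⟩ rfl]
      exact Or.inl rfl
  have key : ∀ {s s' : K ⊕ Σ c, V c} (p : (glue G' τ).Walk s s'), (∀ z ∈ p.support, z ∈ S) →
      ∀ y y', R s y → R s' y' → ∃ q : (G' c).Walk y y', ∀ z ∈ q.support, z ∈ jc τ c ⁻¹' S := by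
    intro s s' p
    induction p with
    | @nil s =>
      intro hp y y' hy hy'
      obtain rfl := huniq s y y' hy hy'
      refine ⟨SimpleGraph.Walk.nil, fun z hz => ?_⟩
      rw [SimpleGraph.Walk.support_nil, List.mem_singleton] at hz
      rw [hz]
      exact hmem s (hp s (by simp)) y hy
    | @cons s s₁ s' hs p ih =>
      intro hp y y' hy hy'
      have hsS : s ∈ S := hp s (by simp)
      have hs₁S : s₁ ∈ S := hp s₁ (by
        rw [SimpleGraph.Walk.support_cons]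
        exact List.mem_cons_of_mem _ p.start_mem_support)
      obtain ⟨y₁, hy₁⟩ := hex s₁ hs₁S
      obtain ⟨q, hq⟩ := ih (fun z hz => hp z (by
        rw [SimpleGraph.Walk.support_cons]
        exact List.mem_cons_of_mem _ hz)) y₁ y' hy₁ hy'
      rcases hadj s s₁ y y₁ hs hy hy₁ with rfl | h1
      · exact ⟨q, hq⟩
      · refine ⟨SimpleGraph.Walk.cons h1 q, fun z hz => ?_⟩
        rw [SimpleGraph.Walk.support_cons, List.mem_cons] at hz
        rcases hz with rfl | hz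
        · exact hmem s hsS _ hy
        · exact hq z hz
  obtain ⟨y₀, hy₀⟩ : ∃ y₀, y₀ ∈ jc τ c ⁻¹' S := by
    rcases h with ⟨i, hi⟩ | h
    · exact ⟨Sum.inl i, hi⟩
    · obtain ⟨⟨z, hz⟩⟩ := hS.nonempty
      obtain ⟨y, hy⟩ := h z hz
      exact ⟨y, by show jc τ c y ∈ S; rw [hy]; exact hz⟩
  refine conn_of_walks (G' c) hy₀ ?_
  intro y hy
  obtain ⟨p, hp⟩ := walk_of_conn _ hS (show jc τ c y₀ ∈ S from hy₀) (show jc τ c y ∈ S from hy)
  exact key p hp y₀ y (Or.inl rfl) (Or.inl rfl)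

/-- A connected set which avoids the clique lies in the interior of one copy. -/
theorem conn_avoid {S : Set (K ⊕ Σ c, V c)} (hS : ((glue G' τ).induce S).Connected)
    (h : ∀ κ, (Sum.inl κ : K ⊕ Σ c, V c) ∉ S) : ∃ c, ∀ z ∈ S, ∃ v : V c, z = Sum.inr ⟨c, v⟩ := by
  obtain ⟨⟨z₀, hz₀⟩⟩ := hS.nonempty
  rcases z₀ with κ | ⟨c, v₀⟩
  · exact absurd hz₀ (h κ)
  refine ⟨c, fun z hz => ?_⟩
  obtain ⟨p, hp⟩ := walk_of_conn _ hS hz₀ hz
  have key : ∀ {s s' : K ⊕ Σ c, V c} (p : (glue G' τ).Walk s s'), (∀ z ∈ p.support, z ∈ S) →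
      (∃ v : V c, s = Sum.inr ⟨c, v⟩) → ∃ v : V c, s' = Sum.inr ⟨c, v⟩ := by
    intro s s' p
    induction p with
    | nil => exact fun _ h => h
    | @cons s s₁ s' hs p ih =>
      rintro hp ⟨v, rfl⟩
      refine ih (fun z hz => hp z (by
        rw [SimpleGraph.Walk.support_cons]
        exact List.mem_cons_of_mem _ hz)) ?_
      have hs₁S : s₁ ∈ S := hp s₁ (by
        rw [SimpleGraph.Walk.support_cons]
        exact List.mem_cons_of_mem _ p.start_mem_support)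
      rcases s₁ with κ | ⟨c', v'⟩
      · exact absurd hs₁S (h κ)
      · obtain rfl : c = c' := glue_idx hs
        exact ⟨v', rfl⟩
  exact key p hp ⟨v₀, rfl⟩

end glue

end Pool.Agent.MP_e76e0e_co
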