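import Pool.Agent.MP_e76e0e_co.Odo

/-!
# Two copies of a piece with fewer roots
-/

set_option autoImplicit false
set_option linter.unusedSectionVars false
set_option linter.unusedFintypeInType false

namespace Pool.Agent.MP_e76e0e_co

open Classical

/-- the function `g` below `s`, and `v` from `s` on -/
def upd (g : ℕ → ℝ) (s : ℕ) (v : ℝ) (d : ℕ) : ℝ := if d < s then g d else v

theorem upd_lt {g : ℕ → ℝ} {s : ℕ} {v : ℝ} {d : ℕ} (h : d < s) : upd g s v d = g d := if_pos h

theorem upd_ge {g : ℕ → ℝ} {s : ℕ} {v : ℝ} {d : ℕ} (h : s ≤ d) : upd g s v d = v :=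
  if_neg (not_lt.2 h)

/-- the first position of the piece -/
def pos₁ {s t : ℕ} (m : ℕ) (hts : t < s) (i : Fin t) : Fin s := ⟨i.1 - m, by omega⟩

/-- the second position of the piece -/
def pos₂ {s t : ℕ} (m : ℕ) (hts : t < s) (i : Fin t) : Fin s := ⟨s - 1 - (i.1 - m), by omega⟩

/-- the numbers of roots of the pieces -/
def topA (t s f : ℕ) (c : Bool ⊕ Fin f) : ℕ := Sum.elim (fun _ => t) (fun _ => s + 1) c

/-- the positions of the pieces -/
def topT {s m t : ℕ} (f : ℕ) (hms : m ≤ s) (hm0 : 0 < m) (hts : t < s) :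
    ∀ c : Bool ⊕ Fin f, Fin (topA t s f c) → Fin s ⊕ Fin m
  | Sum.inl true => tau (pos₁ (t := t) m hts)
  | Sum.inl false => tau (pos₂ (t := t) m hts)
  | Sum.inr j => blk hms ⟨j.1 % m, Nat.mod_lt _ hm0⟩

theorem topT_inj {s m t : ℕ} (f : ℕ) (hms : m ≤ s) (hm0 : 0 < m) (hts : t < s) :
    ∀ c, Function.Injective (topT f hms hm0 hts c) := by
  rintro ((_ | _) | j)
  · refine tau_inj (f := pos₂ (t := t) m hts) fun i j hi hj h => ?_
    have h1 : s - 1 - (i.1 - m) = s - 1 - (j.1 - m) := congrArg Fin.val h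
    have := i.2
    have := j.2
    exact Fin.ext (by omega)
  · refine tau_inj (f := pos₁ (t := t) m hts) fun i j hi hj h => ?_
    have h1 : i.1 - m = j.1 - m := congrArg Fin.val h
    exact Fin.ext (by omega)
  · exact blk_inj (hmr := hms) _

theorem comb_top {x σ l EX G : ℝ} {s m t f s₀ : ℕ} {g FX : ℕ → ℝ} (hms : m ≤ s) (hmt : m ≤ t)
    (hm4 : 4 ≤ m) (hts : t < s) (hg : Monotone g) (hg0 : ∀ d, 0 ≤ g d)
    (hgz : ∀ d, d < s₀ → g d = 0) (hG : ∀ d, d < s → g d ≤ G) (hEX : EX ≤ g t)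
    (hFX : ∀ d, d ≤ t → FX d ≤ g d) (hcover : s + 2 * m ≤ 2 * t) (hstar : 2 * t < 2 * s₀ + m)
    (hmx : (m : ℝ) - 1 ≤ x - s) (hσ : 0 < σ) (hσ1 : σ ≤ 1) (hf : f * σ ≤ dd x s m + G + 2)
    (hnum : 2 * (m : ℝ) * (3 * G + 2) ≤ (m - 1) * (m - 2)) (hGl : G ≤ l) (hm0 : 0 < m) :
    Comb x (Sum.elim (fun _ => EX) (fun _ => σ)) (Sum.elim (fun _ => FX) (fun _ _ => 0))
      (upd g s l) (rtA : Fin s ⊕ Fin m → Prop) (topT f hms hm0 hts) := by
  intro W _ cl
  have hmR : (4 : ℝ) ≤ m := by exact_mod_cast hm4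
  have hG0 : 0 ≤ G := (hg0 t).trans (hG t hts)
  have hGm : 3 * G + 2 ≤ (m : ℝ) / 2 := by
    have h1 : ((m : ℝ) - 1) * (m - 2) ≤ m * m := by nlinarith
    have h2 : (m : ℝ) * (2 * (3 * G + 2)) ≤ m * m := by linarith
    have := le_of_mul_le_mul_left h2 (by linarith)
    linarith
  have hρ : Fintype.card {a // PRc (rtA : Fin s ⊕ Fin m → Prop) cl a} ≤ s := by
    refine card_PRc_le.trans ?_
    rw [card_rtA, Fintype.card_fin]
  have hj : Fintype.card {a // PMc (rtA : Fin s ⊕ Fin m → Prop) cl a} ≤ m := by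
    refine card_PMc_le.trans ?_
    rw [card_not_rtA, Fintype.card_fin]
  -- the two copies
  have hv : ∀ fp : Fin t → Fin s, val cl (tau (m := m) fp) EX FX ≤
      g (dcl cl (tau (m := m) fp)) := by
    intro fp
    have h1 : dcl cl (tau (m := m) fp) ≤ t := by
      have := dcl_le_card (cl := cl) (τ := tau (m := m) fp)
      rwa [Fintype.card_fin] at this
    unfold val
    split_ifs with h
    · rw [dcl_of_surv h, Fintype.card_fin]
      exact hEX
    · exact hFX _ h1
  have hvG : ∀ fp : Fin t → Fin s, g (dcl cl (tau (m := m) fp)) ≤ G := by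
    intro fp
    have h1 : dcl cl (tau (m := m) fp) ≤ t := by
      have := dcl_le_card (cl := cl) (τ := tau (m := m) fp)
      rwa [Fintype.card_fin] at this
    exact hG _ (lt_of_le_of_lt h1 hts)
  -- the blocks
  set I : Finset (Fin m) := Finset.univ.filter fun i => Surv cl (blk hms i) with hI
  have hN : Fintype.card {c : Fin f // Surv cl (blk hms ⟨c.1 % m, Nat.mod_lt _ hm0⟩)} =
      Fintype.card {c : Fin f // (⟨c.1 % m, Nat.mod_lt _ hm0⟩ : Fin m) ∈ I} :=
    Fintype.card_congr (Equiv.subtypeEquivRight fun c => by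
      rw [hI, Finset.mem_filter]
      exact ⟨fun h => ⟨Finset.mem_univ _, h⟩, fun h => h.2⟩)
  have hcount := count_blocks (w := f) hm0 I
  rw [← hN] at hcount
  have hNw : Fintype.card {c : Fin f // Surv cl (blk hms ⟨c.1 % m, Nat.mod_lt _ hm0⟩)} ≤ f := by
    refine (Fintype.card_subtype_le _).trans ?_
    rw [Fintype.card_fin]
  have hsum : (∑ c, val cl (topT f hms hm0 hts c)
      ((Sum.elim (fun _ => EX) (fun _ => σ) : Bool ⊕ Fin f → ℝ) c)
      ((Sum.elim (fun _ => FX) (fun _ _ => 0) : Bool ⊕ Fin f → ℕ → ℝ) c)) =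
      val cl (tau (m := m) (pos₁ (t := t) m hts)) EX FX +
      val cl (tau (m := m) (pos₂ (t := t) m hts)) EX FX +
      Fintype.card {c : Fin f // Surv cl (blk hms ⟨c.1 % m, Nat.mod_lt _ hm0⟩)} * σ := by
    rw [Fintype.sum_sum_type, Fintype.sum_bool]
    congr 1
    show (∑ c : Fin f, val cl (blk hms ⟨c.1 % m, Nat.mod_lt _ hm0⟩) σ (fun _ => 0)) = _
    unfold val
    rw [← Finset.sum_filter, Finset.sum_const, nsmul_eq_mul, Fintype.card_subtype]
  rw [hsum]
  generalize hNg : Fintype.card {c : Fin f // Surv cl (blk hms ⟨c.1 % m, Nat.mod_lt _ hm0⟩)} = N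
    at hcount hNw
  rw [card_rtA, card_not_rtA, Fintype.card_fin, Fintype.card_fin]
  have hv1 := hv (pos₁ (t := t) m hts)
  have hv2 := hv (pos₂ (t := t) m hts)
  have hG1 := hvG (pos₁ (t := t) m hts)
  have hG2 := hvG (pos₂ (t := t) m hts)
  have hρR : ((Fintype.card {a // PRc (rtA : Fin s ⊕ Fin m → Prop) cl a} : ℕ) : ℝ) ≤ s := by
    exact_mod_cast hρ
  have hjR : ((Fintype.card {a // PMc (rtA : Fin s ⊕ Fin m → Prop) cl a} : ℕ) : ℝ) ≤ m := by
    exact_mod_cast hj
  have hF0 : ∀ d, 0 ≤ upd g s l d := by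
    intro d
    unfold upd
    split_ifs
    · exact hg0 d
    · linarith
  by_cases hI0 : I = ∅
  · left
    have hN0 : N = 0 := by
      rw [hI0, Finset.card_empty, zero_mul] at hcount
      have := Nat.le_zero.1 hcount
      rcases Nat.mul_eq_zero.1 this with h | h
      · omega
      · exact h
    rw [hN0, Nat.cast_zero, zero_mul, add_zero]
    by_cases hj0 : Fintype.card {a // PMc (rtA : Fin s ⊕ Fin m → Prop) cl a} = 0
    · -- every class contains a root
      have h2 := dcl_two hmt (f₁ := pos₁ (t := t) m hts) (f₂ := pos₂ (t := t) m hts) (cl := cl) (by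
        intro l
        have hl := l.2
        rcases Nat.lt_or_ge l.1 (t - m) with h | h
        · left
          refine ⟨⟨l.1 + m, by omega⟩, by show m ≤ l.1 + m; omega, Fin.ext ?_⟩
          show l.1 + m - m = l.1
          omega
        · right
          refine ⟨⟨s - 1 - l.1 + m, by omega⟩, by show m ≤ s - 1 - l.1 + m; omega, Fin.ext ?_⟩
          show s - 1 - (s - 1 - l.1 + m - m) = l.1
          omega) hj0
      have hc1 := dcl_le_classes (rtK := (rtA : Fin s ⊕ Fin m → Prop)) (cl := cl)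
        (τ := tau (m := m) (pos₁ (t := t) m hts))
      have hc2 := dcl_le_classes (rtK := (rtA : Fin s ⊕ Fin m → Prop)) (cl := cl)
        (τ := tau (m := m) (pos₂ (t := t) m hts))
      rw [hj0, add_zero] at hc1 hc2
      have hdd : 0 ≤ dd x (Fintype.card {a // PRc (rtA : Fin s ⊕ Fin m → Prop) cl a})
          (Fintype.card {a // PMc (rtA : Fin s ⊕ Fin m → Prop) cl a}) :=
        dd_nonneg (by linarith)
      have hmain : ∀ d, d ≤ Fintype.card {a // PRc (rtA : Fin s ⊕ Fin m → Prop) cl a} →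
          g d ≤ G → g d ≤ upd g s l (Fintype.card {a // PRc (rtA : Fin s ⊕ Fin m → Prop) cl a}) := by
        intro d hd hdG
        rcases Nat.lt_or_ge (Fintype.card {a // PRc (rtA : Fin s ⊕ Fin m → Prop) cl a}) s with h | h
        · rw [upd_lt h]
          exact hg hd
        · rw [upd_ge h]
          linarith
      have h3 := hmain _ hc1 hG1
      have h4 := hmain _ hc2 hG2
      have h5 : dcl cl (tau (m := m) (pos₁ (t := t) m hts)) < s₀ ∨
          dcl cl (tau (m := m) (pos₂ (t := t) m hts)) < s₀ := by omega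
      rcases h5 with h5 | h5
      · have := hgz _ h5
        linarith
      · have := hgz _ h5
        linarith
    · have h1 : 1 ≤ Fintype.card {a // PMc (rtA : Fin s ⊕ Fin m → Prop) cl a} := by omega
      have h2 := dd_mono (x := x) (r := Fintype.card {a // PRc (rtA : Fin s ⊕ Fin m → Prop) cl a})
        h1 (by linarith)
      rw [dd_one] at h2
      have h3 := hF0 (Fintype.card {a // PRc (rtA : Fin s ⊕ Fin m → Prop) cl a})
      linarith
  · obtain ⟨i₀, hi₀⟩ := Finset.nonempty_iff_ne_empty.2 hI0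
    have hs₀ : Surv cl (blk hms i₀) := (Finset.mem_filter.1 hi₀).2
    have hsj := blk_classes hs₀
    rw [← hI] at hsj
    have hI1 : 1 ≤ I.card := Finset.card_pos.2 ⟨i₀, hi₀⟩
    have hF := hF0 (Fintype.card {a // PRc (rtA : Fin s ⊕ Fin m → Prop) cl a})
    generalize Fintype.card {a // PMc (rtA : Fin s ⊕ Fin m → Prop) cl a} = j' at hj hsj hjR ⊢
    generalize Fintype.card {a // PRc (rtA : Fin s ⊕ Fin m → Prop) cl a} = ρ' at hρ hρR hF ⊢
    rcases Nat.lt_or_ge I.card m with hlt | hge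
    · left
      have h1 := num_top hσ hσ1 hG0 hf hI1 hlt hcount hnum
      have h2 := (dd_mono (x := x) (r := s) hsj (by linarith)).trans (dd_anti hρ)
      linarith
    · have hjm : j' = m := by omega
      subst hjm
      rcases Nat.lt_or_ge ρ' s with h3 | h3
      · left
        obtain ⟨k, rfl⟩ := Nat.exists_eq_add_of_lt h3
        have h4 : ((N : ℕ) : ℝ) ≤ f := by exact_mod_cast hNw
        have h5 : (N : ℝ) * σ ≤ f * σ := mul_le_mul_of_nonneg_right h4 hσ.le
        have h7 : (0 : ℝ) ≤ k := Nat.cast_nonneg k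
        unfold dd at hf ⊢
        push_cast at hf
        nlinarith
      · right
        exact ⟨le_antisymm hρ h3, rfl⟩

end Pool.Agent.MP_e76e0e_co
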